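import Mathlib

namespace Pool.Agent.MP_cd93fa_pr

open Finset

/-- The probability `a ^ α / (a ^ α + b ^ α)` that a ball goes to the bin with content `a`,
when the other bin has content `b`. -/
noncomputable def pr (α a b : ℝ) : ℝ := a ^ α / (a ^ α + b ^ α)

/-- The logistic function. -/
noncomputable def sg (z : ℝ) : ℝ := 1 / (1 + Real.exp (-z))

lemma sg_pos (z : ℝ) : 0 < sg z := by unfold sg; positivity

lemma sg_lt_one (z : ℝ) : sg z < 1 := by
  unfold sg
  rw [div_lt_one (by positivity)]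
  linarith [Real.exp_pos (-z)]

lemma sg_neg (z : ℝ) : sg (-z) = 1 - sg z := by
  unfold sg
  have h1 : (1 + Real.exp (-z)) ≠ 0 := by positivity
  have h2 : (1 + Real.exp z) ≠ 0 := by positivity
  rw [neg_neg]
  field_simp
  rw [add_mul, one_mul]
  have : Real.exp (-z) * Real.exp z = 1 := by rw [← Real.exp_add]; simp
  nlinarith [this]

lemma sg_le_exp (z : ℝ) : sg z ≤ Real.exp z := by
  unfold sg
  rw [div_le_iff₀ (by positivity), mul_add, mul_one, ← Real.exp_add]
  simp
  exact (Real.exp_pos z).le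

lemma sg_sub (a b : ℝ) : sg a - sg b = (Real.exp (-b) - Real.exp (-a)) /
    ((1 + Real.exp (-a)) * (1 + Real.exp (-b))) := by
  unfold sg
  have h1 : (1 + Real.exp (-a)) ≠ 0 := by positivity
  have h2 : (1 + Real.exp (-b)) ≠ 0 := by positivity
  field_simp
  ring

lemma sg_mono {a b : ℝ} (h : a ≤ b) : sg a ≤ sg b := by
  unfold sg
  apply one_div_le_one_div_of_le (by positivity)
  have := Real.exp_le_exp.mpr (neg_le_neg h)
  linarith

/-- Lower Lipschitz bound of the logistic function on a bounded interval. -/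
lemma sg_sub_lower {a b C : ℝ} (hab : b ≤ a) (ha : |a| ≤ C) (hb : |b| ≤ C) :
    (Real.exp (-C) / (1 + Real.exp C) ^ 2) * (a - b) ≤ sg a - sg b := by
  rw [sg_sub]
  have hC : 0 ≤ C := le_trans (abs_nonneg _) ha
  have h1 : Real.exp (-C) * (a - b) ≤ Real.exp (-b) - Real.exp (-a) := by
    have e1 : Real.exp (-b) = Real.exp (-a) * Real.exp (a - b) := by
      rw [← Real.exp_add]; ring_nf
    have e2 : a - b + 1 ≤ Real.exp (a - b) := Real.add_one_le_exp _
    have e3 : Real.exp (-C) ≤ Real.exp (-a) := Real.exp_le_exp.mpr (by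
      have := abs_le.mp ha; linarith [this.2])
    have e4 : 0 ≤ a - b := by linarith
    calc Real.exp (-C) * (a - b) ≤ Real.exp (-a) * (a - b) :=
          mul_le_mul_of_nonneg_right e3 e4
      _ ≤ Real.exp (-a) * (Real.exp (a - b) - 1) := by
          apply mul_le_mul_of_nonneg_left (by linarith) (Real.exp_pos _).le
      _ = Real.exp (-b) - Real.exp (-a) := by rw [e1]; ring
  have h2 : (1 + Real.exp (-a)) * (1 + Real.exp (-b)) ≤ (1 + Real.exp C) ^ 2 := by
    have e1 : Real.exp (-a) ≤ Real.exp C := Real.exp_le_exp.mpr (by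
      have := abs_le.mp ha; linarith [this.1])
    have e2 : Real.exp (-b) ≤ Real.exp C := Real.exp_le_exp.mpr (by
      have := abs_le.mp hb; linarith [this.1])
    rw [sq]
    apply mul_le_mul (by linarith) (by linarith) (by positivity) (by positivity)
  rw [div_mul_eq_mul_div]
  apply div_le_div₀ _ h1 (by positivity) h2
  have := Real.exp_pos (-C)
  nlinarith [mul_nonneg this.le (show (0:ℝ) ≤ a - b by linarith)]

/-- Upper Lipschitz bound of the logistic function far from the origin (positive side). -/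
lemma sg_sub_upper_pos {a b h : ℝ} (hab : b ≤ a) (hb : h ≤ b) :
    sg a - sg b ≤ Real.exp (-h) * (a - b) := by
  rw [sg_sub]
  have h1 : Real.exp (-b) - Real.exp (-a) ≤ Real.exp (-h) * (a - b) := by
    have e1 : Real.exp (-a) = Real.exp (-b) * Real.exp (-(a - b)) := by
      rw [← Real.exp_add]; ring_nf
    have e2 : -(a - b) + 1 ≤ Real.exp (-(a - b)) := Real.add_one_le_exp _
    have e3 : Real.exp (-b) ≤ Real.exp (-h) := Real.exp_le_exp.mpr (by linarith)
    have e4 : 0 ≤ a - b := by linarith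
    calc Real.exp (-b) - Real.exp (-a) = Real.exp (-b) * (1 - Real.exp (-(a - b))) := by
          rw [e1]; ring
      _ ≤ Real.exp (-b) * (a - b) := by
          apply mul_le_mul_of_nonneg_left (by linarith) (Real.exp_pos _).le
      _ ≤ Real.exp (-h) * (a - b) := mul_le_mul_of_nonneg_right e3 e4
  have h2 : (1:ℝ) ≤ (1 + Real.exp (-a)) * (1 + Real.exp (-b)) := by
    nlinarith [Real.exp_pos (-a), Real.exp_pos (-b),
      mul_pos (Real.exp_pos (-a)) (Real.exp_pos (-b))]
  have h3 : 0 ≤ Real.exp (-b) - Real.exp (-a) := by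
    have := Real.exp_le_exp.mpr (neg_le_neg hab)
    linarith
  calc _ ≤ Real.exp (-b) - Real.exp (-a) := div_le_self h3 h2
    _ ≤ _ := h1

/-- Upper Lipschitz bound of the logistic function far from the origin, both sides. -/
lemma sg_sub_abs_le {a b h : ℝ} (H : (h ≤ a ∧ h ≤ b) ∨ (a ≤ -h ∧ b ≤ -h)) :
    |sg a - sg b| ≤ Real.exp (-h) * |a - b| := by
  rcases H with ⟨h1, h2⟩ | ⟨h1, h2⟩
  · rcases le_total b a with hab | hab
    · rw [abs_of_nonneg (by linarith : 0 ≤ a - b),
        abs_of_nonneg (by linarith [sg_mono hab] : 0 ≤ sg a - sg b)]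
      exact sg_sub_upper_pos hab h2
    · rw [abs_sub_comm, abs_sub_comm a b, abs_of_nonneg (by linarith : 0 ≤ b - a),
        abs_of_nonneg (by linarith [sg_mono hab] : 0 ≤ sg b - sg a)]
      exact sg_sub_upper_pos hab h1
  · have ea : sg a = 1 - sg (-a) := by rw [sg_neg]; ring
    have eb : sg b = 1 - sg (-b) := by rw [sg_neg]; ring
    have : sg a - sg b = sg (-b) - sg (-a) := by rw [ea, eb]; ring
    rw [this]
    have e2 : |a - b| = |(-b) - (-a)| := by congr 1; ring
    rw [e2]
    rcases le_total (-a) (-b) with hab | hab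
    · rw [abs_of_nonneg (by linarith : 0 ≤ -b - -a),
        abs_of_nonneg (by linarith [sg_mono hab] : 0 ≤ sg (-b) - sg (-a))]
      exact sg_sub_upper_pos hab (by linarith)
    · rw [abs_sub_comm, abs_sub_comm (-b) (-a), abs_of_nonneg (by linarith : 0 ≤ -a - -b),
        abs_of_nonneg (by linarith [sg_mono hab] : 0 ≤ sg (-a) - sg (-b))]
      exact sg_sub_upper_pos hab (by linarith)

/-! ### The two-bin probability -/

lemma pr_den_pos {α a b : ℝ} (ha : 0 ≤ a) (hb : 0 ≤ b) (hab : 0 < a + b) :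
    0 < a ^ α + b ^ α := by
  rcases ha.lt_or_eq with h | h
  · have := Real.rpow_pos_of_pos h α
    have := Real.rpow_nonneg hb α
    linarith
  · have hb' : 0 < b := by linarith
    have := Real.rpow_pos_of_pos hb' α
    have := Real.rpow_nonneg ha α
    linarith

lemma pr_nonneg {α a b : ℝ} (ha : 0 ≤ a) (hb : 0 ≤ b) : 0 ≤ pr α a b := by
  unfold pr
  have := Real.rpow_nonneg ha α
  have := Real.rpow_nonneg hb α
  positivity

lemma pr_le_one {α a b : ℝ} (ha : 0 ≤ a) (hb : 0 ≤ b) : pr α a b ≤ 1 := by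
  unfold pr
  have h1 := Real.rpow_nonneg ha α
  have h2 := Real.rpow_nonneg hb α
  apply div_le_one_of_le₀ (by linarith) (by positivity)

lemma one_sub_pr {α a b : ℝ} (ha : 0 ≤ a) (hb : 0 ≤ b) (hab : 0 < a + b) :
    1 - pr α a b = pr α b a := by
  unfold pr
  have := pr_den_pos (α := α) ha hb hab
  rw [add_comm (b ^ α)]
  field_simp
  ring

lemma pr_eq_sg {α a b : ℝ} (ha : 0 < a) (hb : 0 < b) :
    pr α a b = sg (α * Real.log a - α * Real.log b) := by
  unfold pr sg
  rw [Real.rpow_def_of_pos ha, Real.rpow_def_of_pos hb]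
  have h1 : Real.exp (Real.log b * α) = Real.exp (Real.log a * α) *
      Real.exp (-(α * Real.log a - α * Real.log b)) := by
    rw [← Real.exp_add]; ring_nf
  rw [h1]
  have : Real.exp (Real.log a * α) ≠ 0 := (Real.exp_pos _).ne'
  field_simp

lemma pr_zero_right {α a : ℝ} (hα : α ≠ 0) (ha : 0 < a) : pr α a 0 = 1 := by
  unfold pr
  rw [Real.zero_rpow hα, add_zero, div_self (Real.rpow_pos_of_pos ha α).ne']

lemma pr_zero_left {α b : ℝ} (hα : α ≠ 0) : pr α 0 b = 0 := by
  unfold pr
  rw [Real.zero_rpow hα, zero_div]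

lemma half_le_pr {α a b : ℝ} (hα : 0 ≤ α) (ha : 0 < a) (hb : 0 ≤ b) (h : b ≤ a) :
    1 / 2 ≤ pr α a b := by
  unfold pr
  have h1 := Real.rpow_pos_of_pos ha α
  have h2 := Real.rpow_nonneg hb α
  have h3 : b ^ α ≤ a ^ α := Real.rpow_le_rpow hb h hα
  rw [div_le_div_iff₀ (by norm_num) (by positivity)]
  linarith

/-- For `y ≥ x > 0`, `y - x ≤ y * (log y - log x)`. -/
lemma sub_le_mul_log {x y : ℝ} (hx : 0 < x) (hy : 0 < y) :
    y - x ≤ y * (Real.log y - Real.log x) := by
  have h := Real.one_sub_inv_le_log_of_pos (div_pos hy hx)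
  rw [Real.log_div hy.ne' hx.ne', inv_div] at h
  calc y - x = y * (1 - x / y) := by field_simp
    _ ≤ _ := mul_le_mul_of_nonneg_left h hy.le

/-- `x * (log y - log x) ≤ y - x`. -/
lemma mul_log_le_sub {x y : ℝ} (hx : 0 < x) (hy : 0 < y) :
    x * (Real.log y - Real.log x) ≤ y - x := by
  have h := sub_le_mul_log hy hx
  nlinarith [h]

lemma abs_sub_le_mul_abs_log {x y : ℝ} (hx : 0 < x) (hy : 0 < y) :
    |y - x| ≤ (x + y) * |Real.log y - Real.log x| := by
  rcases le_total x y with h | h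
  · have hl : Real.log x ≤ Real.log y := Real.log_le_log hx h
    rw [abs_of_nonneg (by linarith : 0 ≤ y - x), abs_of_nonneg (by linarith)]
    have := sub_le_mul_log hx hy
    nlinarith [mul_nonneg hx.le (by linarith : 0 ≤ Real.log y - Real.log x)]
  · have hl : Real.log y ≤ Real.log x := Real.log_le_log hy h
    rw [abs_sub_comm, abs_sub_comm (Real.log y), abs_of_nonneg (by linarith : 0 ≤ x - y),
      abs_of_nonneg (by linarith)]
    have := sub_le_mul_log hy hx
    nlinarith [mul_nonneg hy.le (by linarith : 0 ≤ Real.log x - Real.log y)]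

/-! ### The pigeonhole gap lemma -/

lemma exists_gap {V : Type*} [Fintype V] (u : V → ℝ) (i : V) {L : ℝ} (hL : 0 < L) :
    ∃ l : ℕ, l < Fintype.card V ∧ ∀ k, ¬ (u i + l * L < u k ∧ u k < u i + (l + 1) * L) := by
  classical
  by_contra hcon
  push Not at hcon
  have h1 : ∀ l : Fin (Fintype.card V), ∃ k, u i + (l:ℕ) * L < u k ∧
      u k < u i + ((l:ℕ) + 1) * L := fun l => hcon l l.2
  choose k hk using h1
  have hinj : Function.Injective k := by
    intro a b hab
    have ha := hk a
    have hb := hk b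
    rw [hab] at ha
    have h2 : ((a:ℕ):ℝ) < (b:ℕ) + 1 := by
      by_contra hc
      push Not at hc
      nlinarith [ha.1, hb.2, mul_le_mul_of_nonneg_right hc hL.le]
    have h3 : ((b:ℕ):ℝ) < (a:ℕ) + 1 := by
      by_contra hc
      push Not at hc
      nlinarith [ha.2, hb.1, mul_le_mul_of_nonneg_right hc hL.le]
    have h2' : (a:ℕ) < b + 1 := by exact_mod_cast h2
    have h3' : (b:ℕ) < a + 1 := by exact_mod_cast h3
    exact Fin.ext (by omega)
  have hbij : Function.Bijective k :=
    (Fintype.bijective_iff_injective_and_card k).mpr ⟨hinj, by simp⟩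
  obtain ⟨l, hl⟩ := hbij.2 i
  have := (hk l).1
  rw [hl] at this
  have h0 : 0 ≤ ((l:ℕ):ℝ) * L := by positivity
  linarith

lemma exists_gap_down {V : Type*} [Fintype V] (u : V → ℝ) (i : V) {L : ℝ} (hL : 0 < L) :
    ∃ l : ℕ, l < Fintype.card V ∧ ∀ k, ¬ (u i - (l + 1) * L < u k ∧ u k < u i - l * L) := by
  obtain ⟨l, hl, h⟩ := exists_gap (fun k => - u k) i hL
  refine ⟨l, hl, fun k hk => h k ⟨by linarith [hk.2], by linarith [hk.1]⟩⟩

end Pool.Agent.MP_cd93fa_pr
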