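import Mathlib

namespace Pool.Agent.MP_cd93fa_pr

open Finset Filter Topology

lemma dist_le_of_step {X : Type*} [PseudoMetricSpace X] (x : ℕ → X) {A : ℝ} (hA : 0 ≤ A)
    (hstep : ∀ n, dist (x (n + 1)) (x n) ≤ A / (n + 1)) (n j : ℕ) :
    dist (x (n + j)) (x n) ≤ A * j / (n + 1) := by
  induction j with
  | zero => simp
  | succ j ih =>
    have h1 := hstep (n + j)
    have h2 : A / ((n + j : ℕ) + 1 : ℝ) ≤ A / (n + 1) := by
      apply div_le_div_of_nonneg_left hA (by positivity)
      push_cast
      have : (0:ℝ) ≤ j := Nat.cast_nonneg _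
      linarith
    calc dist (x (n + (j + 1))) (x n) ≤ dist (x (n + j + 1)) (x (n + j)) +
          dist (x (n + j)) (x n) := dist_triangle _ _ _
      _ ≤ A / (n + 1) + A * j / (n + 1) := add_le_add (h1.trans h2) ih
      _ = A * ((j + 1 : ℕ) : ℝ) / (n + 1) := by push_cast; ring

lemma exists_pos_le_dist {X : Type*} [MetricSpace X] {Λ : Set X} (h : Λ.Finite) :
    ∃ r > 0, ∀ z ∈ Λ, ∀ w ∈ Λ, z ≠ w → r ≤ dist z w := by
  classical
  set P : Finset (X × X) := (h.toFinset ×ˢ h.toFinset).filter (fun p => p.1 ≠ p.2) with hP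
  rcases P.eq_empty_or_nonempty with he | hne
  · refine ⟨1, one_pos, fun z hz w hw hzw => ?_⟩
    have : (z, w) ∈ P := by simp [hP, hz, hw, hzw]
    rw [he] at this
    simp at this
  · obtain ⟨p, hp, hmin⟩ := Finset.exists_min_image P (fun p => dist p.1 p.2) hne
    refine ⟨dist p.1 p.2, ?_, fun z hz w hw hzw => ?_⟩
    · have : p.1 ≠ p.2 := by
        rw [hP, Finset.mem_filter] at hp
        exact hp.2
      exact dist_pos.mpr this
    · exact hmin (z, w) (by simp [hP, hz, hw, hzw])

theorem conv_of_finite {X : Type*} [MetricSpace X] (x : ℕ → X) {K : Set X} (hK : IsCompact K)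
    (hx : ∀ n, x n ∈ K) {A : ℝ} (hA : 0 ≤ A)
    (hstep : ∀ n, dist (x (n + 1)) (x n) ≤ A / (n + 1)) {F : X → ℝ} (hF : ContinuousOn F K)
    (hF0 : ∀ z, 0 ≤ F z) (hsum : Summable (fun n : ℕ => F (x n) / (n + 1)))
    (hfin : {z | z ∈ K ∧ F z = 0}.Finite) :
    ∃ z ∈ K, F z = 0 ∧ Tendsto x atTop (𝓝 z) := by
  -- Step 1 : `F (x n) → 0`
  have hUC := hK.uniformContinuousOn_of_continuous hF
  rw [Metric.uniformContinuousOn_iff] at hUC
  have hcauchy : CauchySeq (fun n => ∑ k ∈ Finset.range n, F (x k) / ((k:ℝ) + 1)) :=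
    hsum.hasSum.tendsto_sum_nat.cauchySeq
  rw [Metric.cauchySeq_iff] at hcauchy
  have step1 : ∀ ε > 0, ∀ᶠ n in atTop, F (x n) < 2 * ε := by
    intro ε hε
    obtain ⟨η, hη, hη'⟩ := hUC ε hε
    obtain ⟨ρ, hρ, hρ'⟩ : ∃ ρ : ℝ, 0 < ρ ∧ A * ρ < η := by
      refine ⟨η / (2 * (A + 1)), by positivity, ?_⟩
      rw [mul_div_assoc', div_lt_iff₀ (by positivity)]
      nlinarith
    obtain ⟨n0, hn0⟩ := hcauchy (ε * (ρ / (2 + ρ))) (by positivity)
    filter_upwards [eventually_ge_atTop n0, eventually_ge_atTop 1] with n hn hn1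
    by_contra hcon
    push Not at hcon
    have hn1' : (1:ℝ) ≤ n := by exact_mod_cast hn1
    set r := ⌊ρ * n⌋₊ + 1 with hr
    have hr1 : ρ * n ≤ r := by
      rw [hr]; push_cast; exact (Nat.lt_floor_add_one _).le
    have hr2 : (r:ℝ) ≤ ρ * n + 1 := by
      rw [hr]; push_cast
      have := Nat.floor_le (show 0 ≤ ρ * n by positivity)
      linarith
    have hge : ∀ j, j < r → ε ≤ F (x (n + j)) := by
      intro j hj
      have h1 := dist_le_of_step x hA hstep n j
      have hj' : (j:ℝ) ≤ ρ * n := by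
        have : j ≤ ⌊ρ * n⌋₊ := by omega
        exact (Nat.le_floor_iff (by positivity)).mp this
      have h2 : A * j / (n + 1) < η := by
        rw [div_lt_iff₀ (by positivity)]
        calc A * j ≤ A * (ρ * n) := mul_le_mul_of_nonneg_left hj' hA
          _ = (A * ρ) * n := by ring
          _ ≤ η * n := mul_le_mul_of_nonneg_right hρ'.le (by positivity)
          _ < η * (n + 1) := by nlinarith
      have h3 := hη' _ (hx (n + j)) _ (hx n) (lt_of_le_of_lt h1 h2)
      rw [Real.dist_eq] at h3
      have := abs_lt.mp h3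
      linarith
    have h4 := hn0 (n + r) (by omega) n hn
    rw [Real.dist_eq, ← Finset.sum_Ico_eq_sub _ (by omega : n ≤ n + r)] at h4
    have h5 : ε * (ρ / (2 + ρ)) ≤ ∑ k ∈ Finset.Ico n (n + r), F (x k) / ((k:ℝ) + 1) := by
      have h6 : ∀ k ∈ Finset.Ico n (n + r), ε / (n + r) ≤ F (x k) / ((k:ℝ) + 1) := by
        intro k hk
        rw [Finset.mem_Ico] at hk
        have e1 := hge (k - n) (by omega)
        rw [show n + (k - n) = k by omega] at e1
        have e2 : (k:ℝ) + 1 ≤ n + r := by exact_mod_cast hk.2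
        calc ε / (n + r) ≤ ε / (k + 1) := div_le_div_of_nonneg_left hε.le (by positivity) e2
          _ ≤ _ := div_le_div_of_nonneg_right e1 (by positivity)
      have h7 := Finset.card_nsmul_le_sum _ _ _ h6
      rw [Nat.card_Ico, nsmul_eq_mul, show n + r - n = r by omega] at h7
      refine le_trans ?_ h7
      have h8 : ρ / (2 + ρ) ≤ r / (n + r) := by
        rw [div_le_div_iff₀ (by positivity) (by positivity)]
        nlinarith
      calc ε * (ρ / (2 + ρ)) ≤ ε * (r / (n + r)) := mul_le_mul_of_nonneg_left h8 hε.le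
        _ = _ := by ring
    have h9 := le_abs_self (∑ k ∈ Finset.Ico n (n + r), F (x k) / ((k:ℝ) + 1))
    linarith
  set Λ : Set X := {z | z ∈ K ∧ F z = 0} with hΛ
  -- Step 2 : `x n` approaches `Λ`
  have step2 : ∀ δ > 0, ∀ᶠ n in atTop, ∃ z ∈ Λ, dist (x n) z < δ := by
    intro δ hδ
    set K' : Set X := K \ ⋃ z ∈ Λ, Metric.ball z δ with hK'
    have hK'c : IsCompact K' := hK.diff (isOpen_biUnion fun z _ => Metric.isOpen_ball)
    rcases K'.eq_empty_or_nonempty with he | hne
    · refine Eventually.of_forall fun n => ?_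
      by_contra hcon
      push Not at hcon
      have : x n ∈ K' := by
        refine ⟨hx n, ?_⟩
        simp only [Set.mem_iUnion, Metric.mem_ball, not_exists, not_lt]
        exact hcon
      rw [he] at this
      exact this
    · obtain ⟨z0, hz0, hmin⟩ := hK'c.exists_isMinOn hne (hF.mono Set.sdiff_subset)
      have hpos : 0 < F z0 := by
        rcases (hF0 z0).eq_or_lt with h | h
        · exfalso
          apply hz0.2
          simp only [Set.mem_iUnion]
          exact ⟨z0, ⟨hz0.1, h.symm⟩, Metric.mem_ball_self hδ⟩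
        · exact h
      filter_upwards [step1 (F z0 / 2) (by positivity)] with n hn
      by_contra hcon
      push Not at hcon
      have : x n ∈ K' := by
        refine ⟨hx n, ?_⟩
        simp only [Set.mem_iUnion, Metric.mem_ball, not_exists, not_lt]
        exact hcon
      have h1 : F z0 ≤ F (x n) := hmin this
      linarith
  -- Step 3
  obtain ⟨r, hr, hsep⟩ := exists_pos_le_dist hfin
  have hstep0 : ∀ᶠ n : ℕ in atTop, A / ((n:ℝ) + 1) < r / 3 := by
    have : Tendsto (fun n : ℕ => A / ((n:ℝ) + 1)) atTop (𝓝 0) :=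
      tendsto_const_nhds.div_atTop (tendsto_natCast_atTop_atTop.atTop_add tendsto_const_nhds)
    exact this.eventually_lt_const (by positivity)
  obtain ⟨n1, hn1⟩ := eventually_atTop.mp ((step2 (r / 3) (by positivity)).and hstep0)
  obtain ⟨z, hz, hzd⟩ := (hn1 n1 le_rfl).1
  have hall : ∀ n, n1 ≤ n → dist (x n) z < r / 3 := by
    intro n hn
    induction n, hn using Nat.le_induction with
    | base => exact hzd
    | succ n hn ih =>
      obtain ⟨w, hw, hwd⟩ := (hn1 (n + 1) (by omega)).1
      have h1 := hstep n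
      have h2 := (hn1 n hn).2
      have : w = z := by
        by_contra hne
        have h3 := hsep w hw z hz hne
        have h4 : dist w z ≤ dist w (x (n + 1)) + dist (x (n + 1)) (x n) + dist (x n) z := by
          calc dist w z ≤ dist w (x n) + dist (x n) z := dist_triangle _ _ _
            _ ≤ _ := by
              have := dist_triangle w (x (n + 1)) (x n)
              linarith
        have h5 := dist_comm w (x (n + 1))
        linarith
      rw [← this]; exact hwd
  refine ⟨z, hz.1, hz.2, ?_⟩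
  rw [Metric.tendsto_atTop]
  intro δ hδ
  obtain ⟨n2, hn2⟩ := eventually_atTop.mp (step2 (min δ (r / 3)) (by positivity))
  refine ⟨max n1 n2, fun n hn => ?_⟩
  obtain ⟨w, hw, hwd⟩ := hn2 n ((le_max_right _ _).trans hn)
  have h1 := hall n ((le_max_left _ _).trans hn)
  have : w = z := by
    by_contra hne
    have h3 := hsep w hw z hz hne
    have h4 : dist w z ≤ dist w (x n) + dist (x n) z := dist_triangle _ _ _
    have h5 := dist_comm w (x n)
    have := hwd.trans_le (min_le_right _ _)
    linarith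
  rw [← this]
  exact hwd.trans_le (min_le_left _ _)

end Pool.Agent.MP_cd93fa_pr
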