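import Pool.Agent.MP_cd93fa_pr.Stay

namespace Pool.Agent.MP_cd93fa_pr

open Finset Filter Topology
open scoped RealInnerProductSpace

variable {V : Type*} [Fintype V] [DecidableEq V] {E : Type*} [Fintype E] [DecidableEq E]
variable {s t : E → V} {α N0 : ℝ} {U : Set (V → ℝ)}

/-- Rescaled difference of two states. -/
noncomputable def dv (x : V → ℝ) (b b' : V → ℕ) : EuclideanSpace ℝ V :=
  io x (fun i => (b' i : ℝ) - b i)

omit [DecidableEq E] in
lemma dv_step (x : V → ℝ) (b b' : V → ℕ) (c : E → Bool × Bool) :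
    dv x (fun i => b i + inc s t (fun e => (c e).1) i)
      (fun i => b' i + inc s t (fun e => (c e).2) i) = dv x b b' + Dl (gv s t x) c := by
  unfold dv Dl gv
  simp_rw [← io_smul]
  rw [← io_sum, ← io_add]
  congr 1
  funext i
  simp only [Pi.add_apply, Finset.sum_apply, Pi.smul_apply, smul_eq_mul, inc]
  push_cast
  have h : ∀ e, (if dest s t (fun e => (c e).2) e = i then (1:ℝ) else 0) -
      (if dest s t (fun e => (c e).1) e = i then (1:ℝ) else 0) =
      rr (c e) * ((if s e = i then 1 else 0) - (if t e = i then 1 else 0)) := by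
    intro e
    unfold dest rr
    rcases h1 : (c e).1 <;> rcases h2 : (c e).2 <;> simp [h1, h2]
  have h2 := Finset.sum_congr (s₁ := Finset.univ) rfl (fun e _ => h e)
  rw [Finset.sum_sub_distrib] at h2
  rw [← h2]
  ring

omit [DecidableEq V] in
lemma norm_io_sq {x : V → ℝ} (hx : ∀ i, 0 < x i) (D : V → ℝ) :
    ‖io x D‖ ^ 2 = ∑ i, D i ^ 2 / x i := by
  rw [← real_inner_self_eq_norm_sq, inner_io hx]
  exact Finset.sum_congr rfl fun i _ => by ring

omit [DecidableEq V] in
lemma norm_io_upper {x : V → ℝ} (hx : ∀ i, 0 < x i) (D : V → ℝ) :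
    ‖io x D‖ ^ 2 ≤ (∑ i, 1 / x i) * ‖D‖ ^ 2 := by
  rw [norm_io_sq hx, Finset.sum_mul]
  refine Finset.sum_le_sum fun i _ => ?_
  have h1 : |D i| ≤ ‖D‖ := norm_le_pi_norm D i
  have h2 : D i ^ 2 ≤ ‖D‖ ^ 2 := by
    rw [← sq_abs]; exact pow_le_pow_left₀ (abs_nonneg _) h1 2
  have := hx i
  calc D i ^ 2 / x i ≤ ‖D‖ ^ 2 / x i := div_le_div_of_nonneg_right h2 this.le
    _ = _ := by ring

omit [DecidableEq V] in
lemma norm_le_norm_io {x : V → ℝ} (hx : ∀ i, 0 < x i) (hx1 : ∀ i, x i ≤ 1) (D : V → ℝ) :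
    ‖D‖ ≤ ‖io x D‖ := by
  rw [pi_norm_le_iff_of_nonneg (norm_nonneg _)]
  intro i
  rw [Real.norm_eq_abs]
  refine abs_le_of_sq_le_sq ?_ (norm_nonneg _)
  rw [norm_io_sq hx]
  have h1 : D i ^ 2 / x i ≤ ∑ i, D i ^ 2 / x i :=
    Finset.single_le_sum (f := fun i => D i ^ 2 / x i)
      (fun j _ => by have := hx j; positivity) (Finset.mem_univ i)
  refine le_trans ?_ h1
  rw [le_div_iff₀ (hx i)]
  nlinarith [hx1 i, sq_nonneg (D i)]

omit [DecidableEq E] in
/-- Growth of the total. -/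
lemma tot_rpow_step [Nonempty E] (hN0 : 0 < N0) {c : ℝ} (hc : 0 ≤ c) (n : ℕ) :
    (tot E N0 (n + 1)) ^ c * (1 - c * (Fintype.card E / tot E N0 n)) ≤ (tot E N0 n) ^ c := by
  have hS := tot_pos (E := E) hN0 n
  set δ : ℝ := Fintype.card E / tot E N0 n with hδ
  have hδ0 : 0 ≤ δ := by positivity
  have h1 : tot E N0 (n + 1) = tot E N0 n * (1 + δ) := by
    rw [hδ, mul_add, mul_div_cancel₀ _ hS.ne']
    unfold tot
    push_cast
    ring
  rw [h1, Real.mul_rpow hS.le (by positivity), mul_assoc]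
  have h2 : (1 + δ) ^ c * (1 - c * δ) ≤ 1 := by
    rcases le_or_gt (1 - c * δ) 0 with h | h
    · have : 0 ≤ (1 + δ) ^ c := Real.rpow_nonneg (by positivity) _
      nlinarith
    · have h3 : (1 + δ) ^ c ≤ Real.exp (c * δ) := by
        have : (1 + δ) ^ c ≤ (Real.exp δ) ^ c :=
          Real.rpow_le_rpow (by positivity) (by linarith [Real.add_one_le_exp δ]) hc
        rwa [← Real.exp_mul, mul_comm δ] at this
      have h4 : 1 - c * δ ≤ Real.exp (-(c * δ)) := by
        linarith [Real.add_one_le_exp (-(c * δ))]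
      calc (1 + δ) ^ c * (1 - c * δ) ≤ Real.exp (c * δ) * Real.exp (-(c * δ)) :=
            mul_le_mul h3 h4 h.le (Real.exp_pos _).le
        _ = 1 := by rw [← Real.exp_add]; simp
  calc _ ≤ (tot E N0 n) ^ c * 1 := mul_le_mul_of_nonneg_left h2 (Real.rpow_nonneg hS.le _)
    _ = _ := mul_one _

/-- The coupling estimate. -/
theorem coupling [Nonempty E] (hN0 : 0 < N0) {x : V → ℝ} (hpos : ∀ i, 0 < x i)
    (hx1 : ∀ i, x i ≤ 1) {κ G MA g0 : ℝ}
    (S : Setup (gv s t x) (ac s t α x) (Aop s t x (ac s t α x) κ) κ G MA g0)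
    {ε₂ σ : ℝ} (hσ : 0 < σ) (hε₂ : 0 ≤ ε₂)
    (hone : ∀ (p p' : E → ℝ), (∀ e, 0 ≤ p e) → (∀ e, p e ≤ 1) →
      (∀ e, 0 ≤ p' e) → (∀ e, p' e ≤ 1) → ∀ (δ : ℝ), 0 < δ → ∀ (v : EuclideanSpace ℝ V),
      0 < ⟪Aop s t x (ac s t α x) κ v, v⟫ →
      ‖v‖ ≤ σ * ⟪Aop s t x (ac s t α x) κ v, v⟫ →
      (∀ e, |(p' e - p e) - δ * (ac s t α x e * ⟪gv s t x e, v⟫)| ≤ δ * (ε₂ * ‖v‖)) →
      (∀ c, 0 < ⟪Aop s t x (ac s t α x) κ (v + Dl (gv s t x) c), v + Dl (gv s t x) c⟫) ∧
      Ex (fun e => cw (p e) (p' e)) (fun c => ff (Aop s t x (ac s t α x) κ)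
        (v + Dl (gv s t x) c)) ≤ ff (Aop s t x (ac s t α x) κ) v * (1 - 2 * (1 + κ) * δ))
    (hU1 : ∀ y ∈ U, ∀ z ∈ U, ‖z - y‖ ≤ 1)
    (hU2 : ∀ y ∈ U, ∀ z ∈ U, ∀ e,
      |(pr α (z (s e)) (z (t e)) - pr α (y (s e)) (y (t e))) -
        pr α (x (s e)) (x (t e)) * (1 - pr α (x (s e)) (x (t e))) *
          (α * ((z - y) (s e) / x (s e) - (z - y) (t e) / x (t e)))| ≤
            (ε₂ * Fintype.card E) * ‖z - y‖)
    (k n : ℕ) (b b' : V → ℕ)
    (hv : 0 < ⟪Aop s t x (ac s t α x) κ (dv x b b'), dv x b b'⟫)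
    (hgood : ‖dv x b b'‖ ≤ σ * ⟪Aop s t x (ac s t α x) κ (dv x b b'), dv x b b'⟫) :
    stay s t α N0 U k n b + stay s t α N0 U k n b' ≤
      1 + ff (Aop s t x (ac s t α x) κ) (dv x b b') * (1 / σ ^ 2 +
        MA ^ 2 * (∑ i, 1 / x i) * (tot E N0 (n + k)) ^ 2 / (tot E N0 (n + k)) ^ (2 * (1 + κ)) *
          (tot E N0 n) ^ (2 * (1 + κ))) := by
  have hMA0 := S.hMA0
  have hκ0 := S.hκ
  have hsum0 : 0 ≤ ∑ i, 1 / x i := Finset.sum_nonneg fun i _ => by
    have := hpos i; positivity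
  have hff0 : ∀ v : EuclideanSpace ℝ V, 0 ≤ ff (Aop s t x (ac s t α x) κ) v := fun v => by
    unfold ff; positivity
  have hCnn : ∀ K : ℕ, 0 ≤ MA ^ 2 * (∑ i, 1 / x i) * (tot E N0 K) ^ 2 /
      (tot E N0 K) ^ (2 * (1 + κ)) := fun K => by
    have := tot_pos (E := E) hN0 K
    positivity
  have hrest : ∀ n K : ℕ, 0 ≤ 1 / σ ^ 2 + MA ^ 2 * (∑ i, 1 / x i) * (tot E N0 K) ^ 2 /
      (tot E N0 K) ^ (2 * (1 + κ)) * (tot E N0 n) ^ (2 * (1 + κ)) := fun n K => by
    have h1 := hCnn K
    have h2 := tot_pos (E := E) hN0 n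
    positivity
  -- trivial case
  have htriv : ∀ (k n : ℕ) (b b' : V → ℕ), (shr E N0 n b ∉ U ∨ shr E N0 n b' ∉ U) →
      stay s t α N0 U k n b + stay s t α N0 U k n b' ≤ 1 := by
    intro k n b b' h
    rcases h with h | h
    · rw [stay_eq_zero h, zero_add]; exact stay_le_one _ _ _
    · rw [stay_eq_zero h, add_zero]; exact stay_le_one _ _ _
  induction k generalizing n b b' with
  | zero =>
    by_cases h : shr E N0 n b ∉ U ∨ shr E N0 n b' ∉ U
    · refine (htriv 0 n b b' h).trans ?_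
      have := mul_nonneg (hff0 (dv x b b')) (hrest n (n + 0))
      linarith
    · push Not at h
      have h2 : stay s t α N0 U 0 n b + stay s t α N0 U 0 n b' = 2 := by
        simp only [stay]
        rw [if_pos h.1, if_pos h.2]; norm_num
      rw [h2, add_zero]
      have hS := tot_pos (E := E) hN0 n
      have h3 : MA ^ 2 * (∑ i, 1 / x i) * (tot E N0 n) ^ 2 /
          (tot E N0 n) ^ (2 * (1 + κ)) * (tot E N0 n) ^ (2 * (1 + κ)) =
          MA ^ 2 * (∑ i, 1 / x i) * (tot E N0 n) ^ 2 := by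
        have := Real.rpow_pos_of_pos hS (2 * (1 + κ))
        field_simp
      rw [h3]
      -- `‖dv‖² ≤ Λ tot²`
      have hD : ‖(fun i => (b' i : ℝ) - b i)‖ ≤ tot E N0 n := by
        have h4 := hU1 _ h.1 _ h.2
        have h5 : (fun i => (b' i : ℝ) - b i) = tot E N0 n • (shr E N0 n b' - shr E N0 n b) := by
          funext i
          simp only [Pi.smul_apply, Pi.sub_apply, shr, smul_eq_mul]
          field_simp
        rw [h5, norm_smul, Real.norm_eq_abs, abs_of_pos hS]
        nlinarith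
      have h4 := norm_io_upper hpos (fun i => (b' i : ℝ) - b i)
      change ‖dv x b b'‖ ^ 2 ≤ _ at h4
      have h5 : ‖dv x b b'‖ ^ 2 ≤ (∑ i, 1 / x i) * (tot E N0 n) ^ 2 :=
        h4.trans (mul_le_mul_of_nonneg_left (pow_le_pow_left₀ (norm_nonneg _) hD 2) hsum0)
      have hqle : ⟪Aop s t x (ac s t α x) κ (dv x b b'), dv x b b'⟫ ≤ MA * ‖dv x b b'‖ ^ 2 := by
        refine (real_inner_le_norm _ _).trans ?_
        calc _ ≤ (MA * ‖dv x b b'‖) * ‖dv x b b'‖ :=
              mul_le_mul_of_nonneg_right (S.hMA _) (norm_nonneg _)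
          _ = _ := by ring
      have h6 : 1 ≤ ff (Aop s t x (ac s t α x) κ) (dv x b b') *
          (MA ^ 2 * (∑ i, 1 / x i) * (tot E N0 n) ^ 2) := by
        unfold ff
        rw [div_mul_eq_mul_div, le_div_iff₀ (by positivity), one_mul]
        calc ⟪Aop s t x (ac s t α x) κ (dv x b b'), dv x b b'⟫ ^ 2 ≤
              (MA * ‖dv x b b'‖ ^ 2) ^ 2 := pow_le_pow_left₀ hv.le hqle 2
          _ = MA ^ 2 * (‖dv x b b'‖ ^ 2 * ‖dv x b b'‖ ^ 2) := by ring
          _ ≤ MA ^ 2 * (‖dv x b b'‖ ^ 2 * ((∑ i, 1 / x i) * (tot E N0 n) ^ 2)) := by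
              apply mul_le_mul_of_nonneg_left _ (by positivity)
              exact mul_le_mul_of_nonneg_left h5 (by positivity)
          _ = _ := by ring
      rw [mul_add]
      have h7 : 0 ≤ ff (Aop s t x (ac s t α x) κ) (dv x b b') * (1 / σ ^ 2) :=
        mul_nonneg (hff0 _) (by positivity)
      linarith
  | succ k ih =>
    by_cases h : shr E N0 n b ∉ U ∨ shr E N0 n b' ∉ U
    · refine (htriv _ n b b' h).trans ?_
      have := mul_nonneg (hff0 (dv x b b')) (hrest n (n + (k + 1)))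
      linarith
    · push Not at h
      have hS := tot_pos (E := E) hN0 n
      set K : ℕ := n + (k + 1) with hK
      set c2 : ℝ := 2 * (1 + κ) with hc2
      set CK : ℝ := MA ^ 2 * (∑ i, 1 / x i) * (tot E N0 K) ^ 2 / (tot E N0 K) ^ c2 with hCK
      have hCK0 : 0 ≤ CK := hCnn K
      set δ : ℝ := Fintype.card E / tot E N0 n with hδ
      have hcard : (0:ℝ) < Fintype.card E := by exact_mod_cast Fintype.card_pos
      have hδ0 : 0 < δ := by positivity
      set A := Aop s t x (ac s t α x) κ with hA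
      set v := dv x b b' with hvdef
      set p : E → ℝ := fun e => pr α (b (s e) : ℝ) (b (t e)) with hp
      set p' : E → ℝ := fun e => pr α (b' (s e) : ℝ) (b' (t e)) with hp'
      have hp0 : ∀ e, 0 ≤ p e := fun e => pr_nonneg (Nat.cast_nonneg _) (Nat.cast_nonneg _)
      have hp1 : ∀ e, p e ≤ 1 := fun e => pr_le_one (Nat.cast_nonneg _) (Nat.cast_nonneg _)
      have hp0' : ∀ e, 0 ≤ p' e := fun e => pr_nonneg (Nat.cast_nonneg _) (Nat.cast_nonneg _)
      have hp1' : ∀ e, p' e ≤ 1 := fun e => pr_le_one (Nat.cast_nonneg _) (Nat.cast_nonneg _)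
      have hdrift : ∀ e, |(p' e - p e) - δ * (ac s t α x e * ⟪gv s t x e, v⟫)| ≤
          δ * (ε₂ * ‖v‖) := by
        intro e
        have h1 := hU2 _ h.1 _ h.2 e
        simp only [shr, Pi.sub_apply] at h1
        rw [pr_shr (Nat.cast_nonneg _) (Nat.cast_nonneg _) hS,
          pr_shr (Nat.cast_nonneg _) (Nat.cast_nonneg _) hS] at h1
        have h2 : δ * (ac s t α x e * ⟪gv s t x e, v⟫) =
            pr α (x (s e)) (x (t e)) * (1 - pr α (x (s e)) (x (t e))) *
            (α * (((b' (s e) : ℝ) / tot E N0 n - (b (s e) : ℝ) / tot E N0 n) / x (s e) -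
              ((b' (t e) : ℝ) / tot E N0 n - (b (t e) : ℝ) / tot E N0 n) / x (t e))) := by
          rw [hvdef, dv, inner_gv hpos, hδ, ac]
          field_simp
        have h3 : ‖(fun i => (b' i : ℝ) / tot E N0 n) - (fun i => (b i : ℝ) / tot E N0 n)‖ ≤
            ‖v‖ / tot E N0 n := by
          have h5 : (fun i => (b' i : ℝ) / tot E N0 n) - (fun i => (b i : ℝ) / tot E N0 n) =
              (tot E N0 n)⁻¹ • (fun i => (b' i : ℝ) - b i) := by
            funext i
            simp only [Pi.smul_apply, Pi.sub_apply, smul_eq_mul]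
            field_simp
          rw [h5, norm_smul, Real.norm_eq_abs, abs_of_pos (inv_pos.mpr hS), div_eq_inv_mul]
          exact mul_le_mul_of_nonneg_left (norm_le_norm_io hpos hx1 _) (inv_pos.mpr hS).le
        rw [h2]
        refine h1.trans ?_
        calc ε₂ * Fintype.card E *
              ‖(fun i => (b' i : ℝ) / tot E N0 n) - (fun i => (b i : ℝ) / tot E N0 n)‖ ≤
              ε₂ * Fintype.card E * (‖v‖ / tot E N0 n) :=
              mul_le_mul_of_nonneg_left h3 (by positivity)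
          _ = _ := by rw [hδ]; ring
      obtain ⟨hstep1, hstep2⟩ := hone p p' hp0 hp1 hp0' hp1' δ hδ0 v hv hgood hdrift
      have hcw : ∀ e ab, 0 ≤ cw (p e) (p' e) ab := fun e ab =>
        cw_nonneg (hp0 e) (hp1 e) (hp0' e) (hp1' e) ab
      have hs1 : stay s t α N0 U (k + 1) n b = Ex (fun e => cw (p e) (p' e))
          (fun c => stay s t α N0 U k (n + 1) (fun i => b i + inc s t (fun e => (c e).1) i)) := by
        rw [stay, if_pos h.1]
        exact (Ex_fst (ν := fun e => cw (p e) (p' e)) (μ := ew s t α (fun i => (b i : ℝ)))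
          (fun e a => by rw [cw_fst]; rfl)
          (fun c => stay s t α N0 U k (n + 1) (fun i => b i + inc s t c i))).symm
      have hs2 : stay s t α N0 U (k + 1) n b' = Ex (fun e => cw (p e) (p' e))
          (fun c => stay s t α N0 U k (n + 1) (fun i => b' i + inc s t (fun e => (c e).2) i)) := by
        rw [stay, if_pos h.2]
        exact (Ex_snd (ν := fun e => cw (p e) (p' e)) (μ := ew s t α (fun i => (b' i : ℝ)))
          (fun e a => by rw [cw_snd]; rfl)
          (fun c => stay s t α N0 U k (n + 1) (fun i => b' i + inc s t c i))).symm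
      rw [hs1, hs2, ← Ex_add]
      have hbound : ∀ c : E → Bool × Bool,
          stay s t α N0 U k (n + 1) (fun i => b i + inc s t (fun e => (c e).1) i) +
          stay s t α N0 U k (n + 1) (fun i => b' i + inc s t (fun e => (c e).2) i) ≤
          1 + ff A (v + Dl (gv s t x) c) * (1 / σ ^ 2 + CK * (tot E N0 (n + 1)) ^ c2) := by
        intro c
        have hd := dv_step (s := s) (t := t) x b b' c
        have hq := hstep1 c
        rw [← hvdef] at hd
        have hKeq : n + 1 + k = K := by rw [hK]; ring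
        by_cases hg : ‖v + Dl (gv s t x) c‖ ≤ σ * ⟪A (v + Dl (gv s t x) c), v + Dl (gv s t x) c⟫
        · have h1 := ih (n + 1) (fun i => b i + inc s t (fun e => (c e).1) i)
            (fun i => b' i + inc s t (fun e => (c e).2) i) (by rw [hd]; exact hq)
            (by rw [hd]; exact hg)
          rw [hd, hKeq] at h1
          exact h1
        · push Not at hg
          have h1 := stay_le_one (s := s) (t := t) (α := α) (N0 := N0) (U := U) k (n + 1)
            (fun i => b i + inc s t (fun e => (c e).1) i)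
          have h2 := stay_le_one (s := s) (t := t) (α := α) (N0 := N0) (U := U) k (n + 1)
            (fun i => b' i + inc s t (fun e => (c e).2) i)
          have h3 : 1 ≤ ff A (v + Dl (gv s t x) c) * (1 / σ ^ 2) := by
            unfold ff
            rw [div_mul_div_comm, mul_one, le_div_iff₀ (by positivity), one_mul]
            calc _ = (σ * ⟪A (v + Dl (gv s t x) c), v + Dl (gv s t x) c⟫) ^ 2 := by ring
              _ ≤ _ := pow_le_pow_left₀ (by positivity) hg.le 2
          have h4 : 0 ≤ ff A (v + Dl (gv s t x) c) * (CK * (tot E N0 (n + 1)) ^ c2) := by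
            have := tot_pos (E := E) hN0 (n + 1)
            have := hff0 (v + Dl (gv s t x) c)
            positivity
          rw [mul_add]
          linarith
      refine (Ex_mono hcw hbound).trans ?_
      rw [Ex_add, Ex_const (fun e => cw_sum _ _), Ex_mul_right]
      have hT1 := tot_pos (E := E) hN0 (n + 1)
      have h1 : 0 ≤ 1 / σ ^ 2 + CK * (tot E N0 (n + 1)) ^ c2 := by positivity
      have h2 := mul_le_mul_of_nonneg_right hstep2 h1
      have h3 : ff A v * (1 - 2 * (1 + κ) * δ) * (1 / σ ^ 2 + CK * (tot E N0 (n + 1)) ^ c2) ≤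
          ff A v * (1 / σ ^ 2 + CK * (tot E N0 n) ^ c2) := by
        have h4 := tot_rpow_step (E := E) hN0 (c := c2) (by rw [hc2]; positivity) n
        rw [← hδ] at h4
        have h5 : (1 - c2 * δ) * (1 / σ ^ 2) ≤ 1 / σ ^ 2 := by
          have h6 : 0 ≤ c2 * δ := by rw [hc2]; positivity
          have h7 : 0 < 1 / σ ^ 2 := by positivity
          nlinarith
        have h6 : (1 - c2 * δ) * (CK * (tot E N0 (n + 1)) ^ c2) ≤ CK * (tot E N0 n) ^ c2 := by
          calc _ = CK * ((tot E N0 (n + 1)) ^ c2 * (1 - c2 * δ)) := by ring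
            _ ≤ _ := mul_le_mul_of_nonneg_left h4 hCK0
        calc _ = ff A v * ((1 - c2 * δ) * (1 / σ ^ 2) +
              (1 - c2 * δ) * (CK * (tot E N0 (n + 1)) ^ c2)) := by rw [hc2]; ring
          _ ≤ _ := mul_le_mul_of_nonneg_left (add_le_add h5 h6) (hff0 v)
      linarith

end Pool.Agent.MP_cd93fa_pr
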