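import Pool.Agent.MP_cd93fa_pr.Expect

namespace Pool.Agent.MP_cd93fa_pr

open Finset

lemma log_one_add_ge {z : ℝ} (hz : 0 ≤ z) : z - z ^ 2 / 2 ≤ Real.log (1 + z) := by
  have h := Real.le_log_one_add_of_nonneg hz
  refine le_trans ?_ h
  rw [le_div_iff₀ (by linarith)]
  nlinarith [mul_nonneg hz (mul_nonneg hz hz)]

lemma pr_le_two_mul {α a b : ℝ} (hα : 1 ≤ α) (ha : 0 < a) (hb : 0 < b) :
    pr α a b ≤ 2 * a / (a + b) := by
  rcases le_total b a with h | h
  · refine (pr_le_one ha.le hb.le).trans ?_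
    rw [le_div_iff₀ (by positivity)]
    linarith
  · unfold pr
    have h1 := Real.rpow_pos_of_pos ha α
    have h2 := Real.rpow_pos_of_pos hb α
    rw [div_le_div_iff₀ (by positivity) (by positivity)]
    have e1 : a ^ α = a * a ^ (α - 1) := by
      rw [mul_comm, ← Real.rpow_add_one ha.ne']; ring_nf
    have e2 : b ^ α = b * b ^ (α - 1) := by
      rw [mul_comm, ← Real.rpow_add_one hb.ne']; ring_nf
    have e3 : a ^ (α - 1) ≤ b ^ (α - 1) := Real.rpow_le_rpow ha.le h (by linarith)
    have e4 : b * a ^ α ≤ a * b ^ α := by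
      rw [e1, e2]
      have : 0 < a * b := by positivity
      nlinarith [mul_le_mul_of_nonneg_left e3 this.le]
    nlinarith [mul_pos ha h1, mul_pos ha h2]

lemma edge_gain {α a b u v : ℝ} (hα : 1 ≤ α) (ha : 0 < a) (hb : 0 < b) (hu : 0 ≤ u)
    (hv : 0 ≤ v) :
    (pr α a b * (u / a) + (1 - pr α a b) * (v / b)) -
      α * (pr α a b * (u / a) + (1 - pr α a b) * (v / b)) ^ 2 / 2 ≤
    (1 / α) * Real.log ((a + u) ^ α + (b + v) ^ α) - (1 / α) * Real.log (a ^ α + b ^ α) := by
  have hα0 : 0 < α := by linarith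
  set p := pr α a b with hp
  have hp0 : 0 ≤ p := pr_nonneg ha.le hb.le
  have hp1 : p ≤ 1 := pr_le_one ha.le hb.le
  set y := p * (u / a) + (1 - p) * (v / b) with hy
  have hy0 : 0 ≤ y := by
    have : 0 ≤ 1 - p := by linarith
    positivity
  have h1 := Real.rpow_pos_of_pos ha α
  have h2 := Real.rpow_pos_of_pos hb α
  have hS : 0 < a ^ α + b ^ α := by positivity
  have b1 : a ^ α * (1 + α * (u / a)) ≤ (a + u) ^ α := by
    have := one_add_mul_self_le_rpow_one_add (s := u / a)
      (by have : 0 ≤ u / a := by positivity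
          linarith) hα
    have e : (a + u) ^ α = a ^ α * (1 + u / a) ^ α := by
      rw [← Real.mul_rpow ha.le (by positivity)]
      congr 1
      field_simp
    rw [e]
    exact mul_le_mul_of_nonneg_left this h1.le
  have b2 : b ^ α * (1 + α * (v / b)) ≤ (b + v) ^ α := by
    have := one_add_mul_self_le_rpow_one_add (s := v / b)
      (by have : 0 ≤ v / b := by positivity
          linarith) hα
    have e : (b + v) ^ α = b ^ α * (1 + v / b) ^ α := by
      rw [← Real.mul_rpow hb.le (by positivity)]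
      congr 1
      field_simp
    rw [e]
    exact mul_le_mul_of_nonneg_left this h2.le
  have b3 : (a ^ α + b ^ α) * (1 + α * y) ≤ (a + u) ^ α + (b + v) ^ α := by
    have e1 : (a ^ α + b ^ α) * p = a ^ α := by
      rw [hp]; unfold pr; field_simp
    have e2 : (a ^ α + b ^ α) * (1 - p) = b ^ α := by
      rw [mul_sub, e1]; ring
    have e3 : (a ^ α + b ^ α) * (1 + α * y) = a ^ α * (1 + α * (u / a)) +
        b ^ α * (1 + α * (v / b)) := by
      calc (a ^ α + b ^ α) * (1 + α * y) = (a ^ α + b ^ α) + α * (((a ^ α + b ^ α) * p) * (u / a) +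
            ((a ^ α + b ^ α) * (1 - p)) * (v / b)) := by rw [hy]; ring
        _ = _ := by rw [e1, e2]; ring
    rw [e3]
    linarith
  have hpos : 0 < 1 + α * y := by positivity
  have b4 : Real.log (a ^ α + b ^ α) + Real.log (1 + α * y) ≤
      Real.log ((a + u) ^ α + (b + v) ^ α) := by
    rw [← Real.log_mul hS.ne' hpos.ne']
    exact Real.log_le_log (by positivity) b3
  have b5 := log_one_add_ge (z := α * y) (by positivity)
  have b6 : α * y - (α * y) ^ 2 / 2 ≤ Real.log ((a + u) ^ α + (b + v) ^ α) -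
      Real.log (a ^ α + b ^ α) := by linarith
  have b7 : (1 / α) * (α * y - (α * y) ^ 2 / 2) = y - α * y ^ 2 / 2 := by field_simp
  rw [← b7, ← mul_sub]
  exact mul_le_mul_of_nonneg_left b6 (by positivity)

variable {V E : Type*} [Fintype V] [DecidableEq V] [Fintype E] [DecidableEq E]
  {s t : E → V} {α : ℝ}

/-- The Lyapunov function, as a function of the contents of the bins. -/
noncomputable def Phi (s t : E → V) (α : ℝ) (b : V → ℝ) : ℝ :=
  ∑ e, (1 / α) * Real.log (b (s e) ^ α + b (t e) ^ α) - Fintype.card E * Real.log (∑ i, b i)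

lemma Phi_step [Nonempty E] (hst : ∀ e, s e ≠ t e) (hα : 1 ≤ α) {b : V → ℝ} (hb : ∀ i, 0 < b i)
    {L : ℝ} (hL : 0 < L) (hbL : ∀ e, L ≤ b (s e) + b (t e)) :
    Phi s t α b + (∑ i, (PP s t α b i - Fintype.card E * (b i / ∑ j, b j)) ^ 2) / (∑ j, b j)
        - 2 * α * (Fintype.card E) ^ 3 / L ^ 2 ≤
      Ex (ew s t α b) (fun c => Phi s t α (fun i => b i + inc s t c i)) := by
  obtain ⟨N, hN⟩ : ∃ N : ℝ, N = ((Fintype.card E : ℕ) : ℝ) := ⟨_, rfl⟩
  obtain ⟨S, hS⟩ : ∃ S : ℝ, S = ∑ j, b j := ⟨_, rfl⟩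
  rw [← hN, ← hS]
  have hN1 : 1 ≤ N := by rw [hN]; exact_mod_cast Fintype.card_pos
  have hV : Nonempty V := ⟨s (Classical.arbitrary E)⟩
  have hSpos : 0 < S := by rw [hS]; exact Finset.sum_pos (fun i _ => hb i) Finset.univ_nonempty
  have hbS : ∀ i, b i ≤ S := fun i => by
    rw [hS]; exact Finset.single_le_sum (f := b) (fun j _ => (hb j).le) (Finset.mem_univ i)
  have hα0 : 0 < α := by linarith
  -- pointwise bound
  have hpt : ∀ c : E → Bool, (∑ i, (inc s t c i : ℝ) * (PP s t α b i / b i)) +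
      (Phi s t α b - 2 * α * N ^ 3 / L ^ 2 - N ^ 2 / S) ≤
      Phi s t α (fun i => b i + inc s t c i) := by
    intro c
    set y : E → ℝ := fun e => pr α (b (s e)) (b (t e)) * ((inc s t c (s e) : ℝ) / b (s e)) +
      (1 - pr α (b (s e)) (b (t e))) * ((inc s t c (t e) : ℝ) / b (t e)) with hy
    have hysum : ∑ i, (inc s t c i : ℝ) * (PP s t α b i / b i) = ∑ e, y e := by
      rw [hy, ← sum_PP_mul (s := s) (t := t) (α := α) b (fun i => (inc s t c i : ℝ) / b i)]
      exact Finset.sum_congr rfl fun i _ => by ring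
    have hyb : ∀ e, 0 ≤ y e ∧ y e ≤ 2 * N / L := by
      intro e
      have hs := hb (s e)
      have ht := hb (t e)
      have p0 := pr_nonneg (α := α) hs.le ht.le
      have p1 := pr_le_one (α := α) hs.le ht.le
      have i0 : (0:ℝ) ≤ inc s t c (s e) := Nat.cast_nonneg _
      have i1 : (0:ℝ) ≤ inc s t c (t e) := Nat.cast_nonneg _
      have q0 : 0 ≤ 1 - pr α (b (s e)) (b (t e)) := by linarith
      refine ⟨by simp only [hy]; positivity, ?_⟩
      have h1 := pr_le_two_mul hα hs ht
      have h2 : 1 - pr α (b (s e)) (b (t e)) ≤ 2 * b (t e) / (b (s e) + b (t e)) := by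
        rw [one_sub_pr hs.le ht.le (by linarith), add_comm (b (s e))]
        exact pr_le_two_mul hα ht hs
      have h3 : pr α (b (s e)) (b (t e)) * ((inc s t c (s e) : ℝ) / b (s e)) ≤
          2 / (b (s e) + b (t e)) * inc s t c (s e) := by
        calc _ ≤ 2 * b (s e) / (b (s e) + b (t e)) * ((inc s t c (s e) : ℝ) / b (s e)) :=
              mul_le_mul_of_nonneg_right h1 (by positivity)
          _ = _ := by field_simp
      have h4 : (1 - pr α (b (s e)) (b (t e))) * ((inc s t c (t e) : ℝ) / b (t e)) ≤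
          2 / (b (s e) + b (t e)) * inc s t c (t e) := by
        calc _ ≤ 2 * b (t e) / (b (s e) + b (t e)) * ((inc s t c (t e) : ℝ) / b (t e)) :=
              mul_le_mul_of_nonneg_right h2 (by positivity)
          _ = _ := by field_simp
      have h5 : (inc s t c (s e) : ℝ) + inc s t c (t e) ≤ N := by
        rw [hN]; exact_mod_cast inc_add_le c (hst e)
      calc y e ≤ 2 / (b (s e) + b (t e)) * (inc s t c (s e) + inc s t c (t e)) := by
            rw [mul_add]; exact add_le_add h3 h4
        _ ≤ 2 / (b (s e) + b (t e)) * N := mul_le_mul_of_nonneg_left h5 (by positivity)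
        _ ≤ 2 / L * N := by
            apply mul_le_mul_of_nonneg_right _ (by linarith)
            exact div_le_div_of_nonneg_left (by norm_num) hL (hbL e)
        _ = _ := by ring
    have hlog : N * Real.log (S + N) ≤ N * Real.log S + N ^ 2 / S := by
      have e1 : Real.log (S + N) = Real.log S + Real.log (1 + N / S) := by
        rw [← Real.log_mul hSpos.ne' (by positivity)]
        congr 1; field_simp
      have e2 : Real.log (1 + N / S) ≤ N / S := by
        have := Real.log_le_sub_one_of_pos (show 0 < 1 + N / S by positivity)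
        linarith
      rw [e1, mul_add]
      have : N * Real.log (1 + N / S) ≤ N * (N / S) := mul_le_mul_of_nonneg_left e2 (by linarith)
      have e3 : N * (N / S) = N ^ 2 / S := by ring
      linarith
    have hsum : ∑ i, (b i + (inc s t c i : ℝ)) = S + N := by
      rw [Finset.sum_add_distrib, ← hS, hN]
      congr 1
      exact_mod_cast sum_inc (s := s) (t := t) c
    have hgain : ∀ e, y e - 2 * α * N ^ 2 / L ^ 2 ≤
        (1 / α) * Real.log ((b (s e) + inc s t c (s e)) ^ α + (b (t e) + inc s t c (t e)) ^ α) -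
        (1 / α) * Real.log (b (s e) ^ α + b (t e) ^ α) := by
      intro e
      refine le_trans ?_ (edge_gain hα (hb (s e)) (hb (t e)) (Nat.cast_nonneg (inc s t c (s e)))
        (Nat.cast_nonneg (inc s t c (t e))))
      change y e - 2 * α * N ^ 2 / L ^ 2 ≤ y e - α * (y e) ^ 2 / 2
      have h1 : (y e) ^ 2 ≤ (2 * N / L) ^ 2 := pow_le_pow_left₀ (hyb e).1 (hyb e).2 2
      have h2 : α * (y e) ^ 2 / 2 ≤ α * (2 * N / L) ^ 2 / 2 := by
        apply div_le_div_of_nonneg_right _ (by norm_num)
        exact mul_le_mul_of_nonneg_left h1 hα0.le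
      have h3 : α * (2 * N / L) ^ 2 / 2 = 2 * α * N ^ 2 / L ^ 2 := by ring
      linarith
    have hg := Finset.sum_le_sum (s := Finset.univ) fun e _ => hgain e
    rw [Finset.sum_sub_distrib, Finset.sum_sub_distrib, Finset.sum_const, nsmul_eq_mul,
      Finset.card_univ, ← hN] at hg
    rw [hysum]
    unfold Phi
    rw [hsum, ← hN, ← hS]
    have e4 : N * (2 * α * N ^ 2 / L ^ 2) = 2 * α * N ^ 3 / L ^ 2 := by ring
    rw [e4] at hg
    linarith
  have h1 := Ex_mono (ew_nonneg (s := s) (t := t) (α := α) fun i => (hb i).le) hpt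
  refine le_trans ?_ h1
  rw [Ex_add, Ex_const (ew_sum b), Ex_sum]
  have h2 : ∑ i, Ex (ew s t α b) (fun c => (inc s t c i : ℝ) * (PP s t α b i / b i)) =
      ∑ i, PP s t α b i * (PP s t α b i / b i) := by
    refine Finset.sum_congr rfl fun i _ => ?_
    rw [Ex_mul_right, Ex_inc]
  rw [h2]
  have hPP : ∑ i, PP s t α b i = N := by
    have := sum_PP (s := s) (t := t) (α := α) b Finset.univ
    rw [this]
    simp [hN]
  have h3 : (∑ i, (PP s t α b i - N * (b i / S)) ^ 2) / S ≤
      ∑ i, (PP s t α b i * (PP s t α b i / b i) - 2 * N / S * PP s t α b i +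
        N ^ 2 / S ^ 2 * b i) := by
    rw [Finset.sum_div]
    refine Finset.sum_le_sum fun i _ => ?_
    have hbi := hb i
    calc (PP s t α b i - N * (b i / S)) ^ 2 / S ≤ (PP s t α b i - N * (b i / S)) ^ 2 / b i :=
          div_le_div_of_nonneg_left (sq_nonneg _) hbi (hbS i)
      _ = _ := by field_simp; ring
  rw [Finset.sum_add_distrib, Finset.sum_sub_distrib, ← Finset.mul_sum, ← Finset.mul_sum, hPP,
    ← hS] at h3
  have e1 : 2 * N / S * N = 2 * (N ^ 2 / S) := by ring
  have e2 : N ^ 2 / S ^ 2 * S = N ^ 2 / S := by field_simp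
  rw [e1, e2] at h3
  linarith

end Pool.Agent.MP_cd93fa_pr
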