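import Pool.Agent.MP_cd93fa_pr.Basic

namespace Pool.Agent.MP_cd93fa_pr

open Finset

section Defs

variable {V E : Type*} [DecidableEq V] [Fintype E] (s t : E → V) (α : ℝ)

/-- Weight that the edge `e` gives to the vertex `i` in state `x`. -/
noncomputable def wt (x : V → ℝ) (e : E) (i : V) : ℝ :=
  (if s e = i then pr α (x (s e)) (x (t e)) else 0) +
    (if t e = i then 1 - pr α (x (s e)) (x (t e)) else 0)

/-- Expected number of balls received by the vertex `i` in state `x`. -/
noncomputable def PP (x : V → ℝ) (i : V) : ℝ := ∑ e, wt s t α x e i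

end Defs

variable {V E : Type*} [Fintype V] [DecidableEq V] [Fintype E] {s t : E → V} {α : ℝ}

/-- Equilibria of the mean-field dynamics. -/
structure IsEquil (s t : E → V) (α : ℝ) (x : V → ℝ) : Prop where
  nonneg : ∀ i, 0 ≤ x i
  sum_one : ∑ i, x i = 1
  edge_pos : ∀ e, 0 < x (s e) + x (t e)
  eq : ∀ i, PP s t α x i = Fintype.card E * x i

omit [Fintype V] [Fintype E] in
lemma wt_nonneg {x : V → ℝ} (hx : ∀ i, 0 ≤ x i) (e : E) (i : V) : 0 ≤ wt s t α x e i := by
  unfold wt
  have h1 := pr_nonneg (α := α) (hx (s e)) (hx (t e))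
  have h2 := pr_le_one (α := α) (hx (s e)) (hx (t e))
  split_ifs <;> linarith

omit [Fintype V] [Fintype E] in
lemma wt_left {x : V → ℝ} (hst : ∀ e, s e ≠ t e) (e : E) :
    wt s t α x e (s e) = pr α (x (s e)) (x (t e)) := by
  unfold wt
  rw [if_pos rfl, if_neg (hst e).symm, add_zero]

omit [Fintype V] [Fintype E] in
lemma wt_right {x : V → ℝ} (hx : ∀ i, 0 ≤ x i) (hst : ∀ e, s e ≠ t e) (e : E)
    (he : 0 < x (s e) + x (t e)) :
    wt s t α x e (t e) = pr α (x (t e)) (x (s e)) := by
  unfold wt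
  rw [if_neg (hst e), if_pos rfl, zero_add, one_sub_pr (hx _) (hx _) he]

omit [Fintype V] [Fintype E] in
lemma wt_of_ne {x : V → ℝ} {e : E} {i : V} (h1 : s e ≠ i) (h2 : t e ≠ i) :
    wt s t α x e i = 0 := by
  unfold wt
  rw [if_neg h1, if_neg h2, add_zero]

omit [Fintype V] in
lemma wt_le_PP {x : V → ℝ} (hx : ∀ i, 0 ≤ x i) (e : E) (i : V) :
    wt s t α x e i ≤ PP s t α x i :=
  Finset.single_le_sum (f := fun e => wt s t α x e i) (fun e _ => wt_nonneg hx e i)
    (Finset.mem_univ e)

omit [Fintype V] in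
lemma sum_PP (x : V → ℝ) (T : Finset V) :
    ∑ i ∈ T, PP s t α x i = ∑ e, ((if s e ∈ T then pr α (x (s e)) (x (t e)) else 0) +
      (if t e ∈ T then 1 - pr α (x (s e)) (x (t e)) else 0)) := by
  unfold PP wt
  rw [Finset.sum_comm]
  refine Finset.sum_congr rfl fun e _ => ?_
  rw [Finset.sum_add_distrib, Finset.sum_ite_eq, Finset.sum_ite_eq]

lemma sum_PP_mul (x d : V → ℝ) :
    ∑ i, PP s t α x i * d i = ∑ e, (pr α (x (s e)) (x (t e)) * d (s e) +
      (1 - pr α (x (s e)) (x (t e))) * d (t e)) := by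
  unfold PP wt
  simp_rw [Finset.sum_mul]
  rw [Finset.sum_comm]
  refine Finset.sum_congr rfl fun e _ => ?_
  simp only [add_mul, ite_mul, zero_mul]
  rw [Finset.sum_add_distrib, Finset.sum_ite_eq, Finset.sum_ite_eq]
  simp

/-- An equilibrium in which an edge at `i` has its other end not above `i` has
`x i ≥ 1 / (2 N)`. -/
lemma IsEquil.half_lb {x : V → ℝ} (hx : IsEquil s t α x) (_ : 0 ≤ α) [Nonempty E]
    {i : V} {e : E} (hw : 1 / 2 ≤ wt s t α x e i) :
    1 / (2 * (Fintype.card E : ℝ)) ≤ x i := by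
  have h1 := wt_le_PP (s := s) (t := t) (α := α) hx.nonneg e i
  rw [hx.eq i] at h1
  have hN : (0:ℝ) < Fintype.card E := by exact_mod_cast Fintype.card_pos
  rw [div_le_iff₀ (by positivity)]
  nlinarith

lemma IsEquil.lb {x : V → ℝ} (hx : IsEquil s t α x) (hst : ∀ e, s e ≠ t e) (hα : 2 ≤ α)
    [Nonempty E] {i : V} (hi : 0 < x i) :
    (1 / (2 * (Fintype.card E : ℝ))) ^ 2 ≤ x i := by
  set c : ℝ := 1 / (2 * (Fintype.card E : ℝ)) with hc
  have hN : (1:ℝ) ≤ Fintype.card E := by exact_mod_cast Fintype.card_pos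
  have hc0 : 0 < c := by rw [hc]; positivity
  have hc1 : c ≤ 1 := by
    rw [hc, div_le_one (by positivity)]; linarith
  by_contra hcon
  push Not at hcon
  have hc2 : c ^ 2 ≤ c := by nlinarith
  -- key comparison
  have key : ∀ j, 0 < x j → 1 / 2 ≤ pr α (x j) (x i) → c ≤ x j → pr α (x i) (x j) < x i := by
    intro j hj _ hcj
    unfold pr
    have h1 : 0 < x i ^ α := Real.rpow_pos_of_pos hi α
    have h2 : 0 < x j ^ α := Real.rpow_pos_of_pos hj α
    rw [div_lt_iff₀ (by positivity)]
    have h3 : x i ^ α = x i * x i ^ (α - 1) := by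
      rw [mul_comm, ← Real.rpow_add_one hi.ne']; ring_nf
    have h4 : x i ^ (α - 1) ≤ x j ^ α := by
      calc x i ^ (α - 1) ≤ (c ^ 2) ^ (α - 1) :=
            Real.rpow_le_rpow hi.le hcon.le (by linarith)
        _ = c ^ (2 * (α - 1)) := by
            rw [← Real.rpow_natCast c 2, ← Real.rpow_mul hc0.le]; norm_num
        _ ≤ c ^ α := Real.rpow_le_rpow_of_exponent_ge hc0 hc1 (by linarith)
        _ ≤ x j ^ α := Real.rpow_le_rpow hc0.le hcj (by linarith)
    have h5 : x i * x i ^ (α - 1) ≤ x i * x j ^ α := mul_le_mul_of_nonneg_left h4 hi.le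
    have h6 : 0 < x i * x i ^ α := by positivity
    nlinarith
  have hlt : ∀ e, wt s t α x e i < x i := by
    intro e
    by_cases h1 : s e = i
    · have hw : wt s t α x e i = pr α (x i) (x (t e)) := by
        rw [← h1, wt_left hst]
      rw [hw]
      rcases le_or_gt (x (t e)) (x i) with hle | hgt
      · exfalso
        have := half_le_pr (α := α) (by linarith) hi (hx.nonneg (t e)) hle
        rw [← hw] at this
        have := hx.half_lb (by linarith) this
        linarith
      · have h2 := half_le_pr (α := α) (by linarith) (hi.trans hgt) hi.le hgt.le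
        have h3 : wt s t α x e (t e) = pr α (x (t e)) (x i) := by
          rw [wt_right hx.nonneg hst e (hx.edge_pos e), h1]
        have h4 := h2
        rw [← h3] at h4
        exact key _ (hi.trans hgt) h2 (hx.half_lb (by linarith) h4)
    · by_cases h1' : t e = i
      · have hw : wt s t α x e i = pr α (x i) (x (s e)) := by
          rw [← h1', wt_right hx.nonneg hst e (hx.edge_pos e)]
        rw [hw]
        rcases le_or_gt (x (s e)) (x i) with hle | hgt
        · exfalso
          have := half_le_pr (α := α) (by linarith) hi (hx.nonneg (s e)) hle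
          rw [← hw] at this
          have := hx.half_lb (by linarith) this
          linarith
        · have h2 := half_le_pr (α := α) (by linarith) (hi.trans hgt) hi.le hgt.le
          have h3 : wt s t α x e (s e) = pr α (x (s e)) (x i) := by
            rw [wt_left hst, h1']
          have h4 := h2
          rw [← h3] at h4
          exact key _ (hi.trans hgt) h2 (hx.half_lb (by linarith) h4)
      · rw [wt_of_ne h1 h1']; exact hi
  have hsum : PP s t α x i < ∑ _e : E, x i :=
    Finset.sum_lt_sum_of_nonempty Finset.univ_nonempty (fun e _ => hlt e)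
  rw [hx.eq i, Finset.sum_const, nsmul_eq_mul, Finset.card_univ] at hsum
  exact lt_irrefl _ hsum

/-- In an equilibrium the mass of a block whose outgoing edges are all unbalanced is nearly
an integer. -/
lemma IsEquil.block {x : V → ℝ} (hx : IsEquil s t α x) (hα : 0 < α) {T : Finset V} {h1 h2 : ℝ}
    (hT : ∀ k ∈ T, 0 < x k)
    (H : ∀ k ∈ T, ∀ l, l ∉ T → x l = 0 ∨ (0 < x l ∧
      (h1 ≤ α * Real.log (x k) - α * Real.log (x l) ∨
        h2 ≤ α * Real.log (x l) - α * Real.log (x k)))) :
    ∃ I : ℤ, -(Fintype.card E * Real.exp (-h1)) ≤ Fintype.card E * ∑ k ∈ T, x k - I ∧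
      Fintype.card E * ∑ k ∈ T, x k - I ≤ Fintype.card E * Real.exp (-h2) := by
  classical
  have hpr : ∀ k ∈ T, ∀ l, l ∉ T → ∃ I : ℤ, -Real.exp (-h1) ≤ pr α (x k) (x l) - I ∧
      pr α (x k) (x l) - I ≤ Real.exp (-h2) := by
    intro k hk l hl
    have hk0 := hT k hk
    rcases H k hk l hl with h | ⟨hl0, h | h⟩
    · refine ⟨1, ?_, ?_⟩
      · rw [h, pr_zero_right hα.ne' hk0]
        simp [(Real.exp_pos _).le]
      · rw [h, pr_zero_right hα.ne' hk0]
        simp [(Real.exp_pos _).le]
    · refine ⟨1, ?_, ?_⟩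
      · rw [pr_eq_sg hk0 hl0]
        have e1 := sg_le_exp (-(α * Real.log (x k) - α * Real.log (x l)))
        rw [sg_neg] at e1
        have e2 : Real.exp (-(α * Real.log (x k) - α * Real.log (x l))) ≤ Real.exp (-h1) :=
          Real.exp_le_exp.mpr (by linarith)
        push_cast
        linarith
      · rw [pr_eq_sg hk0 hl0]
        have e1 := sg_lt_one (α * Real.log (x k) - α * Real.log (x l))
        have e2 := Real.exp_pos (-h2)
        push_cast
        linarith
    · refine ⟨0, ?_, ?_⟩
      · rw [pr_eq_sg hk0 hl0]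
        have e1 := sg_pos (α * Real.log (x k) - α * Real.log (x l))
        have e2 := Real.exp_pos (-h1)
        push_cast
        linarith
      · rw [pr_eq_sg hk0 hl0]
        have e1 := sg_le_exp (α * Real.log (x k) - α * Real.log (x l))
        have e2 : Real.exp (α * Real.log (x k) - α * Real.log (x l)) ≤ Real.exp (-h2) :=
          Real.exp_le_exp.mpr (by linarith)
        push_cast
        linarith
  have hE : ∀ e, ∃ I : ℤ, -Real.exp (-h1) ≤
      ((if s e ∈ T then pr α (x (s e)) (x (t e)) else 0) +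
        (if t e ∈ T then 1 - pr α (x (s e)) (x (t e)) else 0)) - I ∧
      ((if s e ∈ T then pr α (x (s e)) (x (t e)) else 0) +
        (if t e ∈ T then 1 - pr α (x (s e)) (x (t e)) else 0)) - I ≤ Real.exp (-h2) := by
    intro e
    have e1 := Real.exp_pos (-h1)
    have e2 := Real.exp_pos (-h2)
    by_cases hs : s e ∈ T <;> by_cases ht : t e ∈ T
    · refine ⟨1, ?_, ?_⟩ <;> rw [if_pos hs, if_pos ht] <;> push_cast <;> linarith
    · rw [if_pos hs, if_neg ht, add_zero]
      exact hpr _ hs _ ht
    · rw [if_neg hs, if_pos ht, zero_add, one_sub_pr (hx.nonneg _) (hx.nonneg _) (hx.edge_pos e)]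
      exact hpr _ ht _ hs
    · refine ⟨0, ?_, ?_⟩ <;> rw [if_neg hs, if_neg ht] <;> push_cast <;> linarith
  choose I hI1 hI2 using hE
  refine ⟨∑ e, I e, ?_, ?_⟩
  · have h3 : (Fintype.card E : ℝ) * ∑ k ∈ T, x k = ∑ i ∈ T, PP s t α x i := by
      rw [Finset.mul_sum]
      exact Finset.sum_congr rfl fun i _ => (hx.eq i).symm
    rw [h3, sum_PP]
    push_cast
    rw [← Finset.sum_sub_distrib]
    have h4 : ∑ _e : E, (-Real.exp (-h1)) = -(Fintype.card E * Real.exp (-h1)) := by
      simp [Finset.sum_const]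
    rw [← h4]
    exact Finset.sum_le_sum fun e _ => hI1 e
  · have h3 : (Fintype.card E : ℝ) * ∑ k ∈ T, x k = ∑ i ∈ T, PP s t α x i := by
      rw [Finset.mul_sum]
      exact Finset.sum_congr rfl fun i _ => (hx.eq i).symm
    rw [h3, sum_PP]
    push_cast
    rw [← Finset.sum_sub_distrib]
    have h4 : ∑ _e : E, (Real.exp (-h2)) = (Fintype.card E * Real.exp (-h2)) := by
      simp [Finset.sum_const]
    rw [← h4]
    exact Finset.sum_le_sum fun e _ => hI2 e

end Pool.Agent.MP_cd93fa_pr
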