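import Pool.Agent.MP_cd93fa_pr.Equil

namespace Pool.Agent.MP_cd93fa_pr

open Finset

section Ex

variable {E κ : Type*} [Fintype E] [DecidableEq E] [Fintype κ]

/-- Expectation with respect to a product of finitely supported weights. -/
noncomputable def Ex (ν : E → κ → ℝ) (φ : (E → κ) → ℝ) : ℝ :=
  ∑ c : E → κ, (∏ e, ν e (c e)) * φ c

lemma Ex_add (ν : E → κ → ℝ) (φ ψ : (E → κ) → ℝ) :
    Ex ν (fun c => φ c + ψ c) = Ex ν φ + Ex ν ψ := by
  unfold Ex; simp only [mul_add, Finset.sum_add_distrib]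

lemma Ex_sub (ν : E → κ → ℝ) (φ ψ : (E → κ) → ℝ) :
    Ex ν (fun c => φ c - ψ c) = Ex ν φ - Ex ν ψ := by
  unfold Ex; simp only [mul_sub, Finset.sum_sub_distrib]

lemma Ex_mul_left (ν : E → κ → ℝ) (a : ℝ) (φ : (E → κ) → ℝ) :
    Ex ν (fun c => a * φ c) = a * Ex ν φ := by
  unfold Ex; rw [Finset.mul_sum]; exact Finset.sum_congr rfl fun c _ => by ring

lemma Ex_mul_right (ν : E → κ → ℝ) (a : ℝ) (φ : (E → κ) → ℝ) :
    Ex ν (fun c => φ c * a) = Ex ν φ * a := by
  unfold Ex; rw [Finset.sum_mul]; exact Finset.sum_congr rfl fun c _ => by ring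

lemma Ex_sum {ι : Type*} (ν : E → κ → ℝ) (I : Finset ι) (φ : ι → (E → κ) → ℝ) :
    Ex ν (fun c => ∑ i ∈ I, φ i c) = ∑ i ∈ I, Ex ν (φ i) := by
  unfold Ex
  rw [Finset.sum_comm]
  exact Finset.sum_congr rfl fun c _ => by rw [Finset.mul_sum]

lemma Ex_mono {ν : E → κ → ℝ} (hν : ∀ e a, 0 ≤ ν e a) {φ ψ : (E → κ) → ℝ} (h : ∀ c, φ c ≤ ψ c) :
    Ex ν φ ≤ Ex ν ψ :=
  Finset.sum_le_sum fun c _ =>
    mul_le_mul_of_nonneg_left (h c) (Finset.prod_nonneg fun e _ => hν e _)

lemma Ex_nonneg {ν : E → κ → ℝ} (hν : ∀ e a, 0 ≤ ν e a) {φ : (E → κ) → ℝ} (h : ∀ c, 0 ≤ φ c) :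
    0 ≤ Ex ν φ :=
  Finset.sum_nonneg fun c _ => mul_nonneg (Finset.prod_nonneg fun e _ => hν e _) (h c)

lemma Ex_const {ν : E → κ → ℝ} (hν : ∀ e, ∑ a, ν e a = 1) (r : ℝ) :
    Ex ν (fun _ => r) = r := by
  unfold Ex
  rw [← Finset.sum_mul]
  have h := Finset.prod_univ_sum (fun _ : E => (Finset.univ : Finset κ)) ν
  rw [Fintype.piFinset_univ] at h
  rw [← h]
  simp [hν]

lemma Ex_coord {ν : E → κ → ℝ} (hν : ∀ e, ∑ a, ν e a = 1) (e₀ : E) (ψ : κ → ℝ) :
    Ex ν (fun c => ψ (c e₀)) = ∑ a, ν e₀ a * ψ a := by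
  unfold Ex
  have h1 : ∀ c : E → κ, (∏ e, ν e (c e)) * ψ (c e₀) =
      ∏ e, (ν e (c e) * if e = e₀ then ψ (c e) else 1) := by
    intro c
    rw [Finset.prod_mul_distrib]
    congr 1
    rw [Finset.prod_ite_eq' Finset.univ e₀]
    simp
  simp_rw [h1]
  have h := Finset.prod_univ_sum (fun _ : E => (Finset.univ : Finset κ))
    (fun e a => ν e a * if e = e₀ then ψ a else 1)
  rw [Fintype.piFinset_univ] at h
  rw [← h]
  rw [← Finset.mul_prod_erase Finset.univ _ (Finset.mem_univ e₀)]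
  rw [Finset.prod_eq_one]
  · simp
  · intro e he
    simp [Finset.ne_of_mem_erase he, hν]

end Ex

section Urn

variable {V E : Type*} [Fintype V] [DecidableEq V] [Fintype E] [DecidableEq E]
  (s t : E → V) (α : ℝ)

/-- The bin chosen by the edge `e` under the choice `c`. -/
def dest (c : E → Bool) (e : E) : V := if c e then s e else t e

/-- Number of balls received by the vertex `i` under the choice `c`. -/
def inc (c : E → Bool) (i : V) : ℕ := ∑ e, if dest s t c e = i then 1 else 0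

/-- Probability weights of the two choices of an edge. -/
noncomputable def ew (x : V → ℝ) (e : E) (a : Bool) : ℝ :=
  if a then pr α (x (s e)) (x (t e)) else 1 - pr α (x (s e)) (x (t e))

variable {s t α}

omit [Fintype V] [DecidableEq V] [Fintype E] [DecidableEq E] in
lemma ew_nonneg {x : V → ℝ} (hx : ∀ i, 0 ≤ x i) (e : E) (a : Bool) : 0 ≤ ew s t α x e a := by
  unfold ew
  have h1 := pr_nonneg (α := α) (hx (s e)) (hx (t e))
  have h2 := pr_le_one (α := α) (hx (s e)) (hx (t e))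
  split_ifs <;> linarith

omit [Fintype V] [DecidableEq V] [Fintype E] [DecidableEq E] in
lemma ew_sum (x : V → ℝ) (e : E) : ∑ a, ew s t α x e a = 1 := by
  simp [ew]

omit [Fintype V] in
lemma Ex_inc (x : V → ℝ) (i : V) :
    Ex (ew s t α x) (fun c => (inc s t c i : ℝ)) = PP s t α x i := by
  unfold inc PP
  have : ∀ c : E → Bool, ((∑ e, (if dest s t c e = i then 1 else 0 : ℕ) : ℕ) : ℝ) =
      ∑ e, (if (if c e then s e else t e) = i then (1:ℝ) else 0) := by
    intro c; push_cast; rfl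
  simp_rw [this]
  rw [Ex_sum]
  refine Finset.sum_congr rfl fun e _ => ?_
  rw [Ex_coord (ew_sum x) e (fun a => if (if a then s e else t e) = i then (1:ℝ) else 0)]
  simp [ew, wt]

omit [DecidableEq E] in
lemma sum_inc (c : E → Bool) : ∑ i, inc s t c i = Fintype.card E := by
  unfold inc
  rw [Finset.sum_comm]
  simp

omit [Fintype V] [DecidableEq E] in
lemma inc_le (c : E → Bool) (i : V) : inc s t c i ≤ Fintype.card E := by
  unfold inc
  calc _ ≤ ∑ _e : E, 1 := Finset.sum_le_sum fun e _ => by split_ifs <;> simp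
    _ = _ := by simp

omit [DecidableEq E] in
lemma inc_add_le (c : E → Bool) {i j : V} (hij : i ≠ j) :
    inc s t c i + inc s t c j ≤ Fintype.card E := by
  rw [← sum_inc (s := s) (t := t) c]
  have : ∑ k ∈ ({i, j} : Finset V), inc s t c k ≤ ∑ k, inc s t c k :=
    Finset.sum_le_sum_of_subset (Finset.subset_univ _)
  rwa [Finset.sum_pair hij] at this

end Urn

end Pool.Agent.MP_cd93fa_pr
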