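import Pool.Agent.MP_cd93fa_pr.Main

namespace Pool.Agent.MP_cd93fa_pr

set_option linter.unusedSectionVars false

open Finset Filter Topology MeasureTheory
open scoped ProbabilityTheory

/-- Nonnegative functions with summable integrals are almost everywhere summable. -/
lemma ae_summable_of_summable_integral {Ω : Type*} {mΩ : MeasurableSpace Ω} {μ : Measure Ω}
    {f : ℕ → Ω → ℝ} (hf : ∀ n, Integrable (f n) μ) (hf0 : ∀ n ω, 0 ≤ f n ω)
    (hs : Summable (fun n => ∫ ω, f n ω ∂μ)) : ∀ᵐ ω ∂μ, Summable (fun n => f n ω) := by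
  have h1 : ∫⁻ ω, ∑' n, ENNReal.ofReal (f n ω) ∂μ ≠ ⊤ := by
    rw [lintegral_tsum (fun n => (hf n).aestronglyMeasurable.aemeasurable.ennreal_ofReal)]
    have h2 : ∀ n, ∫⁻ ω, ENNReal.ofReal (f n ω) ∂μ = ENNReal.ofReal (∫ ω, f n ω ∂μ) := fun n =>
      (ofReal_integral_eq_lintegral_ofReal (hf n) (Eventually.of_forall (hf0 n))).symm
    simp_rw [h2]
    exact hs.tsum_ofReal_ne_top
  have h2 : ∀ᵐ ω ∂μ, ∑' n, ENNReal.ofReal (f n ω) < ⊤ := by
    refine ae_lt_top' ?_ h1
    exact AEMeasurable.tsum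
      (fun n => (hf n).aestronglyMeasurable.aemeasurable.ennreal_ofReal)
  filter_upwards [h2] with ω hω
  have h3 := ENNReal.summable_toReal hω.ne
  refine h3.congr fun n => ?_
  rw [ENNReal.toReal_ofReal (hf0 n ω)]

variable {V : Type*} [Fintype V] [DecidableEq V] {E : Type*} [Fintype E] [DecidableEq E]

namespace IsUrn

variable {s t : E → V} {α : ℝ} {b₀ : V → ℕ} {Ω : Type*} {mΩ : MeasurableSpace Ω}
  {μ : Measure Ω} {ℱ : Filtration ℕ mΩ} {C : ℕ → Ω → E → Bool} {B : ℕ → Ω → V → ℕ}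

lemma ae_summable [IsProbabilityMeasure μ] [Nonempty E] (h : IsUrn s t α b₀ μ ℱ C B)
    (hst : ∀ e, s e ≠ t e) (hα : 1 ≤ α) (hb : ∀ i, 1 ≤ b₀ i) :
    ∀ᵐ ω ∂μ, Summable (fun n => FF s t α (shr E (∑ i, (b₀ i : ℝ)) n (B n ω)) /
      tot E (∑ i, (b₀ i : ℝ)) n) := by
  set N0 : ℝ := ∑ i, (b₀ i : ℝ) with hN0
  have hV : Nonempty V := ⟨s (Classical.arbitrary E)⟩
  have hN0pos : 0 < N0 := Finset.sum_pos (fun i _ => by
    have := hb i; exact_mod_cast this) Finset.univ_nonempty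
  have hpos : ∀ n ω, 0 ≤ FF s t α (shr E N0 n (B n ω)) / tot E N0 n := fun n ω =>
    div_nonneg (FF_nonneg _) (tot_pos hN0pos n).le
  refine ae_summable_of_summable_integral
    (fun n => h.integrable n (fun b => FF s t α (shr E N0 n b) / tot E N0 n)) hpos ?_
  have hsum2 : Summable (fun n : ℕ => 1 / ((n:ℝ) + 2) ^ 2) := by
    have := (summable_nat_add_iff 2).mpr (Real.summable_one_div_nat_pow.mpr one_lt_two)
    simpa using this
  refine summable_of_sum_range_le (c := Fintype.card E * (Real.log 2 / α) -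
    ∫ ω, Phi s t α (fun i => (B 0 ω i : ℝ)) ∂μ +
    2 * α * (Fintype.card E) ^ 3 * ∑' n : ℕ, 1 / ((n:ℝ) + 2) ^ 2)
    (fun n => integral_nonneg (hpos n)) fun M => ?_
  have h1 : ∑ n ∈ Finset.range M, ∫ ω, FF s t α (shr E N0 n (B n ω)) / tot E N0 n ∂μ ≤
      ∑ n ∈ Finset.range M, ((∫ ω, Phi s t α (fun i => (B (n + 1) ω i : ℝ)) ∂μ -
      ∫ ω, Phi s t α (fun i => (B n ω i : ℝ)) ∂μ) +
      2 * α * (Fintype.card E) ^ 3 * (1 / ((n:ℝ) + 2) ^ 2)) :=
    Finset.sum_le_sum fun n _ => h.energy_step hst hα hb n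
  rw [Finset.sum_add_distrib, Finset.sum_range_sub
    (fun n => ∫ ω, Phi s t α (fun i => (B n ω i : ℝ)) ∂μ), ← Finset.mul_sum] at h1
  have h2 : ∫ ω, Phi s t α (fun i => (B M ω i : ℝ)) ∂μ ≤ Fintype.card E * (Real.log 2 / α) := by
    have := integral_mono (h.integrable M (fun b => Phi s t α (fun i => (b i : ℝ))))
      (integrable_const (Fintype.card E * (Real.log 2 / α))) (fun ω =>
        Phi_le (s := s) (t := t) (by linarith) (b := fun i => (B M ω i : ℝ))
          (fun i => by have := h.pos hb M ω i; exact_mod_cast this))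
    rw [integral_const] at this
    simpa using this
  have h3 : ∑ n ∈ Finset.range M, 1 / ((n:ℝ) + 2) ^ 2 ≤ ∑' n : ℕ, 1 / ((n:ℝ) + 2) ^ 2 :=
    hsum2.sum_le_tsum _ (fun n _ => by positivity)
  have h4 : 2 * α * (Fintype.card E : ℝ) ^ 3 * ∑ n ∈ Finset.range M, 1 / ((n:ℝ) + 2) ^ 2 ≤
      2 * α * (Fintype.card E) ^ 3 * ∑' n : ℕ, 1 / ((n:ℝ) + 2) ^ 2 :=
    mul_le_mul_of_nonneg_left h3 (by positivity)
  linarith

end IsUrn

/-- Main theorem, for an arbitrary finite loopless multigraph with at least one edge. -/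
theorem main [Nonempty E] (s t : E → V) (hst : ∀ e, s e ≠ t e) :
    ∃ α₀ : ℝ, ∀ α, α₀ < α → ∀ b₀ : V → ℕ, (∀ i, 1 ≤ b₀ i) →
    ∀ {Ω : Type*} {mΩ : MeasurableSpace Ω} (μ : Measure Ω) [IsProbabilityMeasure μ]
      (ℱ : Filtration ℕ mΩ) (C : ℕ → Ω → E → Bool) (B : ℕ → Ω → V → ℕ),
      IsUrn s t α b₀ μ ℱ C B →
      ∀ᵐ ω ∂μ, ∃ x : V → ℝ, Tendsto (fun n => shr E (∑ i, (b₀ i : ℝ)) n (B n ω)) atTop (𝓝 x) ∧
        (∀ i, 0 ≤ x i) ∧ ∑ i, x i = 1 ∧ ∃ i, x i = 0 := by
  obtain ⟨α₁, hα₁⟩ := finite_equil s t hst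
  refine ⟨max α₁ 4, fun α hα b₀ hb Ω mΩ μ _ ℱ C B h => ?_⟩
  have hα4 : 4 < α := lt_of_le_of_lt (le_max_right _ _) hα
  have hfin := hα₁ α (lt_of_le_of_lt (le_max_left _ _) hα)
  have hV : Nonempty V := ⟨s (Classical.arbitrary E)⟩
  set N0 : ℝ := ∑ i, (b₀ i : ℝ) with hN0
  have hN0pos : 0 < N0 := Finset.sum_pos (fun i _ => by
    have := hb i; exact_mod_cast this) Finset.univ_nonempty
  have hcard : (1:ℝ) ≤ Fintype.card E := by exact_mod_cast Fintype.card_pos
  -- never stays near an interior equilibrium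
  have hnever : ∀ᵐ ω ∂μ, ∀ x ∈ {x : V → ℝ | IsEquil s t α x}, (∀ i, 0 < x i) →
      ∃ U ∈ 𝓝 x, ∀ M, ∃ j, M ≤ j ∧ shr E N0 j (B j ω) ∉ U := by
    rw [ae_ball_iff hfin.countable]
    intro x hx
    by_cases hpos : ∀ i, 0 < x i
    · obtain ⟨U, hU, hUae⟩ := h.never hst hα4 hN0pos hx hpos
      filter_upwards [hUae] with ω hω _
      exact ⟨U, hU, hω⟩
    · exact Eventually.of_forall fun ω h' => absurd h' hpos
  filter_upwards [hnever, h.ae_summable hst (by linarith) hb] with ω hω1 hω2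
  set c : ℝ := 1 / (N0 + Fintype.card E) with hc
  have hc0 : 0 < c := by positivity
  have hK : ∀ n, shr E N0 n (B n ω) ∈ KK s t c := by
    intro n
    have hS := tot_pos (E := E) hN0pos n
    refine ⟨fun i => ?_, ?_, fun e => ?_⟩
    · unfold shr; positivity
    · unfold shr
      rw [← Finset.sum_div, div_eq_one_iff_eq hS.ne']
      have := h.sumB n ω
      unfold tot
      rw [hN0]
      exact_mod_cast this
    · unfold shr
      rw [← add_div, hc, div_le_div_iff₀ (by positivity) hS, one_mul]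
      have h1 := h.edgeB hb n ω e
      have h2 : (n:ℝ) + 2 ≤ (B n ω (s e) : ℝ) + B n ω (t e) := by exact_mod_cast h1
      have h3 : tot E N0 n ≤ ((n:ℝ) + 2) * (N0 + Fintype.card E) := by
        unfold tot
        have : (0:ℝ) ≤ n := Nat.cast_nonneg n
        nlinarith [mul_nonneg this hN0pos.le]
      exact h3.trans (mul_le_mul_of_nonneg_right h2 (by positivity))
  have hstep : ∀ n, dist (shr E N0 (n + 1) (B (n + 1) ω)) (shr E N0 n (B n ω)) ≤
      1 / ((n:ℝ) + 1) := by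
    intro n
    have hS := tot_pos (E := E) hN0pos n
    have hS1 := tot_pos (E := E) hN0pos (n + 1)
    have hSS : tot E N0 (n + 1) = tot E N0 n + Fintype.card E := by
      unfold tot; push_cast; ring
    rw [dist_pi_le_iff (by positivity)]
    intro i
    rw [Real.dist_eq]
    unfold shr
    have hB1 : B (n + 1) ω i = B n ω i + inc s t (C n ω) i := by rw [h.step]
    rw [hB1]
    push_cast
    have hi0 : (0:ℝ) ≤ inc s t (C n ω) i := Nat.cast_nonneg _
    have hi1 : (inc s t (C n ω) i : ℝ) ≤ Fintype.card E := by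
      exact_mod_cast inc_le (s := s) (t := t) (C n ω) i
    have hb0 : (0:ℝ) ≤ B n ω i := Nat.cast_nonneg _
    have hb1 : (B n ω i : ℝ) ≤ tot E N0 n := by
      have h1 := (hK n).2.1
      have h2 := Finset.single_le_sum (f := fun i => shr E N0 n (B n ω) i)
        (fun j _ => (hK n).1 j) (Finset.mem_univ i)
      rw [h1] at h2
      unfold shr at h2
      rwa [div_le_one hS] at h2
    have h1 : ((B n ω i : ℝ) + inc s t (C n ω) i) / tot E N0 (n + 1) -
        (B n ω i : ℝ) / tot E N0 n =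
        (inc s t (C n ω) i * tot E N0 n - B n ω i * Fintype.card E) /
          (tot E N0 (n + 1) * tot E N0 n) := by
      rw [hSS] at hS1 ⊢
      field_simp
      ring
    rw [h1, abs_div, abs_of_pos (mul_pos hS1 hS), div_le_div_iff₀ (by positivity) (by positivity),
      one_mul]
    have h2 : |(inc s t (C n ω) i : ℝ) * tot E N0 n - B n ω i * Fintype.card E| ≤
        Fintype.card E * tot E N0 n := by
      rw [abs_le]
      constructor
      · nlinarith [mul_nonneg hi0 hS.le, mul_le_mul_of_nonneg_right hb1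
          (by linarith : (0:ℝ) ≤ Fintype.card E)]
      · nlinarith [mul_le_mul_of_nonneg_right hi1 hS.le, mul_nonneg hb0
          (by linarith : (0:ℝ) ≤ Fintype.card E)]
    have h3 : (Fintype.card E : ℝ) * ((n:ℝ) + 1) ≤ tot E N0 (n + 1) := by
      unfold tot; push_cast; nlinarith
    calc _ ≤ (Fintype.card E * tot E N0 n) * ((n:ℝ) + 1) :=
          mul_le_mul_of_nonneg_right h2 (by positivity)
      _ = (Fintype.card E * ((n:ℝ) + 1)) * tot E N0 n := by ring
      _ ≤ _ := mul_le_mul_of_nonneg_right h3 hS.le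
  have hsum : Summable (fun n : ℕ => FF s t α (shr E N0 n (B n ω)) / ((n:ℝ) + 1)) := by
    refine Summable.of_nonneg_of_le (fun n => div_nonneg (FF_nonneg _) (by positivity))
      (fun n => ?_) (hω2.mul_left (N0 + Fintype.card E))
    have hS := tot_pos (E := E) hN0pos n
    rw [mul_div_assoc', div_le_div_iff₀ (by positivity) hS]
    have h3 : tot E N0 n ≤ (N0 + Fintype.card E) * ((n:ℝ) + 1) := by
      unfold tot
      have : (0:ℝ) ≤ n := Nat.cast_nonneg n
      nlinarith [mul_nonneg this hN0pos.le]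
    have h4 := FF_nonneg (s := s) (t := t) (α := α) (shr E N0 n (B n ω))
    calc _ ≤ FF s t α (shr E N0 n (B n ω)) * ((N0 + Fintype.card E) * ((n:ℝ) + 1)) :=
          mul_le_mul_of_nonneg_left h3 h4
      _ = _ := by ring
  have hfin' : {z | z ∈ KK s t c ∧ FF s t α z = 0}.Finite :=
    hfin.subset fun z hz => FF_zero_equil hc0 hz.1 hz.2
  obtain ⟨z, hzK, hz0, hz⟩ := conv_of_finite (fun n => shr E N0 n (B n ω)) (KK_compact s t c) hK
    zero_le_one hstep (FF_continuousOn (by linarith) hc0) FF_nonneg hsum hfin'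
  refine ⟨z, hz, hzK.1, hzK.2.1, ?_⟩
  by_contra hcon
  push Not at hcon
  have hzpos : ∀ i, 0 < z i := fun i => lt_of_le_of_ne (hzK.1 i) (Ne.symm (hcon i))
  obtain ⟨U, hU, hUn⟩ := hω1 z (FF_zero_equil hc0 hzK hz0) hzpos
  obtain ⟨M, hM⟩ := eventually_atTop.mp (hz.eventually hU)
  obtain ⟨j, hj, hj'⟩ := hUn M
  exact hj' (hM j hj)

end Pool.Agent.MP_cd93fa_pr
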