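import Pool.Agent.MP_cd93fa_pr.Equil

namespace Pool.Agent.MP_cd93fa_pr

open Finset

variable {V E : Type*} [Fintype V] [DecidableEq V] [Fintype E] {s t : E → V} {α : ℝ}

/-- The inequalities on the parameters used below. -/
structure Params (m N : ℝ) (C h α : ℝ) : Prop where
  two_le : 2 ≤ α
  C_pos : 0 < C
  Ch : C ≤ h
  p1 : N * m ^ 2 * ((2 * m + 1) * h / α) + 2 * m * (N * Real.exp (-C)) < 1
  p2 : 2 * Real.exp (-h) * α < (1 / (2 * N)) ^ 2 * C
  p3 : 2 * Real.exp (-h) * α < (1 / (2 * N)) ^ 2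
  p4 : 2 * N * m ^ 2 / α < Real.exp (-(m * C)) / (1 + Real.exp (m * C)) ^ 2

/-- Dichotomy: logarithmic differences are either bounded or huge. -/
lemma IsEquil.dichotomy [Nonempty E] {x : V → ℝ} (hx : IsEquil s t α x) (hst : ∀ e, s e ≠ t e)
    {C h : ℝ} (hp : Params (Fintype.card V) (Fintype.card E) C h α) {i j : V}
    (hi : 0 < x i) (hj : 0 < x j)
    (h1 : Fintype.card V * C < α * Real.log (x j) - α * Real.log (x i))
    (h2 : α * Real.log (x j) - α * Real.log (x i) < h) : False := by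
  classical
  set m : ℝ := ((Fintype.card V : ℕ) : ℝ) with hm
  set N : ℝ := ((Fintype.card E : ℕ) : ℝ) with hN
  set c2 : ℝ := (1 / (2 * N)) ^ 2 with hc2
  have hα0 : 0 < α := by linarith [hp.two_le]
  have hC := hp.C_pos
  have hh : 0 < h := lt_of_lt_of_le hC hp.Ch
  have hN1 : 1 ≤ N := by rw [hN]; exact_mod_cast Fintype.card_pos
  have hc2pos : 0 < c2 := by rw [hc2]; positivity
  set u : V → ℝ := fun k => α * Real.log (x k) with hu
  change m * C < u j - u i at h1
  change u j - u i < h at h2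
  obtain ⟨l1, hl1, g1⟩ := exists_gap u i hC
  obtain ⟨l2, hl2, g2⟩ := exists_gap u j hh
  obtain ⟨l3, hl3, g3⟩ := exists_gap_down u i hh
  have hl1' : (l1 : ℝ) + 1 ≤ m := by rw [hm]; exact_mod_cast hl1
  have hl2' : (l2 : ℝ) + 1 ≤ m := by rw [hm]; exact_mod_cast hl2
  have hl3' : (l3 : ℝ) + 1 ≤ m := by rw [hm]; exact_mod_cast hl3
  have hl10 : (0:ℝ) ≤ l1 := Nat.cast_nonneg _
  have hl20 : (0:ℝ) ≤ l2 := Nat.cast_nonneg _
  have hl30 : (0:ℝ) ≤ l3 := Nat.cast_nonneg _
  set a : ℝ := u i + l1 * C with ha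
  set lo : ℝ := u i - l3 * h with hlo
  set hi' : ℝ := u j + l2 * h with hhi
  set Tm : Finset V := univ.filter (fun k => 0 < x k ∧ lo ≤ u k ∧ u k ≤ a) with hTm
  set Tp : Finset V := univ.filter (fun k => 0 < x k ∧ a + C ≤ u k ∧ u k ≤ hi') with hTp
  have memTm : ∀ k, k ∈ Tm ↔ (0 < x k ∧ lo ≤ u k ∧ u k ≤ a) := fun k => by simp [hTm]
  have memTp : ∀ k, k ∈ Tp ↔ (0 < x k ∧ a + C ≤ u k ∧ u k ≤ hi') := fun k => by simp [hTp]
  have g1' : ∀ k, a < u k → a + C ≤ u k := by
    intro k hk
    by_contra hc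
    push Not at hc
    exact g1 k ⟨hk, by rw [ha] at hc; linarith⟩
  have g2' : ∀ k, hi' < u k → hi' + h ≤ u k := by
    intro k hk
    by_contra hc
    push Not at hc
    exact g2 k ⟨hk, by rw [hhi] at hc; linarith⟩
  have g3' : ∀ k, u k < lo → u k ≤ lo - h := by
    intro k hk
    by_contra hc
    push Not at hc
    exact g3 k ⟨by rw [hlo] at hc; linarith, hk⟩
  have iTm : i ∈ Tm := by
    rw [memTm]
    refine ⟨hi, ?_, ?_⟩
    · rw [hlo]; nlinarith
    · rw [ha]; nlinarith
  have jTp : j ∈ Tp := by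
    rw [memTp]
    refine ⟨hj, ?_, ?_⟩
    · rw [ha]
      have : (l1 + 1) * C ≤ m * C := mul_le_mul_of_nonneg_right hl1' hC.le
      linarith
    · rw [hhi]; nlinarith
  -- block estimates
  obtain ⟨I1, hI1a, hI1b⟩ := hx.block hα0 (T := Tm) (h1 := h) (h2 := C)
    (fun k hk => ((memTm k).1 hk).1) (by
      intro k hk l hl
      rcases (hx.nonneg l).eq_or_lt with h0 | h0
      · exact Or.inl h0.symm
      · refine Or.inr ⟨h0, ?_⟩
        have hk' := (memTm k).1 hk
        rcases lt_or_ge (u l) lo with hc | hc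
        · left
          have := g3' l hc
          change h ≤ u k - u l
          linarith [hk'.2.1]
        · right
          have : a < u l := by
            by_contra hcon
            push Not at hcon
            exact hl ((memTm l).2 ⟨h0, hc, hcon⟩)
          have := g1' l this
          change C ≤ u l - u k
          linarith [hk'.2.2])
  obtain ⟨I2, hI2a, hI2b⟩ := hx.block hα0 (T := Tp) (h1 := C) (h2 := h)
    (fun k hk => ((memTp k).1 hk).1) (by
      intro k hk l hl
      rcases (hx.nonneg l).eq_or_lt with h0 | h0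
      · exact Or.inl h0.symm
      · refine Or.inr ⟨h0, ?_⟩
        have hk' := (memTp k).1 hk
        rcases le_or_gt (u l) hi' with hc | hc
        · left
          have : u l ≤ a := by
            by_contra hcon
            push Not at hcon
            exact hl ((memTp l).2 ⟨h0, g1' l hcon, hc⟩)
          change C ≤ u k - u l
          linarith [hk'.2.1]
        · right
          have := g2' l hc
          change h ≤ u l - u k
          linarith [hk'.2.2])
  set X1 := ∑ k ∈ Tm, x k with hX1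
  set X2 := ∑ k ∈ Tp, x k with hX2
  set n1 : ℝ := (Tm.card : ℝ) with hn1
  set n2 : ℝ := (Tp.card : ℝ) with hn2
  have hn1pos : 1 ≤ n1 := by
    rw [hn1]; exact_mod_cast Finset.card_pos.mpr ⟨i, iTm⟩
  have hn2pos : 1 ≤ n2 := by
    rw [hn2]; exact_mod_cast Finset.card_pos.mpr ⟨j, jTp⟩
  have hn1m : n1 ≤ m := by
    rw [hn1, hm]; exact_mod_cast Finset.card_le_univ Tm
  have hn2m : n2 ≤ m := by
    rw [hn2, hm]; exact_mod_cast Finset.card_le_univ Tp
  have hxle1 : ∀ k, x k ≤ 1 := by
    intro k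
    rw [← hx.sum_one]
    exact Finset.single_le_sum (f := x) (fun k _ => hx.nonneg k) (Finset.mem_univ k)
  -- pairwise bounds
  have hpair : ∀ k ∈ Tm, ∀ l ∈ Tp, c2 * (C / α) ≤ x l - x k ∧
      x l - x k ≤ (2 * m + 1) * h / α := by
    intro k hk l hl
    have hk' := (memTm k).1 hk
    have hl' := (memTp l).1 hl
    have hdiff : Real.log (x l) - Real.log (x k) = (u l - u k) / α := by
      rw [hu]; field_simp
    constructor
    · have e1 := mul_log_le_sub hk'.1 hl'.1
      have e2 : C / α ≤ Real.log (x l) - Real.log (x k) := by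
        rw [hdiff]
        apply div_le_div_of_nonneg_right _ hα0.le
        linarith [hk'.2.2, hl'.2.1]
      have e3 : c2 ≤ x k := hx.lb hst hp.two_le hk'.1
      have e4 : 0 ≤ C / α := by positivity
      calc c2 * (C / α) ≤ x k * (C / α) := mul_le_mul_of_nonneg_right e3 e4
        _ ≤ x k * (Real.log (x l) - Real.log (x k)) := mul_le_mul_of_nonneg_left e2 hk'.1.le
        _ ≤ _ := e1
    · have e1 := sub_le_mul_log hk'.1 hl'.1
      have e2 : Real.log (x l) - Real.log (x k) ≤ (2 * m + 1) * h / α := by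
        rw [hdiff]
        apply div_le_div_of_nonneg_right _ hα0.le
        have := hk'.2.1
        have := hl'.2.2
        have e5 : (l2 : ℝ) * h ≤ m * h := mul_le_mul_of_nonneg_right (by linarith) hh.le
        have e6 : (l3 : ℝ) * h ≤ m * h := mul_le_mul_of_nonneg_right (by linarith) hh.le
        rw [hlo] at *
        rw [hhi] at *
        nlinarith
      have e0 : 0 ≤ Real.log (x l) - Real.log (x k) := by
        rw [hdiff]
        apply div_nonneg _ hα0.le
        linarith [hk'.2.2, hl'.2.1]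
      calc x l - x k ≤ x l * (Real.log (x l) - Real.log (x k)) := e1
        _ ≤ 1 * (Real.log (x l) - Real.log (x k)) := mul_le_mul_of_nonneg_right (hxle1 l) e0
        _ ≤ _ := by rw [one_mul]; exact e2
  have hsumeq : ∑ k ∈ Tm, ∑ l ∈ Tp, (x l - x k) = n1 * X2 - n2 * X1 := by
    simp only [Finset.sum_sub_distrib, Finset.sum_const, nsmul_eq_mul]
    rw [← Finset.mul_sum]
  have hlow : n1 * n2 * (c2 * (C / α)) ≤ n1 * X2 - n2 * X1 := by
    rw [← hsumeq]
    calc n1 * n2 * (c2 * (C / α)) = ∑ k ∈ Tm, ∑ l ∈ Tp, (c2 * (C / α)) := by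
          simp only [Finset.sum_const, nsmul_eq_mul]; ring
      _ ≤ _ := Finset.sum_le_sum fun k hk => Finset.sum_le_sum fun l hl => (hpair k hk l hl).1
  have hupp : n1 * X2 - n2 * X1 ≤ n1 * n2 * ((2 * m + 1) * h / α) := by
    rw [← hsumeq]
    calc _ ≤ ∑ k ∈ Tm, ∑ l ∈ Tp, ((2 * m + 1) * h / α) :=
          Finset.sum_le_sum fun k hk => Finset.sum_le_sum fun l hl => (hpair k hk l hl).2
      _ = _ := by simp only [Finset.sum_const, nsmul_eq_mul]; ring
  have hexp : Real.exp (-h) ≤ Real.exp (-C) := Real.exp_le_exp.mpr (by linarith [hp.Ch])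
  have hexp0 : 0 < Real.exp (-h) := Real.exp_pos _
  have hm1 : 1 ≤ m := hn1pos.trans hn1m
  have hNC : 0 < N * Real.exp (-C) := by positivity
  have hNh : N * Real.exp (-h) ≤ N * Real.exp (-C) := mul_le_mul_of_nonneg_left hexp (by linarith)
  obtain ⟨J, hJ⟩ : ∃ J : ℤ, J = (Tm.card : ℤ) * I2 - (Tp.card : ℤ) * I1 := ⟨_, rfl⟩
  have hJr : (J : ℝ) = N * (n1 * X2 - n2 * X1) - n1 * (N * X2 - I2) + n2 * (N * X1 - I1) := by
    rw [hJ]; push_cast; ring
  rw [← hN] at hI1a hI1b hI2a hI2b
  clear_value n1 n2 X1 X2 m N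
  have hq : 0 ≤ (2 * m + 1) * h / α := by positivity
  have hJ1 : J < 1 := by
    have : (J : ℝ) < 1 := by
      rw [hJr]
      refine lt_of_le_of_lt ?_ hp.p1
      have e1 : N * (n1 * X2 - n2 * X1) ≤ N * m ^ 2 * ((2 * m + 1) * h / α) := by
        have e2 : n1 * n2 ≤ m ^ 2 := by nlinarith
        calc N * (n1 * X2 - n2 * X1) ≤ N * (n1 * n2 * ((2 * m + 1) * h / α)) :=
              mul_le_mul_of_nonneg_left hupp (by linarith)
          _ ≤ N * (m ^ 2 * ((2 * m + 1) * h / α)) := by
              apply mul_le_mul_of_nonneg_left _ (by linarith)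
              exact mul_le_mul_of_nonneg_right e2 hq
          _ = _ := by ring
      have e2 : -(n1 * (N * X2 - I2)) ≤ m * (N * Real.exp (-C)) := by
        have : -(N * X2 - I2) ≤ N * Real.exp (-C) := by linarith
        calc -(n1 * (N * X2 - I2)) = n1 * (-(N * X2 - I2)) := by ring
          _ ≤ n1 * (N * Real.exp (-C)) := mul_le_mul_of_nonneg_left this (by linarith)
          _ ≤ m * (N * Real.exp (-C)) := mul_le_mul_of_nonneg_right hn1m hNC.le
      have e3 : n2 * (N * X1 - I1) ≤ m * (N * Real.exp (-C)) := by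
        calc n2 * (N * X1 - I1) ≤ n2 * (N * Real.exp (-C)) :=
              mul_le_mul_of_nonneg_left hI1b (by linarith)
          _ ≤ m * (N * Real.exp (-C)) := mul_le_mul_of_nonneg_right hn2m hNC.le
      linarith
    exact_mod_cast this
  have hJ2 : -1 < J := by
    have : (-1 : ℝ) < (J : ℝ) := by
      rw [hJr]
      have e0 : 0 ≤ N * (n1 * X2 - n2 * X1) := by
        apply mul_nonneg (by linarith)
        refine le_trans ?_ hlow
        positivity
      have e2 : n1 * (N * X2 - I2) ≤ m * (N * Real.exp (-C)) := by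
        calc n1 * (N * X2 - I2) ≤ n1 * (N * Real.exp (-C)) :=
              mul_le_mul_of_nonneg_left (hI2b.trans hNh) (by linarith)
          _ ≤ m * (N * Real.exp (-C)) := mul_le_mul_of_nonneg_right hn1m hNC.le
      have e3 : -(n2 * (N * X1 - I1)) ≤ m * (N * Real.exp (-C)) := by
        have : -(N * X1 - I1) ≤ N * Real.exp (-C) := by linarith
        calc -(n2 * (N * X1 - I1)) = n2 * (-(N * X1 - I1)) := by ring
          _ ≤ n2 * (N * Real.exp (-C)) := mul_le_mul_of_nonneg_left this (by linarith)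
          _ ≤ m * (N * Real.exp (-C)) := mul_le_mul_of_nonneg_right hn2m hNC.le
      have e4 : 0 ≤ N * m ^ 2 * ((2 * m + 1) * h / α) := by positivity
      linarith [hp.p1]
    exact_mod_cast this
  have hJ0 : J = 0 := by omega
  have hJr0 : (0 : ℝ) = N * (n1 * X2 - n2 * X1) - n1 * (N * X2 - I2) + n2 * (N * X1 - I1) := by
    rw [← hJr, hJ0]; exact Int.cast_zero.symm
  -- final contradiction
  have f1 : N * (n1 * n2 * (c2 * (C / α))) ≤ (n1 + n2) * (N * Real.exp (-h)) := by
    have e1 : N * (n1 * n2 * (c2 * (C / α))) ≤ N * (n1 * X2 - n2 * X1) :=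
      mul_le_mul_of_nonneg_left hlow (by linarith)
    have e2 : n1 * (N * X2 - I2) ≤ n1 * (N * Real.exp (-h)) :=
      mul_le_mul_of_nonneg_left hI2b (by linarith)
    have e3 : -(n2 * (N * X1 - I1)) ≤ n2 * (N * Real.exp (-h)) := by
      have : -(N * X1 - I1) ≤ N * Real.exp (-h) := by linarith
      calc -(n2 * (N * X1 - I1)) = n2 * (-(N * X1 - I1)) := by ring
        _ ≤ n2 * (N * Real.exp (-h)) := mul_le_mul_of_nonneg_left this (by linarith)
    linarith
  have f2 : n1 + n2 ≤ 2 * (n1 * n2) := by nlinarith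
  have f3 : N * (n1 * n2 * (c2 * (C / α))) ≤ N * (n1 * n2 * (2 * Real.exp (-h))) := by
    refine f1.trans ?_
    have : (n1 + n2) * (N * Real.exp (-h)) ≤ (2 * (n1 * n2)) * (N * Real.exp (-h)) :=
      mul_le_mul_of_nonneg_right f2 (by positivity)
    refine this.trans (le_of_eq ?_)
    ring
  have f4 : c2 * (C / α) ≤ 2 * Real.exp (-h) := by
    have hpos : 0 < N * (n1 * n2) :=
      mul_pos (by linarith) (mul_pos (by linarith) (by linarith))
    have : N * (n1 * n2) * (c2 * (C / α)) ≤ N * (n1 * n2) * (2 * Real.exp (-h)) := by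
      calc _ = N * (n1 * n2 * (c2 * (C / α))) := by ring
        _ ≤ _ := f3
        _ = _ := by ring
    exact le_of_mul_le_mul_left this hpos
  have f5 : c2 * C ≤ 2 * Real.exp (-h) * α := by
    have : c2 * (C / α) * α ≤ 2 * Real.exp (-h) * α := mul_le_mul_of_nonneg_right f4 hα0.le
    calc c2 * C = c2 * (C / α) * α := by field_simp
      _ ≤ _ := this
  exact absurd hp.p2 (not_lt.mpr f5)

end Pool.Agent.MP_cd93fa_pr
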