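import Pool.Agent.MP_cd93fa_pr.Uniq

namespace Pool.Agent.MP_cd93fa_pr

open Finset Filter Topology

variable {V E : Type*} [Fintype V] [DecidableEq V] [Fintype E] {s t : E → V} {α : ℝ}

lemma IsEquil.uniq [Nonempty E] {x y : V → ℝ} (hx : IsEquil s t α x) (hy : IsEquil s t α y)
    (hst : ∀ e, s e ≠ t e) {C h : ℝ} (hp : Params (Fintype.card V) (Fintype.card E) C h α)
    (hty : ty s t α (Fintype.card V * C) x = ty s t α (Fintype.card V * C) y) : x = y := by
  classical
  have hα0 : 0 < α := by linarith [hp.two_le]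
  have hsupp : ∀ i, 0 < x i ↔ 0 < y i := by
    intro i
    have := congrFun (congrArg Prod.fst hty) i
    simpa [ty] using this
  have hty' : ∀ e, (|α * Real.log (x (s e)) - α * Real.log (x (t e))| ≤ Fintype.card V * C ∧
        |α * Real.log (y (s e)) - α * Real.log (y (t e))| ≤ Fintype.card V * C) ∨
      (Fintype.card V * C < α * Real.log (x (s e)) - α * Real.log (x (t e)) ∧
        Fintype.card V * C < α * Real.log (y (s e)) - α * Real.log (y (t e))) ∨
      (Fintype.card V * C < α * Real.log (x (t e)) - α * Real.log (x (s e)) ∧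
        Fintype.card V * C < α * Real.log (y (t e)) - α * Real.log (y (s e))) := by
    intro e
    have h1 := congrFun (congrArg Prod.snd hty) e
    simp only [ty] at h1
    by_cases a1 : |α * Real.log (x (s e)) - α * Real.log (x (t e))| ≤ Fintype.card V * C
    · by_cases b1 : |α * Real.log (y (s e)) - α * Real.log (y (t e))| ≤ Fintype.card V * C
      · exact Or.inl ⟨a1, b1⟩
      · rw [if_pos a1, if_neg b1] at h1
        by_cases b2 : 0 < α * Real.log (y (s e)) - α * Real.log (y (t e))
        · rw [if_pos b2] at h1; exact absurd h1 (by decide)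
        · rw [if_neg b2] at h1; exact absurd h1 (by decide)
    · by_cases b1 : |α * Real.log (y (s e)) - α * Real.log (y (t e))| ≤ Fintype.card V * C
      · rw [if_neg a1, if_pos b1] at h1
        by_cases a2 : 0 < α * Real.log (x (s e)) - α * Real.log (x (t e))
        · rw [if_pos a2] at h1; exact absurd h1 (by decide)
        · rw [if_neg a2] at h1; exact absurd h1 (by decide)
      · rw [if_neg a1, if_neg b1] at h1
        right
        push Not at a1 b1
        by_cases a2 : 0 < α * Real.log (x (s e)) - α * Real.log (x (t e))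
        · by_cases b2 : 0 < α * Real.log (y (s e)) - α * Real.log (y (t e))
          · left
            rw [abs_of_pos a2] at a1
            rw [abs_of_pos b2] at b1
            exact ⟨a1, b1⟩
          · rw [if_pos a2, if_neg b2] at h1; exact absurd h1 (by decide)
        · by_cases b2 : 0 < α * Real.log (y (s e)) - α * Real.log (y (t e))
          · rw [if_neg a2, if_pos b2] at h1; exact absurd h1 (by decide)
          · right
            rw [abs_of_nonpos (not_lt.mp a2)] at a1
            rw [abs_of_nonpos (not_lt.mp b2)] at b1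
            exact ⟨by linarith, by linarith⟩
  by_contra hne
  obtain ⟨j, hj⟩ : ∃ j, x j ≠ y j := by
    by_contra hc
    push Not at hc
    exact hne (funext hc)
  have hjx : 0 < x j := by
    by_contra hc
    have h1 : x j = 0 := le_antisymm (not_lt.mp hc) (hx.nonneg j)
    have h2 : y j = 0 := le_antisymm (not_lt.mp (fun h => hc ((hsupp j).2 h))) (hy.nonneg j)
    exact hj (by rw [h1, h2])
  have hjy := (hsupp j).1 hjx
  have hdj : α * Real.log (y j) - α * Real.log (x j) ≠ 0 := by
    intro h0
    have h1 : Real.log (y j) = Real.log (x j) := by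
      have : α * Real.log (y j) = α * Real.log (x j) := by linarith
      exact mul_left_cancel₀ hα0.ne' this
    have := Real.log_injOn_pos hjy hjx h1
    exact hj this.symm
  obtain ⟨i0, -, hi0⟩ := Finset.exists_max_image (univ : Finset V)
    (fun i => |α * Real.log (y i) - α * Real.log (x i)|) ⟨j, Finset.mem_univ j⟩
  have hi0' : ∀ i, |α * Real.log (y i) - α * Real.log (x i)| ≤
      |α * Real.log (y i0) - α * Real.log (x i0)| := fun i => hi0 i (Finset.mem_univ i)
  have hpos : 0 < |α * Real.log (y i0) - α * Real.log (x i0)| :=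
    lt_of_lt_of_le (abs_pos.mpr hdj) (hi0' j)
  rcases le_total 0 (α * Real.log (y i0) - α * Real.log (x i0)) with h0 | h0
  · rw [abs_of_nonneg h0] at hpos
    refine hx.uniq_aux hy hst hp hsupp hty' (i0 := i0) (fun i => ?_) hpos
    have := hi0' i
    rwa [abs_of_nonneg h0] at this
  · rw [abs_of_nonpos h0] at hpos
    refine hy.uniq_aux hx hst hp (fun i => (hsupp i).symm) (fun e => ?_) (i0 := i0)
      (fun i => ?_) (by linarith)
    · rcases hty' e with h | h | h
      · exact Or.inl ⟨h.2, h.1⟩
      · exact Or.inr (Or.inl ⟨h.2, h.1⟩)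
      · exact Or.inr (Or.inr ⟨h.2, h.1⟩)
    · have := hi0' i
      rw [abs_of_nonpos h0, abs_sub_comm] at this
      linarith

lemma eventually_params (m N : ℝ) (hm : 0 ≤ m) (hN : 0 < N) :
    ∃ C : ℝ, ∀ᶠ α : ℝ in atTop, Params m N C (Real.sqrt α) α := by
  obtain ⟨C, hC0, hC⟩ : ∃ C : ℝ, 0 < C ∧ 2 * m * (N * Real.exp (-C)) < 1 / 2 := by
    have h1 : Tendsto (fun C : ℝ => 2 * m * (N * Real.exp (-C))) atTop (𝓝 (2 * m * (N * 0))) :=
      ((Real.tendsto_exp_neg_atTop_nhds_zero.const_mul N).const_mul (2 * m))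
    have h2 : ∀ᶠ C : ℝ in atTop, 2 * m * (N * Real.exp (-C)) < 1 / 2 :=
      h1.eventually_lt_const (by norm_num)
    obtain ⟨C, hC⟩ := (h2.and (eventually_gt_atTop 0)).exists
    exact ⟨C, hC.2, hC.1⟩
  refine ⟨C, ?_⟩
  have hsqrt : Tendsto Real.sqrt atTop atTop := Real.tendsto_sqrt_atTop
  have t1 : Tendsto (fun α : ℝ => N * m ^ 2 * ((2 * m + 1) * Real.sqrt α / α)) atTop (𝓝 0) := by
    have e : ∀ α : ℝ, N * m ^ 2 * ((2 * m + 1) * Real.sqrt α / α) =
        N * m ^ 2 * (2 * m + 1) * (Real.sqrt α)⁻¹ := by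
      intro α
      rw [mul_div_assoc, Real.sqrt_div_self', one_div]
      ring
    simp_rw [e]
    have := (tendsto_inv_atTop_zero.comp hsqrt).const_mul (N * m ^ 2 * (2 * m + 1))
    simpa using this
  have t2 : Tendsto (fun α : ℝ => 2 * Real.exp (-Real.sqrt α) * α) atTop (𝓝 0) := by
    have h1 := (Real.tendsto_pow_mul_exp_neg_atTop_nhds_zero 2).comp hsqrt
    have h2 := h1.const_mul 2
    rw [mul_zero] at h2
    refine h2.congr' ?_
    filter_upwards [eventually_ge_atTop 0] with α hα
    simp only [Function.comp]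
    rw [Real.sq_sqrt hα]; ring
  have t3 : Tendsto (fun α : ℝ => 2 * N * m ^ 2 / α) atTop (𝓝 0) :=
    tendsto_const_nhds.div_atTop tendsto_id
  have c2pos : 0 < (1 / (2 * N)) ^ 2 := by positivity
  filter_upwards [eventually_ge_atTop 2, hsqrt.eventually_ge_atTop C,
    t1.eventually_lt_const (show (0:ℝ) < 1 / 2 by norm_num),
    t2.eventually_lt_const (show (0:ℝ) < (1 / (2 * N)) ^ 2 * C by positivity),
    t2.eventually_lt_const c2pos,
    t3.eventually_lt_const (show (0:ℝ) < Real.exp (-(m * C)) / (1 + Real.exp (m * C)) ^ 2 by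
      positivity)] with α h1 h2 h3 h4 h5 h6
  exact ⟨h1, hC0, h2, by linarith, h4, h5, h6⟩

/-- For large `α` there are only finitely many equilibria. -/
theorem finite_equil [Nonempty E] (s t : E → V) (hst : ∀ e, s e ≠ t e) :
    ∃ α₁ : ℝ, ∀ α, α₁ < α → {x : V → ℝ | IsEquil s t α x}.Finite := by
  obtain ⟨C, hC⟩ := eventually_params (Fintype.card V) (Fintype.card E) (by positivity)
    (by exact_mod_cast Fintype.card_pos)
  obtain ⟨α₁, h⟩ := (eventually_atTop.mp hC)
  refine ⟨α₁, fun α hα => ?_⟩
  have hp := h α hα.le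
  refine Set.Finite.of_finite_image (f := ty s t α (Fintype.card V * C)) (Set.toFinite _) ?_
  intro x hx y hy hxy
  exact IsEquil.uniq hx hy hst hp hxy

end Pool.Agent.MP_cd93fa_pr
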