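import Pool.Agent.MP_cd93fa_pr.Nbhd

namespace Pool.Agent.MP_cd93fa_pr

open Finset Filter Topology
open scoped RealInnerProductSpace

section Linear

variable {V : Type*} [Fintype V] {E : Type*} [Fintype E]

/-- Rescaled coordinates. -/
noncomputable def io (x : V → ℝ) (D : V → ℝ) : EuclideanSpace ℝ V :=
  WithLp.toLp 2 (fun i => D i / Real.sqrt (x i))

lemma inner_io {x : V → ℝ} (hx : ∀ i, 0 < x i) (D D' : V → ℝ) :
    ⟪io x D, io x D'⟫ = ∑ i, D i * D' i / x i := by
  rw [PiLp.inner_apply]
  refine Finset.sum_congr rfl fun i _ => ?_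
  simp only [io]
  have h1 : Real.sqrt (x i) * Real.sqrt (x i) = x i := Real.mul_self_sqrt (hx i).le
  have h4 : ∀ a b : ℝ, ⟪a, b⟫ = a * b := fun a b => by simp [mul_comm]
  rw [h4, div_mul_div_comm, h1]

omit [Fintype V] in
lemma io_add (x : V → ℝ) (D D' : V → ℝ) : io x (D + D') = io x D + io x D' := by
  ext i; simp [io, add_div]

omit [Fintype V] in
lemma io_sub (x : V → ℝ) (D D' : V → ℝ) : io x (D - D') = io x D - io x D' := by
  ext i; simp [io, sub_div]

omit [Fintype V] in
lemma io_smul (x : V → ℝ) (r : ℝ) (D : V → ℝ) : io x (r • D) = r • io x D := by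
  ext i; simp [io, mul_div_assoc]

omit [Fintype V] in
lemma io_sum {ι : Type*} (x : V → ℝ) (I : Finset ι) (D : ι → V → ℝ) :
    io x (∑ k ∈ I, D k) = ∑ k ∈ I, io x (D k) := by
  ext i; simp [io, Finset.sum_div]

variable [DecidableEq V]

/-- The direction of the edge `e`. -/
noncomputable def gv (s t : E → V) (x : V → ℝ) (e : E) : EuclideanSpace ℝ V :=
  io x (fun i => (if s e = i then 1 else 0) - (if t e = i then 1 else 0))

omit [Fintype E] in
lemma inner_gv {s t : E → V} {x : V → ℝ} (hx : ∀ i, 0 < x i) (e : E) (D : V → ℝ) :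
    ⟪gv s t x e, io x D⟫ = D (s e) / x (s e) - D (t e) / x (t e) := by
  unfold gv
  rw [inner_io hx]
  simp only [sub_mul, ite_mul, one_mul, zero_mul, sub_div, ite_div, zero_div]
  rw [Finset.sum_sub_distrib]
  simp

omit [Fintype E] in
lemma inner_gv_self {s t : E → V} {x : V → ℝ} (hx : ∀ i, 0 < x i) {e : E} (hne : s e ≠ t e) :
    ⟪gv s t x e, gv s t x e⟫ = 1 / x (s e) + 1 / x (t e) := by
  have h := inner_gv (s := s) (t := t) hx e
    (fun i => (if s e = i then 1 else 0) - (if t e = i then 1 else 0))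
  change ⟪gv s t x e, gv s t x e⟫ = _ at h
  rw [h]
  simp only [if_true, if_neg hne, if_neg hne.symm]
  ring

/-- The linear operator `H - (1 + κ)`. -/
noncomputable def Aop (s t : E → V) (x : V → ℝ) (a : E → ℝ) (κ : ℝ) :
    EuclideanSpace ℝ V →ₗ[ℝ] EuclideanSpace ℝ V :=
  ∑ e, a e • (LinearMap.toSpanSingleton ℝ _ (gv s t x e)).comp
    (innerₛₗ ℝ (gv s t x e)) - (1 + κ) • LinearMap.id

lemma Aop_apply (s t : E → V) (x : V → ℝ) (a : E → ℝ) (κ : ℝ) (v : EuclideanSpace ℝ V) :
    Aop s t x a κ v = ∑ e, (a e * ⟪gv s t x e, v⟫) • gv s t x e - (1 + κ) • v := by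
  unfold Aop
  simp [LinearMap.sum_apply, smul_smul]

lemma Aop_symm (s t : E → V) (x : V → ℝ) (a : E → ℝ) (κ : ℝ) (v w : EuclideanSpace ℝ V) :
    ⟪Aop s t x a κ v, w⟫ = ⟪v, Aop s t x a κ w⟫ := by
  rw [Aop_apply, Aop_apply, inner_sub_left, inner_sub_right, sum_inner, inner_sum,
    real_inner_smul_left, real_inner_smul_right]
  congr 1
  refine Finset.sum_congr rfl fun e _ => ?_
  rw [real_inner_smul_left, real_inner_smul_right, real_inner_comm v]
  ring

/-- A value of `κ` for which the operator is invertible. -/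
lemma exists_kappa (s t : E → V) (x : V → ℝ) (a : E → ℝ) {κ₀ : ℝ} (hκ₀ : 0 < κ₀) :
    ∃ κ, 0 < κ ∧ κ < κ₀ ∧ LinearMap.ker (Aop s t x a κ) = ⊥ := by
  have hfin := Module.End.finite_hasEigenvalue (Aop s t x a (-1))
  have hfin' : {κ : ℝ | Module.End.HasEigenvalue (Aop s t x a (-1)) (1 + κ)}.Finite :=
    hfin.preimage (f := fun κ : ℝ => 1 + κ) (fun a _ b _ h => by simpa using h)
  have hinf : (Set.Ioo 0 κ₀).Infinite := Set.Ioo_infinite hκ₀
  obtain ⟨κ, hκ, hκ'⟩ := (hinf.sdiff hfin').nonempty
  refine ⟨κ, hκ.1, hκ.2, ?_⟩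
  rw [LinearMap.ker_eq_bot']
  intro v hv
  by_contra hne
  apply hκ'
  refine Module.End.hasEigenvalue_of_hasEigenvector (x := v) ?_
  rw [Module.End.hasEigenvector_iff, Module.End.mem_eigenspace_iff]
  refine ⟨?_, hne⟩
  rw [Aop_apply] at hv ⊢
  have := sub_eq_zero.mp hv
  rw [this]
  simp

/-- The coefficients of the linearisation at the equilibrium `x`. -/
noncomputable def ac (s t : E → V) (α : ℝ) (x : V → ℝ) (e : E) : ℝ :=
  α / Fintype.card E * (pr α (x (s e)) (x (t e)) * (1 - pr α (x (s e)) (x (t e))))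

omit [Fintype V] [DecidableEq V] in
lemma ac_nonneg {s t : E → V} {α : ℝ} {x : V → ℝ} (hα : 0 ≤ α) (hx : ∀ i, 0 ≤ x i) (e : E) :
    0 ≤ ac s t α x e := by
  unfold ac
  have h1 := pr_nonneg (α := α) (hx (s e)) (hx (t e))
  have h2 := pr_le_one (α := α) (hx (s e)) (hx (t e))
  have h3 : 0 ≤ 1 - pr α (x (s e)) (x (t e)) := by linarith
  positivity

lemma le_of_half {w : ℝ} (hw0 : 0 ≤ w) (hw : w ≤ 1 / 2) : w / 2 ≤ w * (1 - w) := by nlinarith

/-- At an interior equilibrium some edge direction is unstable when `α > 4`. -/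
lemma exists_unstable [Nonempty E] {s t : E → V} (hst : ∀ e, s e ≠ t e) {α : ℝ} (hα : 4 < α)
    {x : V → ℝ} (hx : IsEquil s t α x) (hpos : ∀ i, 0 < x i) :
    ∃ e₀, α / 4 * ⟪gv s t x e₀, gv s t x e₀⟫ ≤
      ∑ e, ac s t α x e * ⟪gv s t x e, gv s t x e₀⟫ ^ 2 := by
  have hV : Nonempty V := ⟨s (Classical.arbitrary E)⟩
  obtain ⟨i, -, hmin⟩ := Finset.exists_min_image (univ : Finset V) x Finset.univ_nonempty
  have hmin' : ∀ j, x i ≤ x j := fun j => hmin j (Finset.mem_univ j)
  have hi := hpos i
  have hN : (0:ℝ) < Fintype.card E := by exact_mod_cast Fintype.card_pos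
  -- an incident edge
  obtain ⟨e₀, he₀⟩ : ∃ e₀, s e₀ = i ∨ t e₀ = i := by
    by_contra hcon
    push Not at hcon
    have h1 : PP s t α x i = 0 := by
      unfold PP
      exact Finset.sum_eq_zero fun e _ => wt_of_ne (hcon e).1 (hcon e).2
    rw [hx.eq i] at h1
    have := mul_pos hN hi
    linarith
  refine ⟨e₀, ?_⟩
  have hne := hst e₀
  have hg0 : ⟪gv s t x e₀, gv s t x e₀⟫ = 1 / x (s e₀) + 1 / x (t e₀) := inner_gv_self hpos hne
  have hg1 : ⟪gv s t x e₀, gv s t x e₀⟫ ≤ 2 / x i := by
    rw [hg0]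
    have h1 : 1 / x (s e₀) ≤ 1 / x i := one_div_le_one_div_of_le hi (hmin' _)
    have h2 : 1 / x (t e₀) ≤ 1 / x i := one_div_le_one_div_of_le hi (hmin' _)
    calc _ ≤ 1 / x i + 1 / x i := add_le_add h1 h2
      _ = _ := by ring
  -- lower bound for each term
  have hterm : ∀ e, α / (2 * Fintype.card E * (x i) ^ 2) * wt s t α x e i ≤
      ac s t α x e * ⟪gv s t x e, gv s t x e₀⟫ ^ 2 := by
    intro e
    have hin : ⟪gv s t x e, gv s t x e₀⟫ =
        ((if s e₀ = s e then 1 else 0) - (if t e₀ = s e then 1 else 0)) / x (s e) -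
        ((if s e₀ = t e then 1 else 0) - (if t e₀ = t e then 1 else 0)) / x (t e) := by
      have : gv s t x e₀ = io x (fun i => (if s e₀ = i then 1 else 0) -
        (if t e₀ = i then 1 else 0)) := rfl
      rw [this, inner_gv hpos]
    have hac := ac_nonneg (s := s) (t := t) (α := α) (by linarith) hx.nonneg e
    by_cases h1 : s e = i ∨ t e = i
    · have hne' := hst e
      have hsq : (1 / x i) ^ 2 ≤ ⟪gv s t x e, gv s t x e₀⟫ ^ 2 := by
        rw [hin]
        have hps := hpos (s e)
        have hpt := hpos (t e)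
        have q1 : 0 < 1 / x (s e) := by positivity
        have q2 : 0 < 1 / x (t e) := by positivity
        rw [sq_le_sq]
        rw [abs_of_pos (show 0 < 1 / x i by positivity)]
        rcases h1 with h1 | h1 <;> rcases he₀ with h2 | h2
        · -- `s e = i`, `s e₀ = i`
          have a1 : ¬ t e₀ = s e := by rw [h1, ← h2]; exact hne.symm
          have a2 : ¬ s e₀ = t e := by rw [h2, ← h1]; exact hne'
          rw [if_pos (h2.trans h1.symm), if_neg a1, if_neg a2]
          refine le_trans ?_ (le_abs_self _)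
          rw [h1] at q1 ⊢
          split_ifs
          · have : (1 - 0) / x i - (0 - 1) / x (t e) = 1 / x i + 1 / x (t e) := by ring
            rw [this]; linarith
          · have : (1 - 0) / x i - (0 - 0) / x (t e) = 1 / x i := by ring
            rw [this]
        · -- `s e = i`, `t e₀ = i`
          have a1 : ¬ s e₀ = s e := by rw [h1, ← h2]; exact hne
          have a2 : ¬ t e₀ = t e := by rw [h2, ← h1]; exact hne'
          rw [if_neg a1, if_pos (h2.trans h1.symm), if_neg a2]
          refine le_trans ?_ (neg_le_abs _)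
          rw [h1] at q1 ⊢
          split_ifs
          · have : -((0 - 1) / x i - (1 - 0) / x (t e)) = 1 / x i + 1 / x (t e) := by ring
            rw [this]; linarith
          · have : -((0 - 1) / x i - (0 - 0) / x (t e)) = 1 / x i := by ring
            rw [this]
        · -- `t e = i`, `s e₀ = i`
          have a1 : ¬ t e₀ = t e := by rw [h1, ← h2]; exact hne.symm
          have a2 : ¬ s e₀ = s e := by rw [h2, ← h1]; exact hne'.symm
          rw [if_neg a2, if_pos (h2.trans h1.symm), if_neg a1]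
          refine le_trans ?_ (neg_le_abs _)
          rw [h1] at q2 ⊢
          split_ifs
          · have : -((0 - 1) / x (s e) - (1 - 0) / x i) = 1 / x i + 1 / x (s e) := by ring
            rw [this]; linarith
          · have : -((0 - 0) / x (s e) - (1 - 0) / x i) = 1 / x i := by ring
            rw [this]
        · -- `t e = i`, `t e₀ = i`
          have a1 : ¬ s e₀ = t e := by rw [h1, ← h2]; exact hne
          have a2 : ¬ t e₀ = s e := by rw [h2, ← h1]; exact hne'.symm
          rw [if_neg a2, if_neg a1, if_pos (h2.trans h1.symm)]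
          refine le_trans ?_ (le_abs_self _)
          rw [h1] at q2 ⊢
          split_ifs
          · have : (1 - 0) / x (s e) - (0 - 1) / x i = 1 / x i + 1 / x (s e) := by ring
            rw [this]; linarith
          · have : (0 - 0) / x (s e) - (0 - 1) / x i = 1 / x i := by ring
            rw [this]
      have hw : wt s t α x e i / 2 ≤
          pr α (x (s e)) (x (t e)) * (1 - pr α (x (s e)) (x (t e))) := by
        rcases h1 with h1 | h1
        · have h3 : wt s t α x e i = pr α (x (s e)) (x (t e)) := by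
            rw [← h1, wt_left hst]
          have h4 : 1 / 2 ≤ pr α (x (t e)) (x (s e)) :=
            half_le_pr (by linarith) (hpos _) (hpos _).le (by rw [h1]; exact hmin' _)
          rw [← one_sub_pr (hpos _).le (hpos _).le (add_pos (hpos _) (hpos _))] at h4
          rw [h3]
          exact le_of_half (pr_nonneg (hpos _).le (hpos _).le) (by linarith)
        · have h3 : wt s t α x e i = pr α (x (t e)) (x (s e)) := by
            rw [← h1, wt_right hx.nonneg hst e (hx.edge_pos e)]
          have h4 : 1 / 2 ≤ pr α (x (s e)) (x (t e)) :=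
            half_le_pr (by linarith) (hpos _) (hpos _).le (by rw [h1]; exact hmin' _)
          rw [h3, ← one_sub_pr (hpos _).le (hpos _).le (add_pos (hpos _) (hpos _))]
          have h5 := le_of_half (w := 1 - pr α (x (s e)) (x (t e)))
            (by linarith [pr_le_one (α := α) (hpos (s e)).le (hpos (t e)).le]) (by linarith)
          linarith
      have hw0 := wt_nonneg (s := s) (t := t) (α := α) hx.nonneg e i
      calc α / (2 * Fintype.card E * (x i) ^ 2) * wt s t α x e i =
            (α / Fintype.card E * (wt s t α x e i / 2)) * (1 / x i) ^ 2 := by field_simp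
        _ ≤ ac s t α x e * (1 / x i) ^ 2 := by
            apply mul_le_mul_of_nonneg_right _ (by positivity)
            unfold ac
            exact mul_le_mul_of_nonneg_left hw (by positivity)
        _ ≤ _ := mul_le_mul_of_nonneg_left hsq hac
    · push Not at h1
      rw [wt_of_ne h1.1 h1.2, mul_zero]
      positivity
  have hsum : α / (2 * Fintype.card E * (x i) ^ 2) * PP s t α x i ≤
      ∑ e, ac s t α x e * ⟪gv s t x e, gv s t x e₀⟫ ^ 2 := by
    unfold PP
    rw [Finset.mul_sum]
    exact Finset.sum_le_sum fun e _ => hterm e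
  rw [hx.eq i] at hsum
  have h5 : α / (2 * Fintype.card E * (x i) ^ 2) * (Fintype.card E * x i) = α / (2 * x i) := by
    field_simp
  rw [h5] at hsum
  refine le_trans ?_ hsum
  calc α / 4 * ⟪gv s t x e₀, gv s t x e₀⟫ ≤ α / 4 * (2 / x i) :=
        mul_le_mul_of_nonneg_left hg1 (by linarith)
    _ = _ := by field_simp; ring

/-- The set-up of the one-step inequality at an interior equilibrium. -/
theorem exists_setup [Nonempty E] {s t : E → V} (hst : ∀ e, s e ≠ t e) {α : ℝ} (hα : 4 < α)
    {x : V → ℝ} (hx : IsEquil s t α x) (hpos : ∀ i, 0 < x i) :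
    ∃ κ G MA g0, 0 < κ ∧ Setup (gv s t x) (ac s t α x) (Aop s t x (ac s t α x) κ) κ G MA g0 ∧
      ∃ e₀, 0 < ⟪Aop s t x (ac s t α x) κ (gv s t x e₀), gv s t x e₀⟫ := by
  obtain ⟨κ, hκ0, hκ1, hker⟩ := exists_kappa s t x (ac s t α x)
    (show 0 < α / 4 - 1 by linarith)
  have hac := ac_nonneg (s := s) (t := t) (α := α) (by linarith) hx.nonneg
  obtain ⟨K, hK, hKA⟩ := LinearMap.exists_antilipschitzWith _ hker
  obtain ⟨G, hG⟩ : ∃ G, G = 1 + ∑ e, ‖gv s t x e‖ := ⟨_, rfl⟩
  have hG0 : 0 < G := by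
    rw [hG]
    have : 0 ≤ ∑ e, ‖gv s t x e‖ := Finset.sum_nonneg fun e _ => norm_nonneg _
    linarith
  have hGe : ∀ e, ‖gv s t x e‖ ≤ G := by
    intro e
    have := Finset.single_le_sum (f := fun e => ‖gv s t x e‖) (fun e _ => norm_nonneg _)
      (Finset.mem_univ e)
    rw [hG]; linarith
  have hMA : ∀ v, ‖Aop s t x (ac s t α x) κ v‖ ≤
      (∑ e, ac s t α x e * G ^ 2 + (1 + κ)) * ‖v‖ := by
    intro v
    rw [Aop_apply]
    refine (norm_sub_le _ _).trans ?_
    rw [add_mul]
    apply add_le_add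
    · refine (norm_sum_le _ _).trans ?_
      rw [Finset.sum_mul]
      refine Finset.sum_le_sum fun e _ => ?_
      rw [norm_smul, Real.norm_eq_abs, abs_mul, abs_of_nonneg (hac e)]
      have h1 := abs_real_inner_le_norm (gv s t x e) v
      have h2 := hGe e
      calc ac s t α x e * |⟪gv s t x e, v⟫| * ‖gv s t x e‖ ≤
            ac s t α x e * (G * ‖v‖) * G := by
            apply mul_le_mul _ h2 (norm_nonneg _) (by have := hac e; positivity)
            apply mul_le_mul_of_nonneg_left _ (hac e)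
            exact h1.trans (mul_le_mul_of_nonneg_right h2 (norm_nonneg _))
        _ = _ := by ring
    · rw [norm_smul, Real.norm_eq_abs, abs_of_pos (by linarith)]
  refine ⟨κ, G, ∑ e, ac s t α x e * G ^ 2 + (1 + κ), (K:ℝ)⁻¹, hκ0, ?_, ?_⟩
  · refine ⟨hGe, hG0, hac, hκ0.le, Aop_apply s t x _ κ, Aop_symm s t x _ κ, hMA, ?_, ?_, ?_⟩
    · have : 0 ≤ ∑ e, ac s t α x e * G ^ 2 :=
        Finset.sum_nonneg fun e _ => mul_nonneg (hac e) (by positivity)
      linarith
    · intro v
      have h1 := hKA.le_mul_dist v 0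
      rw [map_zero, dist_zero_right, dist_zero_right] at h1
      rw [inv_mul_le_iff₀ (by exact_mod_cast hK)]
      exact h1
    · exact inv_pos.mpr (by exact_mod_cast hK)
  · obtain ⟨e₀, he₀⟩ := exists_unstable hst hα hx hpos
    refine ⟨e₀, ?_⟩
    rw [Aop_apply, inner_sub_left, sum_inner, real_inner_smul_left]
    have h1 : ∑ e, ⟪(ac s t α x e * ⟪gv s t x e, gv s t x e₀⟫) • gv s t x e, gv s t x e₀⟫ =
        ∑ e, ac s t α x e * ⟪gv s t x e, gv s t x e₀⟫ ^ 2 := by
      refine Finset.sum_congr rfl fun e _ => ?_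
      rw [real_inner_smul_left]; ring
    rw [h1]
    have h2 : 0 < ⟪gv s t x e₀, gv s t x e₀⟫ := by
      rw [inner_gv_self hpos (hst e₀)]
      have a1 := hpos (s e₀)
      have a2 := hpos (t e₀)
      positivity
    nlinarith

end Linear

end Pool.Agent.MP_cd93fa_pr
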