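import Pool.Agent.MP_cd93fa_pr.OneStep

namespace Pool.Agent.MP_cd93fa_pr

open Finset Filter Topology
open scoped RealInnerProductSpace

section Marginals

variable {E : Type*} [Fintype E] [DecidableEq E]

lemma Ex_fst {ν : E → Bool × Bool → ℝ} {μ : E → Bool → ℝ}
    (h : ∀ e a, ∑ b, ν e (a, b) = μ e a) (φ : (E → Bool) → ℝ) :
    Ex ν (fun c => φ (fun e => (c e).1)) = Ex μ φ := by
  unfold Ex
  rw [← (Equiv.arrowProdEquivProdArrow E (fun _ => Bool) (fun _ => Bool)).symm.sum_comp]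
  rw [Fintype.sum_prod_type]
  refine Finset.sum_congr rfl fun c1 _ => ?_
  simp only [Equiv.arrowProdEquivProdArrow, Equiv.coe_fn_symm_mk]
  rw [← Finset.sum_mul]
  congr 1
  have h2 := Finset.prod_univ_sum (fun _ : E => (Finset.univ : Finset Bool))
    (fun e b => ν e (c1 e, b))
  rw [Fintype.piFinset_univ] at h2
  rw [← h2]
  exact Finset.prod_congr rfl fun e _ => h e (c1 e)

lemma Ex_snd {ν : E → Bool × Bool → ℝ} {μ : E → Bool → ℝ}
    (h : ∀ e b, ∑ a, ν e (a, b) = μ e b) (φ : (E → Bool) → ℝ) :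
    Ex ν (fun c => φ (fun e => (c e).2)) = Ex μ φ := by
  unfold Ex
  rw [← (Equiv.arrowProdEquivProdArrow E (fun _ => Bool) (fun _ => Bool)).symm.sum_comp]
  rw [Fintype.sum_prod_type, Finset.sum_comm]
  refine Finset.sum_congr rfl fun c2 _ => ?_
  simp only [Equiv.arrowProdEquivProdArrow, Equiv.coe_fn_symm_mk]
  rw [← Finset.sum_mul]
  congr 1
  have h2 := Finset.prod_univ_sum (fun _ : E => (Finset.univ : Finset Bool))
    (fun e a => ν e (a, c2 e))
  rw [Fintype.piFinset_univ] at h2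
  rw [← h2]
  exact Finset.prod_congr rfl fun e _ => h e (c2 e)

end Marginals

section Deriv

lemma hasStrictDerivAt_sg (z : ℝ) : HasStrictDerivAt sg (sg z * (1 - sg z)) z := by
  have h1 : HasStrictDerivAt (fun z : ℝ => 1 + Real.exp (-z)) (-Real.exp (-z)) z := by
    have := ((Real.hasStrictDerivAt_exp (-z)).comp z (hasStrictDerivAt_neg z)).const_add 1
    simpa [Function.comp_def] using this
  have h0 : (1 + Real.exp (-z)) ≠ 0 := by positivity
  have h2 := (hasStrictDerivAt_inv h0).comp z h1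
  have e1 : (Inv.inv ∘ fun z : ℝ => 1 + Real.exp (-z)) = sg := by
    funext z; simp [sg]
  have e2 : -((1 + Real.exp (-z)) ^ 2)⁻¹ * (-Real.exp (-z)) = sg z * (1 - sg z) := by
    unfold sg
    field_simp
    ring
  rw [e2, e1] at h2
  exact h2

variable {V : Type*} [Fintype V]

lemma pr_strict {α : ℝ} {x : V → ℝ} {i j : V} (hi : 0 < x i) (hj : 0 < x j) :
    HasStrictFDerivAt (fun y : V → ℝ => pr α (y i) (y j))
      ((pr α (x i) (x j) * (1 - pr α (x i) (x j))) •
        (α • ((x i)⁻¹ • (ContinuousLinearMap.proj i : (V → ℝ) →L[ℝ] ℝ)) -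
         α • ((x j)⁻¹ • (ContinuousLinearMap.proj j : (V → ℝ) →L[ℝ] ℝ)))) x := by
  have hproj : ∀ k, HasStrictFDerivAt (fun y : V → ℝ => y k)
      (ContinuousLinearMap.proj k : (V → ℝ) →L[ℝ] ℝ) x := fun k =>
    (ContinuousLinearMap.proj k : (V → ℝ) →L[ℝ] ℝ).hasStrictFDerivAt
  have hlog : ∀ k, 0 < x k → HasStrictFDerivAt (fun y : V → ℝ => Real.log (y k))
      ((x k)⁻¹ • (ContinuousLinearMap.proj k : (V → ℝ) →L[ℝ] ℝ)) x := fun k hk =>
    (hproj k).log hk.ne'
  have h1 := ((hlog i hi).const_smul α).sub ((hlog j hj).const_smul α)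
  have h2 := (hasStrictDerivAt_sg (α * Real.log (x i) - α * Real.log (x j))).comp_hasStrictFDerivAt
    x h1
  rw [← pr_eq_sg hi hj] at h2
  refine h2.congr_of_eventuallyEq ?_
  have ci : ∀ᶠ y : V → ℝ in 𝓝 x, 0 < y i :=
    (continuous_apply i).continuousAt.eventually (lt_mem_nhds hi)
  have cj : ∀ᶠ y : V → ℝ in 𝓝 x, 0 < y j :=
    (continuous_apply j).continuousAt.eventually (lt_mem_nhds hj)
  filter_upwards [ci, cj] with y h3 h4
  simp only [Function.comp_def, Pi.sub_apply, Pi.smul_apply, smul_eq_mul]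
  rw [pr_eq_sg h3 h4]

end Deriv

end Pool.Agent.MP_cd93fa_pr
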