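import Pool.Agent.MP_cd93fa_pr.Never
import Pool.Agent.MP_cd93fa_pr.FiniteEq
import Pool.Agent.MP_cd93fa_pr.Conv

namespace Pool.Agent.MP_cd93fa_pr

set_option linter.unusedSectionVars false

open Finset Filter Topology MeasureTheory
open scoped ProbabilityTheory

variable {V : Type*} [Fintype V] [DecidableEq V] {E : Type*} [Fintype E] [DecidableEq E]

section Det

variable {s t : E → V} {α : ℝ}

omit [DecidableEq E] in
lemma Phi_le [Nonempty E] (hα : 0 < α) {b : V → ℝ} (hb : ∀ i, 0 < b i) :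
    Phi s t α b ≤ Fintype.card E * (Real.log 2 / α) := by
  unfold Phi
  have hV : Nonempty V := ⟨s (Classical.arbitrary E)⟩
  have hS : 0 < ∑ i, b i := Finset.sum_pos (fun i _ => hb i) Finset.univ_nonempty
  have hle : ∀ i, b i ≤ ∑ i, b i := fun i =>
    Finset.single_le_sum (f := b) (fun j _ => (hb j).le) (Finset.mem_univ i)
  have h1 : ∀ e, (1 / α) * Real.log (b (s e) ^ α + b (t e) ^ α) ≤
      Real.log 2 / α + Real.log (∑ i, b i) := by
    intro e
    have h2 : b (s e) ^ α + b (t e) ^ α ≤ 2 * (∑ i, b i) ^ α := by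
      have e1 := Real.rpow_le_rpow (hb (s e)).le (hle (s e)) hα.le
      have e2 := Real.rpow_le_rpow (hb (t e)).le (hle (t e)) hα.le
      linarith
    have h3 : 0 < b (s e) ^ α + b (t e) ^ α :=
      add_pos (Real.rpow_pos_of_pos (hb _) _) (Real.rpow_pos_of_pos (hb _) _)
    have h4 := Real.log_le_log h3 h2
    rw [Real.log_mul (by norm_num) (Real.rpow_pos_of_pos hS _).ne', Real.log_rpow hS] at h4
    calc (1 / α) * Real.log (b (s e) ^ α + b (t e) ^ α) ≤
          (1 / α) * (Real.log 2 + α * Real.log (∑ i, b i)) :=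
          mul_le_mul_of_nonneg_left h4 (by positivity)
      _ = _ := by field_simp
  have h5 := Finset.sum_le_sum (s := Finset.univ) fun e _ => h1 e
  rw [Finset.sum_const, nsmul_eq_mul, Finset.card_univ] at h5
  linarith

/-- The squared drift. -/
noncomputable def FF (s t : E → V) (α : ℝ) (y : V → ℝ) : ℝ :=
  ∑ i, (PP s t α y i - Fintype.card E * y i) ^ 2

omit [DecidableEq E] in
lemma FF_nonneg (y : V → ℝ) : 0 ≤ FF s t α y := Finset.sum_nonneg fun _ _ => sq_nonneg _

omit [Fintype V] [DecidableEq E] in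
lemma PP_div {y : V → ℝ} (hy : ∀ i, 0 ≤ y i) {S : ℝ} (hS : 0 < S) (i : V) :
    PP s t α (fun i => y i / S) i = PP s t α y i := by
  unfold PP wt
  refine Finset.sum_congr rfl fun e _ => ?_
  rw [pr_shr (hy _) (hy _) hS]

/-- The compact set in which the shares live. -/
def KK (s t : E → V) (c : ℝ) : Set (V → ℝ) :=
  {y | (∀ i, 0 ≤ y i) ∧ ∑ i, y i = 1 ∧ ∀ e, c ≤ y (s e) + y (t e)}

omit [DecidableEq V] [Fintype E] [DecidableEq E] in
lemma KK_compact (s t : E → V) (c : ℝ) : IsCompact (KK s t c) := by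
  refine (isCompact_stdSimplex (𝕜 := ℝ) V).of_isClosed_subset ?_ ?_
  · have : KK s t c = (⋂ i, {y : V → ℝ | 0 ≤ y i}) ∩ {y | ∑ i, y i = 1} ∩
        ⋂ e, {y : V → ℝ | c ≤ y (s e) + y (t e)} := by
      ext y; simp [KK, and_assoc]
    rw [this]
    refine IsClosed.inter (IsClosed.inter (isClosed_iInter fun i => ?_) ?_)
      (isClosed_iInter fun e => ?_)
    · exact isClosed_le continuous_const (continuous_apply i)
    · exact isClosed_eq (continuous_finsetSum _ fun i _ => continuous_apply i) continuous_const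
    · exact isClosed_le continuous_const ((continuous_apply _).add (continuous_apply _))
  · intro y hy
    exact ⟨hy.1, hy.2.1⟩

lemma FF_continuousOn (hα : 0 < α) {c : ℝ} (hc : 0 < c) :
    ContinuousOn (FF s t α) (KK s t c) := by
  have hpr : ∀ e, ContinuousOn (fun y : V → ℝ => pr α (y (s e)) (y (t e))) (KK s t c) := by
    intro e
    unfold pr
    have h1 : ∀ i : V, ContinuousOn (fun y : V → ℝ => y i ^ α) (KK s t c) := fun i =>
      ((continuous_apply i).continuousOn).rpow_const fun y _ => Or.inr hα.le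
    refine (h1 _).div ((h1 _).add (h1 _)) fun y hy => ?_
    exact (pr_den_pos (hy.1 _) (hy.1 _) (lt_of_lt_of_le hc (hy.2.2 e))).ne'
  unfold FF PP wt
  refine continuousOn_finsetSum _ fun i _ => ContinuousOn.pow (ContinuousOn.sub
    (continuousOn_finsetSum _ fun e _ => ContinuousOn.add ?_ ?_) ?_) 2
  · split_ifs
    · exact hpr e
    · exact continuousOn_const
  · split_ifs
    · exact continuousOn_const.sub (hpr e)
    · exact continuousOn_const
  · exact (continuous_const.mul (continuous_apply i)).continuousOn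

lemma FF_zero_equil {c : ℝ} (hc : 0 < c) {y : V → ℝ} (hy : y ∈ KK s t c) (h : FF s t α y = 0) :
    IsEquil s t α y := by
  refine ⟨hy.1, hy.2.1, fun e => lt_of_lt_of_le hc (hy.2.2 e), fun i => ?_⟩
  have h1 := (Finset.sum_eq_zero_iff_of_nonneg (fun i _ => sq_nonneg _)).mp h i
    (Finset.mem_univ i)
  have h2 := pow_eq_zero_iff (two_ne_zero) |>.mp h1
  linarith

end Det

namespace IsUrn

variable {s t : E → V} {α : ℝ} {b₀ : V → ℕ} {Ω : Type*} {mΩ : MeasurableSpace Ω}
  {μ : Measure Ω} {ℱ : Filtration ℕ mΩ} {C : ℕ → Ω → E → Bool} {B : ℕ → Ω → V → ℕ}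

lemma sumB (h : IsUrn s t α b₀ μ ℱ C B) (n : ℕ) (ω : Ω) :
    ∑ i, B n ω i = ∑ i, b₀ i + n * Fintype.card E := by
  induction n with
  | zero => rw [h.init]; simp
  | succ n ih =>
    rw [h.step, Finset.sum_add_distrib, ih, sum_inc]
    ring

lemma pos (h : IsUrn s t α b₀ μ ℱ C B) (hb : ∀ i, 1 ≤ b₀ i) (n : ℕ) (ω : Ω) (i : V) :
    1 ≤ B n ω i := by
  induction n with
  | zero => rw [h.init]; exact hb i
  | succ n ih => rw [h.step]; exact ih.trans (Nat.le_add_right _ _)

lemma inc_edge (c : E → Bool) (e : E) :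
    1 ≤ inc s t c (s e) + inc s t c (t e) := by
  have h1 : ∀ i, (if dest s t c e = i then 1 else 0) ≤ inc s t c i := fun i =>
    Finset.single_le_sum (f := fun e => if dest s t c e = i then 1 else 0)
      (fun _ _ => Nat.zero_le _) (Finset.mem_univ e)
  have h2 := h1 (s e)
  have h3 := h1 (t e)
  unfold dest at h2 h3
  cases hc : c e
  · simp only [hc, Bool.false_eq_true, if_false, if_true] at h2 h3
    omega
  · simp only [hc, if_true] at h2 h3
    omega

lemma edgeB (h : IsUrn s t α b₀ μ ℱ C B) (hb : ∀ i, 1 ≤ b₀ i) (n : ℕ)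
    (ω : Ω) (e : E) : n + 2 ≤ B n ω (s e) + B n ω (t e) := by
  induction n with
  | zero =>
    rw [h.init]
    have := hb (s e)
    have := hb (t e)
    omega
  | succ n ih =>
    have h1 := inc_edge (s := s) (t := t) (C n ω) e
    have h2 : ∀ i, B (n + 1) ω i = B n ω i + inc s t (C n ω) i := fun i => by rw [h.step]
    rw [h2, h2]
    omega

lemma energy_step [IsProbabilityMeasure μ] [Nonempty E] (h : IsUrn s t α b₀ μ ℱ C B)
    (hst : ∀ e, s e ≠ t e) (hα : 1 ≤ α) (hb : ∀ i, 1 ≤ b₀ i) (n : ℕ) :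
    ∫ ω, FF s t α (shr E (∑ i, (b₀ i : ℝ)) n (B n ω)) / tot E (∑ i, (b₀ i : ℝ)) n ∂μ ≤
      ∫ ω, Phi s t α (fun i => (B (n + 1) ω i : ℝ)) ∂μ -
      ∫ ω, Phi s t α (fun i => (B n ω i : ℝ)) ∂μ +
      2 * α * (Fintype.card E) ^ 3 * (1 / ((n:ℝ) + 2) ^ 2) := by
  set N0 : ℝ := ∑ i, (b₀ i : ℝ) with hN0
  have hint1 := h.integrable (n + 1) (fun b => Phi s t α (fun i => (b i : ℝ)))
  have hint0 := h.integrable n (fun b => Phi s t α (fun i => (b i : ℝ)))
  have hintF := h.integrable n (fun b => FF s t α (shr E N0 n b) / tot E N0 n)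
  have hcond := h.condExp_next n (fun b => Phi s t α (fun i => (b i : ℝ)))
  have h1 : ∫ ω, Phi s t α (fun i => (B (n + 1) ω i : ℝ)) ∂μ =
      ∫ ω, Ex (ew s t α (fun i => (B n ω i : ℝ)))
        (fun c => Phi s t α (fun i => ((B n ω i + inc s t c i : ℕ) : ℝ))) ∂μ := by
    rw [← integral_condExp (ℱ.le n)]
    exact integral_congr_ae hcond
  rw [h1]
  have hintE := h.integrable n (fun b => Ex (ew s t α (fun i => (b i : ℝ)))
        (fun c => Phi s t α (fun i => ((b i + inc s t c i : ℕ) : ℝ))))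
  have hsumr : ∀ ω, ∑ i, (B n ω i : ℝ) = tot E N0 n := by
    intro ω
    have := h.sumB n ω
    unfold tot
    rw [hN0]
    exact_mod_cast this
  have hpt : ∀ ω, FF s t α (shr E N0 n (B n ω)) / tot E N0 n ≤
      Ex (ew s t α (fun i => (B n ω i : ℝ)))
        (fun c => Phi s t α (fun i => ((B n ω i + inc s t c i : ℕ) : ℝ))) -
      Phi s t α (fun i => (B n ω i : ℝ)) +
      2 * α * (Fintype.card E) ^ 3 * (1 / ((n:ℝ) + 2) ^ 2) := by
    intro ω
    have h2 := Phi_step (s := s) (t := t) (α := α) hst hα (b := fun i => (B n ω i : ℝ))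
      (fun i => by have := h.pos hb n ω i; exact_mod_cast this) (L := (n:ℝ) + 2) (by positivity)
      (fun e => by have := h.edgeB hb n ω e; exact_mod_cast this)
    rw [hsumr] at h2
    have hS : 0 < tot E N0 n := by
      rw [← hsumr ω]
      have hV : Nonempty V := ⟨s (Classical.arbitrary E)⟩
      exact Finset.sum_pos (fun i _ => by have := h.pos hb n ω i; exact_mod_cast this)
        Finset.univ_nonempty
    have h3 : FF s t α (shr E N0 n (B n ω)) = ∑ i, (PP s t α (fun i => (B n ω i : ℝ)) i -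
        Fintype.card E * ((B n ω i : ℝ) / tot E N0 n)) ^ 2 := by
      unfold FF shr
      refine Finset.sum_congr rfl fun i _ => ?_
      rw [PP_div (fun i => Nat.cast_nonneg _) hS]
    rw [h3]
    have h4 : 2 * α * (Fintype.card E : ℝ) ^ 3 / ((n:ℝ) + 2) ^ 2 =
        2 * α * (Fintype.card E) ^ 3 * (1 / ((n:ℝ) + 2) ^ 2) := by ring
    rw [h4] at h2
    push_cast
    linarith
  have hint : Integrable (fun ω => Ex (ew s t α (fun i => (B n ω i : ℝ)))
        (fun c => Phi s t α (fun i => ((B n ω i + inc s t c i : ℕ) : ℝ))) -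
      Phi s t α (fun i => (B n ω i : ℝ)) +
      2 * α * (Fintype.card E) ^ 3 * (1 / ((n:ℝ) + 2) ^ 2)) μ :=
    (hintE.sub hint0).add (integrable_const _)
  refine (integral_mono hintF hint hpt).trans (le_of_eq ?_)
  rw [integral_add (f := fun ω => Ex (ew s t α (fun i => (B n ω i : ℝ)))
        (fun c => Phi s t α (fun i => ((B n ω i + inc s t c i : ℕ) : ℝ))) -
      Phi s t α (fun i => (B n ω i : ℝ))) (hintE.sub hint0) (integrable_const _),
    integral_sub hintE hint0, integral_const]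
  simp

end IsUrn

end Pool.Agent.MP_cd93fa_pr
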