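import Pool.Agent.MP_cd93fa_pr.Local

namespace Pool.Agent.MP_cd93fa_pr

open Finset Filter Topology
open scoped RealInnerProductSpace

variable {V E : Type*} [Fintype V] [Fintype E]

lemma local_nbhd (s t : E → V) (α : ℝ) {x : V → ℝ} (hx : ∀ i, 0 < x i) {ε : ℝ} (hε : 0 < ε) :
    ∃ U ∈ 𝓝 x, (∀ y ∈ U, ∀ i, 0 < y i) ∧ (∀ y ∈ U, ∀ z ∈ U, ‖z - y‖ ≤ 1) ∧
      (∀ y ∈ U, ∀ z ∈ U, ∀ e, |(pr α (z (s e)) (z (t e)) - pr α (y (s e)) (y (t e))) -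
        pr α (x (s e)) (x (t e)) * (1 - pr α (x (s e)) (x (t e))) *
          (α * ((z - y) (s e) / x (s e) - (z - y) (t e) / x (t e)))| ≤ ε * ‖z - y‖) ∧
      ∃ ε₀ > 0, ∀ y ∈ U, ∀ e, ε₀ ≤ pr α (y (s e)) (y (t e)) ∧
        ε₀ ≤ 1 - pr α (y (s e)) (y (t e)) := by
  -- the derivative condition
  have h1 : ∀ᶠ p : (V → ℝ) × (V → ℝ) in 𝓝 x ×ˢ 𝓝 x,
      ∀ e, |(pr α (p.1 (s e)) (p.1 (t e)) - pr α (p.2 (s e)) (p.2 (t e))) -
        pr α (x (s e)) (x (t e)) * (1 - pr α (x (s e)) (x (t e))) *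
          (α * ((p.1 - p.2) (s e) / x (s e) - (p.1 - p.2) (t e) / x (t e)))| ≤
            ε * ‖p.1 - p.2‖ := by
    rw [eventually_all]
    intro e
    have h2 := (pr_strict (α := α) (hx (s e)) (hx (t e))).isLittleO.def hε
    rw [nhds_prod_eq] at h2
    refine h2.mono fun p hp => ?_
    rw [Real.norm_eq_abs] at hp
    refine le_trans (le_of_eq ?_) hp
    congr 1
    simp only [smul_eq_mul, _root_.smul_apply, _root_.sub_apply,
      ContinuousLinearMap.proj_apply]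
    ring
  obtain ⟨U1, hU1, hU1'⟩ := mem_prod_self_iff.mp h1
  have hpos : ∀ᶠ y : V → ℝ in 𝓝 x, ∀ i, 0 < y i := by
    rw [eventually_all]
    exact fun i => (continuous_apply i).continuousAt.eventually (lt_mem_nhds (hx i))
  have hp : ∀ e, 0 < pr α (x (s e)) (x (t e)) ∧ pr α (x (s e)) (x (t e)) < 1 := by
    intro e
    rw [pr_eq_sg (hx _) (hx _)]
    exact ⟨sg_pos _, sg_lt_one _⟩
  obtain ⟨ε₀, hε₀, hε₀pos⟩ : ∃ ε₀ : ℝ, (∀ e, ε₀ < pr α (x (s e)) (x (t e)) ∧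
      ε₀ < 1 - pr α (x (s e)) (x (t e))) ∧ 0 < ε₀ := by
    have h2 : ∀ᶠ ε₀ : ℝ in 𝓝[>] 0, ∀ e, ε₀ < pr α (x (s e)) (x (t e)) ∧
        ε₀ < 1 - pr α (x (s e)) (x (t e)) := by
      rw [eventually_all]
      intro e
      have a1 : ∀ᶠ ε₀ : ℝ in 𝓝[>] 0, ε₀ < pr α (x (s e)) (x (t e)) :=
        nhdsWithin_le_nhds (Iio_mem_nhds (hp e).1)
      have a2 : ∀ᶠ ε₀ : ℝ in 𝓝[>] 0, ε₀ < 1 - pr α (x (s e)) (x (t e)) :=
        nhdsWithin_le_nhds (Iio_mem_nhds (by linarith [(hp e).2]))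
      exact a1.and a2
    exact (h2.and self_mem_nhdsWithin).exists
  have hcont : ∀ᶠ y : V → ℝ in 𝓝 x, ∀ e, ε₀ < pr α (y (s e)) (y (t e)) ∧
      ε₀ < 1 - pr α (y (s e)) (y (t e)) := by
    rw [eventually_all]
    intro e
    have hc : ContinuousAt (fun y : V → ℝ => pr α (y (s e)) (y (t e))) x :=
      (pr_strict (α := α) (hx (s e)) (hx (t e))).hasFDerivAt.continuousAt
    exact (hc.eventually (lt_mem_nhds (hε₀ e).1)).and
      ((continuousAt_const.sub hc).eventually (lt_mem_nhds (hε₀ e).2))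
  refine ⟨U1 ∩ {y | ∀ i, 0 < y i} ∩ Metric.ball x (1 / 2) ∩ {y | ∀ e,
    ε₀ < pr α (y (s e)) (y (t e)) ∧ ε₀ < 1 - pr α (y (s e)) (y (t e))}, ?_, ?_, ?_, ?_, ε₀,
    hε₀pos, ?_⟩
  · exact inter_mem (inter_mem (inter_mem hU1 hpos) (Metric.ball_mem_nhds x (by norm_num))) hcont
  · exact fun y hy => hy.1.1.2
  · intro y hy z hz
    have h2 : dist y x < 1 / 2 := hy.1.2
    have h3 : dist z x < 1 / 2 := hz.1.2
    have h4 := dist_triangle_right z y x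
    rw [dist_eq_norm] at h4
    linarith
  · intro y hy z hz e
    exact hU1' (Set.mk_mem_prod hz.1.1.1 hy.1.1.1) e
  · intro y hy e
    exact ⟨(hy.2 e).1.le, (hy.2 e).2.le⟩

end Pool.Agent.MP_cd93fa_pr
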