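import Pool.Agent.MP_cd93fa_pr.Process

namespace Pool.Agent.MP_cd93fa_pr

open Finset Filter Topology MeasureTheory
open scoped ProbabilityTheory

variable {V : Type*} [Fintype V] [DecidableEq V] {E : Type*} [Fintype E] [DecidableEq E]

namespace IsUrn

variable {s t : E → V} {α : ℝ} {b₀ : V → ℕ} {Ω : Type*} {mΩ : MeasurableSpace Ω}
  {μ : Measure Ω} {ℱ : Filtration ℕ mΩ} {C : ℕ → Ω → E → Bool} {B : ℕ → Ω → V → ℕ}

/-- The event of staying in `U` from time `n` to time `n + k`. -/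
def stayEv (B : ℕ → Ω → V → ℕ) (E : Type*) [Fintype E] (N0 : ℝ) (U : Set (V → ℝ)) (k n : ℕ) :
    Set Ω :=
  {ω | ∀ j, j ≤ k → shr E N0 (n + j) (B (n + j) ω) ∈ U}

lemma stayEv_meas (h : IsUrn s t α b₀ μ ℱ C B) (N0 : ℝ) (U : Set (V → ℝ)) (k n : ℕ) :
    MeasurableSet (stayEv B E N0 U k n) := by
  have : stayEv B E N0 U k n = ⋂ j, ⋂ (_ : j ≤ k), {ω | B (n + j) ω ∈
      {b | shr E N0 (n + j) b ∈ U}} := by
    ext ω; simp [stayEv]
  rw [this]
  exact MeasurableSet.iInter fun j => MeasurableSet.iInter fun _ =>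
    ℱ.le (n + j) _ (h.measB (n + j) _)

lemma condExp_stay [IsProbabilityMeasure μ] (h : IsUrn s t α b₀ μ ℱ C B) (N0 : ℝ)
    (U : Set (V → ℝ)) (k n : ℕ) :
    μ[(stayEv B E N0 U k n).indicator (fun _ => (1:ℝ)) | ℱ n] =ᵐ[μ]
      fun ω => stay s t α N0 U k n (B n ω) := by
  classical
  induction k generalizing n with
  | zero =>
    have h1 : (stayEv B E N0 U 0 n).indicator (fun _ => (1:ℝ)) =
        fun ω => stay s t α N0 U 0 n (B n ω) := by
      funext ω
      simp [stayEv, stay, Set.indicator_apply]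
    rw [h1]
    rw [condExp_of_stronglyMeasurable (ℱ.le n) (h.strongMeas n _) (h.integrable n _)]
  | succ k ih =>
    set f : Ω → ℝ := fun ω => (fun b => if shr E N0 n b ∈ U then (1:ℝ) else 0) (B n ω) with hf
    set g : Ω → ℝ := (stayEv B E N0 U k (n + 1)).indicator (fun _ => (1:ℝ)) with hg
    have h1 : (stayEv B E N0 U (k + 1) n).indicator (fun _ => (1:ℝ)) = f * g := by
      funext ω
      simp only [hf, hg, Pi.mul_apply, Set.indicator_apply, stayEv, Set.mem_ofPred_eq]
      by_cases h2 : shr E N0 n (B n ω) ∈ U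
      · by_cases h3 : ∀ j, j ≤ k → shr E N0 (n + 1 + j) (B (n + 1 + j) ω) ∈ U
        · have h4 : ∀ j, j ≤ k + 1 → shr E N0 (n + j) (B (n + j) ω) ∈ U := by
            intro j hj
            rcases Nat.eq_zero_or_pos j with rfl | hj0
            · exact h2
            · have := h3 (j - 1) (by omega)
              rwa [show n + 1 + (j - 1) = n + j by omega] at this
          rw [if_pos h4, if_pos h2, if_pos h3, one_mul]
        · have h4 : ¬ ∀ j, j ≤ k + 1 → shr E N0 (n + j) (B (n + j) ω) ∈ U := by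
            intro h4
            apply h3
            intro j hj
            have := h4 (j + 1) (by omega)
            rwa [show n + (j + 1) = n + 1 + j by omega] at this
          rw [if_neg h4, if_neg h3, mul_zero]
      · have h4 : ¬ ∀ j, j ≤ k + 1 → shr E N0 (n + j) (B (n + j) ω) ∈ U := fun h4 =>
          h2 (h4 0 (by omega))
        rw [if_neg h4, if_neg h2, zero_mul]
    have hgint : Integrable g μ :=
      (integrable_const (1:ℝ)).indicator (h.stayEv_meas N0 U k (n + 1))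
    have hfgint : Integrable (f * g) μ := by
      rw [← h1]
      exact (integrable_const (1:ℝ)).indicator (h.stayEv_meas N0 U (k + 1) n)
    rw [h1]
    have h5 := condExp_mul_of_stronglyMeasurable_left (μ := μ) (m := ℱ n)
      (f := f) (g := g)
      (h.strongMeas n (fun b => if shr E N0 n b ∈ U then (1:ℝ) else 0)) hfgint hgint
    refine h5.trans ?_
    have h6 : μ[g | ℱ n] =ᵐ[μ] μ[μ[g | ℱ (n + 1)] | ℱ n] :=
      (condExp_condExp_of_le (ℱ.mono (Nat.le_succ n)) (ℱ.le (n + 1))).symm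
    have h7 : μ[μ[g | ℱ (n + 1)] | ℱ n] =ᵐ[μ]
        μ[fun ω => stay s t α N0 U k (n + 1) (B (n + 1) ω) | ℱ n] :=
      condExp_congr_ae (ih (n + 1))
    have h8 := h.condExp_next n (fun b => stay s t α N0 U k (n + 1) b)
    filter_upwards [h6, h7, h8] with ω e1 e2 e3
    rw [Pi.mul_apply, e1, e2, e3]
    simp only [hf, stay]
    split_ifs
    · rw [one_mul]
    · rw [zero_mul]

/-- The process does not stay forever near an interior equilibrium. -/
theorem never [IsProbabilityMeasure μ] [Nonempty E] (h : IsUrn s t α b₀ μ ℱ C B)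
    (hst : ∀ e, s e ≠ t e) (hα : 4 < α) {N0 : ℝ} (hN0 : 0 < N0) {x : V → ℝ}
    (hx : IsEquil s t α x) (hpos : ∀ i, 0 < x i) :
    ∃ U ∈ 𝓝 x, ∀ᵐ ω ∂μ, ∀ M, ∃ j, M ≤ j ∧ shr E N0 j (B j ω) ∉ U := by
  obtain ⟨U, hU, ε, hε, hstay⟩ := nonconv hst hα hN0 hx hpos
  refine ⟨U, hU, ?_⟩
  rw [ae_all_iff]
  intro M
  set A : Set Ω := {ω | ∀ j, M ≤ j → shr E N0 j (B j ω) ∈ U} with hA
  have hAeq : A = ⋂ j, ⋂ (_ : M ≤ j), {ω | B j ω ∈ {b | shr E N0 j b ∈ U}} := by
    ext ω; simp [hA]
  have hAmeas' : MeasurableSet[⨆ n, ℱ n] A := by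
    rw [hAeq]
    refine MeasurableSet.iInter fun j => MeasurableSet.iInter fun _ => ?_
    exact (le_iSup (fun n => (ℱ n : MeasurableSpace Ω)) j) _ (h.measB j _)
  have hAmeas : MeasurableSet A := (iSup_le fun n => ℱ.le n) _ hAmeas'
  have hint : Integrable (A.indicator (fun _ => (1:ℝ))) μ :=
    (integrable_const (1:ℝ)).indicator hAmeas
  have hlevy := hint.tendsto_ae_condExp (ℱ := ℱ)
    ((stronglyMeasurable_const (b := (1:ℝ))).indicator hAmeas')
  have hle : ∀ n, M ≤ n → ∀ k, μ[A.indicator (fun _ => (1:ℝ)) | ℱ n] ≤ᵐ[μ]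
      fun ω => stay s t α N0 U k n (B n ω) := by
    intro n hn k
    refine (condExp_mono hint ((integrable_const (1:ℝ)).indicator (h.stayEv_meas N0 U k n))
      (Eventually.of_forall fun ω => ?_)).trans (h.condExp_stay N0 U k n).le
    apply Set.indicator_le_indicator_of_subset _ (fun _ => zero_le_one)
    intro ω hω j _
    exact hω (n + j) (by omega)
  have hle' : ∀ᵐ ω ∂μ, ∀ n, M ≤ n → ∀ k, (μ[A.indicator (fun _ => (1:ℝ)) | ℱ n]) ω ≤
      stay s t α N0 U k n (B n ω) := by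
    rw [ae_all_iff]
    intro n
    by_cases hn : M ≤ n
    · have := ae_all_iff.mpr (hle n hn)
      filter_upwards [this] with ω hω _ k
      exact hω k
    · exact Eventually.of_forall fun ω h' => absurd h' hn
  filter_upwards [hlevy, hle'] with ω h1 h2
  by_contra hcon
  push Not at hcon
  have hωA : ω ∈ A := fun j hj => hcon j hj
  rw [Set.indicator_of_mem hωA] at h1
  have h3 : ∀ᶠ n in atTop, (μ[A.indicator (fun _ => (1:ℝ)) | ℱ n]) ω ≤ 1 - ε := by
    filter_upwards [eventually_ge_atTop M] with n hn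
    obtain ⟨k, hk⟩ := hstay n (B n ω)
    exact (h2 n hn k).trans hk
  have h4 := le_of_tendsto h1 h3
  linarith

end IsUrn

end Pool.Agent.MP_cd93fa_pr
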