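import Pool.Agent.MP_cd93fa_pr.Coupling

namespace Pool.Agent.MP_cd93fa_pr

open Finset Filter Topology
open scoped RealInnerProductSpace

variable {V : Type*} [Fintype V] [DecidableEq V] {E : Type*} [Fintype E] [DecidableEq E]
variable {s t : E → V} {α N0 : ℝ}

omit [DecidableEq E] in
lemma tendsto_tot [Nonempty E] (N0 : ℝ) : Tendsto (fun n : ℕ => tot E N0 n) atTop atTop := by
  unfold tot
  have hcard : (0:ℝ) < Fintype.card E := by exact_mod_cast Fintype.card_pos
  exact tendsto_const_nhds.add_atTop (tendsto_natCast_atTop_atTop.atTop_mul_const hcard)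

/-- Non-convergence to an interior equilibrium, in quantitative form: from every state the
probability of staying forever in a suitable neighbourhood is bounded away from one. -/
theorem nonconv [Nonempty E] (hst : ∀ e, s e ≠ t e) (hα : 4 < α) (hN0 : 0 < N0) {x : V → ℝ}
    (hx : IsEquil s t α x) (hpos : ∀ i, 0 < x i) :
    ∃ U ∈ 𝓝 x, ∃ ε > 0, ∀ (n : ℕ) (b : V → ℕ), ∃ k, stay s t α N0 U k n b ≤ 1 - ε := by
  classical
  obtain ⟨κ, G, MA, g0, hκ, S, e₀, he₀⟩ := exists_setup hst hα hx hpos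
  obtain ⟨ε₂, hε₂, σ, hσ, hone⟩ := one_step S
  have hcard : (0:ℝ) < Fintype.card E := by exact_mod_cast Fintype.card_pos
  obtain ⟨U, hU, -, hU1, hU2, ε₀, hε₀, hU3⟩ := local_nbhd s t α hpos
    (ε := ε₂ * Fintype.card E) (by positivity)
  have hx1 : ∀ i, x i ≤ 1 := by
    intro k
    rw [← hx.sum_one]
    exact Finset.single_le_sum (f := x) (fun k _ => hx.nonneg k) (Finset.mem_univ k)
  set A := Aop s t x (ac s t α x) κ with hA
  set g := gv s t x e₀ with hg
  set q := ⟪A g, g⟫ with hq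
  have hg0 : 0 < ‖g‖ := by
    rw [norm_pos_iff]
    intro h
    rw [hq, h] at he₀
    simp at he₀
  -- the number of forced steps
  obtain ⟨d, hd1, hd2, hd3⟩ : ∃ d : ℕ, 0 < d ∧ ‖g‖ ≤ σ * (d * q) ∧
      ‖g‖ ^ 2 / (d ^ 2 * q ^ 2) * (1 / σ ^ 2) ≤ 1 / 4 := by
    obtain ⟨d, hd⟩ := exists_nat_gt (2 * ‖g‖ / (σ * q))
    have hd0 : (0:ℝ) < d := lt_of_le_of_lt (by positivity) hd
    rw [div_lt_iff₀ (by positivity)] at hd
    have h1 : 2 * ‖g‖ ≤ σ * (d * q) := by linarith
    refine ⟨d, by exact_mod_cast hd0, by linarith, ?_⟩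
    rw [div_mul_div_comm, div_le_div_iff₀ (by positivity) (by norm_num)]
    have h2 : (2 * ‖g‖) ^ 2 ≤ (σ * (d * q)) ^ 2 := pow_le_pow_left₀ (by positivity) h1 2
    linarith [h2]
  have hε₁ : min ε₀ 1 ≤ 1 := min_le_right _ _
  have hε₀' : 0 < min ε₀ 1 := lt_min hε₀ one_pos
  have hU3' : ∀ y ∈ U, ∀ e, min ε₀ 1 ≤ pr α (y (s e)) (y (t e)) ∧
      min ε₀ 1 ≤ 1 - pr α (y (s e)) (y (t e)) := fun y hy e =>
    ⟨(min_le_left _ _).trans (hU3 y hy e).1, (min_le_left _ _).trans (hU3 y hy e).2⟩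
  set η : ℝ := (min ε₀ 1 ^ Fintype.card E) ^ d with hη
  have hη0 : 0 < η := by positivity
  refine ⟨U, hU, η / 4, by positivity, ?_⟩
  intro n b
  -- two competing choices
  set c1 : E → Bool := fun _ => true with hc1
  set c2 : E → Bool := fun e => if e = e₀ then false else true with hc2
  set b1 : V → ℕ := fun i => b i + d * inc s t c1 i with hb1
  set b2 : V → ℕ := fun i => b i + d * inc s t c2 i with hb2
  have hdiff : dv x b2 b1 = (d : ℝ) • g := by
    unfold dv
    rw [hg, gv, ← io_smul]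
    congr 1
    funext i
    simp only [Pi.smul_apply, smul_eq_mul, hb1, hb2]
    push_cast
    have h1 : (inc s t c1 i : ℝ) - inc s t c2 i =
        (if s e₀ = i then 1 else 0) - (if t e₀ = i then 1 else 0) := by
      unfold inc
      push_cast
      rw [← Finset.sum_sub_distrib]
      rw [← Finset.sum_erase_add Finset.univ _ (Finset.mem_univ e₀)]
      have h2 : ∑ e ∈ Finset.univ.erase e₀, ((if dest s t c1 e = i then (1:ℝ) else 0) -
          (if dest s t c2 e = i then 1 else 0)) = 0 := by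
        refine Finset.sum_eq_zero fun e he => ?_
        have hne := Finset.ne_of_mem_erase he
        simp [dest, hc1, hc2, hne]
      rw [h2, zero_add]
      simp [dest, hc1, hc2]
    rw [← h1]; ring
  have hdpos : (0:ℝ) < d := by exact_mod_cast hd1
  have hqd : ⟪A (dv x b2 b1), dv x b2 b1⟫ = d ^ 2 * q := by
    rw [hdiff, map_smul, real_inner_smul_left, real_inner_smul_right]; ring
  have hnd : ‖dv x b2 b1‖ = d * ‖g‖ := by
    rw [hdiff, norm_smul, Real.norm_eq_abs, abs_of_pos hdpos]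
  have hff : ff A (dv x b2 b1) = ‖g‖ ^ 2 / (d ^ 2 * q ^ 2) := by
    unfold ff
    rw [hqd, hnd]
    field_simp
  -- choose the horizon
  obtain ⟨F, hF⟩ : ∃ F, F = ff A (dv x b2 b1) := ⟨_, rfl⟩
  have hlim : Tendsto (fun k : ℕ => F * (MA ^ 2 * (∑ i, 1 / x i) * (tot E N0 (n + d + k)) ^ 2 /
      (tot E N0 (n + d + k)) ^ (2 * (1 + κ)) * (tot E N0 (n + d)) ^ (2 * (1 + κ))))
      atTop (𝓝 0) := by
    have h1 : Tendsto (fun k : ℕ => tot E N0 (n + d + k)) atTop atTop :=
      (tendsto_tot N0).comp (tendsto_atTop_mono (fun k => by simp only [id]; omega) tendsto_id)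
    have h2 : Tendsto (fun k : ℕ => (tot E N0 (n + d + k)) ^ (-(2 * κ))) atTop (𝓝 0) :=
      (tendsto_rpow_neg_atTop (show 0 < 2 * κ by positivity)).comp h1
    have h3 := h2.const_mul (F * (MA ^ 2 * (∑ i, 1 / x i) *
      (tot E N0 (n + d)) ^ (2 * (1 + κ))))
    rw [mul_zero] at h3
    refine h3.congr fun k => ?_
    have hT := tot_pos (E := E) hN0 (n + d + k)
    have h4 : (tot E N0 (n + d + k)) ^ 2 / (tot E N0 (n + d + k)) ^ (2 * (1 + κ)) =
        (tot E N0 (n + d + k)) ^ (-(2 * κ)) := by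
      rw [← Real.rpow_natCast, ← Real.rpow_sub hT]
      congr 1
      push_cast; ring
    rw [← h4]; ring
  obtain ⟨k, hk⟩ := (hlim.eventually_lt_const (show (0:ℝ) < 1 / 4 by norm_num)).exists
  refine ⟨k + d, ?_⟩
  have hcoup := coupling (U := U) hN0 hpos hx1 S hσ hε₂.le hone hU1 hU2 k (n + d) b2 b1
    (by rw [← hA, hqd]; positivity)
    (by
      rw [← hA, hqd, hnd]
      calc (d:ℝ) * ‖g‖ ≤ d * (σ * (d * q)) := mul_le_mul_of_nonneg_left hd2 hdpos.le
        _ = _ := by ring)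
  rw [← hA, ← hF, mul_add] at hcoup
  have h1 : F * (1 / σ ^ 2) ≤ 1 / 4 := by rw [hF, hff]; exact hd3
  have h2 := stay_steps_lb hε₀' hε₁ hN0 hU3' d k n b c1
  have h3 := stay_steps_lb hε₀' hε₁ hN0 hU3' d k n b c2
  rw [← hη] at h2 h3
  have h4 : η * (1 / 2) ≤ η * ((1 - stay s t α N0 U k (n + d) b1) +
      (1 - stay s t α N0 U k (n + d) b2)) := by
    apply mul_le_mul_of_nonneg_left _ hη0.le
    linarith
  have h5 : η * ((1 - stay s t α N0 U k (n + d) b1) +
      (1 - stay s t α N0 U k (n + d) b2)) ≤ 2 * (1 - stay s t α N0 U (k + d) n b) := by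
    rw [mul_add]; linarith
  linarith

end Pool.Agent.MP_cd93fa_pr
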