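import Pool.Agent.MP_cd93fa_pr.Expect

namespace Pool.Agent.MP_cd93fa_pr

open Finset
open scoped RealInnerProductSpace

/-- Difference of two choices. -/
noncomputable def rr (ab : Bool × Bool) : ℝ := (if ab.2 then 1 else 0) - (if ab.1 then 1 else 0)

/-- The maximal coupling of two Bernoulli variables. -/
noncomputable def cw (p p' : ℝ) (ab : Bool × Bool) : ℝ :=
  if ab.1 then (if ab.2 then min p p' else p - min p p')
  else (if ab.2 then p' - min p p' else 1 - max p p')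

lemma cw_nonneg {p p' : ℝ} (hp : 0 ≤ p) (hp1 : p ≤ 1) (hp' : 0 ≤ p') (hp1' : p' ≤ 1)
    (ab : Bool × Bool) : 0 ≤ cw p p' ab := by
  unfold cw
  split_ifs
  · exact le_min hp hp'
  · linarith [min_le_left p p']
  · linarith [min_le_right p p']
  · linarith [max_le hp1 hp1']

lemma sum_bb (φ : Bool × Bool → ℝ) : ∑ ab, φ ab = φ (true, true) + φ (true, false) +
    (φ (false, true) + φ (false, false)) := by
  rw [Fintype.sum_prod_type]
  simp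

lemma cw_sum (p p' : ℝ) : ∑ ab, cw p p' ab = 1 := by
  rw [sum_bb]
  simp only [cw]
  simp only [if_true, Bool.false_eq_true, if_false]
  linarith [min_add_max p p']

lemma cw_rr (p p' : ℝ) : ∑ ab, cw p p' ab * rr ab = p' - p := by
  rw [sum_bb]
  simp only [cw, rr]
  simp only [if_true, Bool.false_eq_true, if_false]
  ring

lemma cw_abs_rr (p p' : ℝ) : ∑ ab, cw p p' ab * |rr ab| = |p' - p| := by
  rw [sum_bb]
  simp only [cw, rr]
  simp only [if_true, Bool.false_eq_true, if_false]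
  rcases le_total p p' with h | h
  · rw [min_eq_left h, max_eq_right h, abs_of_nonneg (by linarith : 0 ≤ p' - p)]
    norm_num
  · rw [min_eq_right h, max_eq_left h, abs_of_nonpos (by linarith : p' - p ≤ 0)]
    norm_num

/-- First marginal of the coupling. -/
lemma cw_fst (p p' : ℝ) (a : Bool) : ∑ b, cw p p' (a, b) = if a then p else 1 - p := by
  cases a
  · simp only [Fintype.sum_bool, cw, if_true, Bool.false_eq_true, if_false]
    linarith [min_add_max p p']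
  · simp only [Fintype.sum_bool, cw, if_true, Bool.false_eq_true, if_false]
    ring

/-- Second marginal of the coupling. -/
lemma cw_snd (p p' : ℝ) (b : Bool) : ∑ a, cw p p' (a, b) = if b then p' else 1 - p' := by
  cases b
  · simp only [Fintype.sum_bool, cw, if_true, Bool.false_eq_true, if_false]
    linarith [min_add_max p p']
  · simp only [Fintype.sum_bool, cw, if_true, Bool.false_eq_true, if_false]
    ring

lemma ratio_bound {x y : ℝ} (hx : |x| ≤ 1) (hy : |y| ≤ 1 / 2) :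
    (1 + x) / (1 + y) ^ 2 ≤ 1 + x - 2 * y + x ^ 2 + 33 * y ^ 2 := by
  obtain ⟨hx1, hx2⟩ := abs_le.mp hx
  obtain ⟨hy1, hy2⟩ := abs_le.mp hy
  have h1 : 1 / (1 + y) ^ 2 ≤ 1 - 2 * y + 16 * y ^ 2 := by
    have h0 : 0 < (1 + y) ^ 2 := by nlinarith
    rw [div_le_iff₀ h0]
    -- (1 - 2y + 16y²)(1 + 2y + y²) = 1 + 13 y² + 30 y³ + 16 y⁴
    have : (1 - 2 * y + 16 * y ^ 2) * (1 + y) ^ 2 = 1 + y ^ 2 * (13 + 30 * y + 16 * y ^ 2) := by
      ring
    rw [this]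
    have h2 : 0 ≤ 13 + 30 * y + 16 * y ^ 2 := by nlinarith [sq_nonneg (y + 1 / 2)]
    nlinarith [mul_nonneg (sq_nonneg y) h2]
  have h2 : (1 + x) / (1 + y) ^ 2 = (1 + x) * (1 / (1 + y) ^ 2) := by ring
  rw [h2]
  have h3 := mul_le_mul_of_nonneg_left h1 (by linarith : 0 ≤ 1 + x)
  refine h3.trans ?_
  nlinarith [sq_nonneg (x + y), mul_nonneg (by linarith : 0 ≤ 1 - x) (sq_nonneg y)]


lemma real_pointwise {n b q d R i1 i2 i3 nA G N MA σ : ℝ} (hn : 0 < n) (hq : 0 < q)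
    (hMA0 : 0 < MA) (hG0 : 0 < G) (hσ : 0 < σ) (hd : 0 ≤ d) (hR0 : 0 ≤ R) (hRN : R ≤ N)
    (hbMA : b ≤ MA * n) (hqb : q ≤ b * n) (hΔ : d ≤ G * R) (e1' : |i1| ≤ n * d)
    (e2' : |i2| ≤ b * d) (e3' : |i3| ≤ nA * d) (e4 : nA ≤ MA * d) (hgood : n ≤ σ * q)
    (h1 : σ * MA * (3 * G * N) ≤ 1) (h2 : 3 * MA * G * N * σ ≤ 1 / 2) :
    0 < q + (2 * i2 + i3) ∧ (n ^ 2 + (2 * i1 + d ^ 2)) / (q + (2 * i2 + i3)) ^ 2 ≤
      n ^ 2 / q ^ 2 * (1 + (2 / n ^ 2) * i1 - (4 / q) * i2 +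
        (G ^ 2 * N * (10 / n ^ 2 + 2 * MA / q + 297 * MA ^ 2 * n ^ 2 / q ^ 2)) * R) := by
  have hN0 : 0 ≤ N := hR0.trans hRN
  have hGR0 : 0 ≤ G * R := by positivity
  have hGN0 : 0 ≤ G * N := by positivity
  have hGRN : G * R ≤ G * N := mul_le_mul_of_nonneg_left hRN hG0.le
  -- lower bound on `n`
  have hn1 : 1 ≤ σ * MA * n := by
    have h3 : n ≤ σ * (MA * n * n) := by
      refine hgood.trans (mul_le_mul_of_nonneg_left (hqb.trans ?_) hσ.le)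
      exact mul_le_mul_of_nonneg_right hbMA hn.le
    have h4 : n * 1 ≤ n * (σ * MA * n) := by
      calc n * 1 = n := mul_one n
        _ ≤ σ * (MA * n * n) := h3
        _ = _ := by ring
    exact le_of_mul_le_mul_left h4 hn
  have hn3 : 3 * (G * N) ≤ n := by
    have h3 : 3 * (G * N) * 1 ≤ 3 * (G * N) * (σ * MA * n) :=
      mul_le_mul_of_nonneg_left hn1 (by positivity)
    have h4 : 3 * (G * N) * (σ * MA * n) = σ * MA * (3 * G * N) * n := by ring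
    have h5 : σ * MA * (3 * G * N) * n ≤ 1 * n := mul_le_mul_of_nonneg_right h1 hn.le
    linarith
  have hGRn : 3 * (G * R) ≤ n := by linarith
  have hd2 : d ^ 2 ≤ (G * R) ^ 2 := pow_le_pow_left₀ hd hΔ 2
  have hR2 : (G * R) ^ 2 ≤ G ^ 2 * N * R := by
    have : R * R ≤ N * R := mul_le_mul_of_nonneg_right hRN hR0
    calc (G * R) ^ 2 = G ^ 2 * (R * R) := by ring
      _ ≤ G ^ 2 * (N * R) := mul_le_mul_of_nonneg_left this (by positivity)
      _ = _ := by ring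
  have hi1 : |i1| ≤ n * (G * R) := e1'.trans (mul_le_mul_of_nonneg_left hΔ hn.le)
  have hi2 : |i2| ≤ MA * n * (G * R) := by
    calc |i2| ≤ b * d := e2'
      _ ≤ MA * n * d := mul_le_mul_of_nonneg_right hbMA hd
      _ ≤ _ := mul_le_mul_of_nonneg_left hΔ (by positivity)
  have hi3 : |i3| ≤ MA * (G * R) ^ 2 := by
    calc |i3| ≤ nA * d := e3'
      _ ≤ MA * d * d := mul_le_mul_of_nonneg_right e4 hd
      _ = MA * d ^ 2 := by ring
      _ ≤ _ := mul_le_mul_of_nonneg_left hd2 hMA0.le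
  have hGR2 : (G * R) ^ 2 ≤ n * (G * R) := by
    calc (G * R) ^ 2 = (G * R) * (G * R) := by ring
      _ ≤ n * (G * R) := mul_le_mul_of_nonneg_right (by linarith) hGR0
  have hY : |2 * i2 + i3| ≤ 3 * (MA * n * (G * R)) := by
    calc |2 * i2 + i3| ≤ |2 * i2| + |i3| := abs_add_le _ _
      _ = 2 * |i2| + |i3| := by rw [abs_mul, abs_two]
      _ ≤ 2 * (MA * n * (G * R)) + MA * (n * (G * R)) := by
          have := mul_le_mul_of_nonneg_left hGR2 hMA0.le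
          linarith
      _ = _ := by ring
  have hX : |2 * i1 + d ^ 2| ≤ 3 * (n * (G * R)) := by
    calc |2 * i1 + d ^ 2| ≤ |2 * i1| + |d ^ 2| := abs_add_le _ _
      _ = 2 * |i1| + d ^ 2 := by rw [abs_mul, abs_two, abs_of_nonneg (sq_nonneg d)]
      _ ≤ _ := by linarith
  obtain ⟨x, hx⟩ : ∃ x, x = (2 * i1 + d ^ 2) / n ^ 2 := ⟨_, rfl⟩
  obtain ⟨y, hy⟩ : ∃ y, y = (2 * i2 + i3) / q := ⟨_, rfl⟩
  have hxa : |x| ≤ 3 * (G * R) / n := by
    rw [hx, abs_div, abs_of_pos (by positivity : 0 < n ^ 2), div_le_div_iff₀ (by positivity) hn]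
    calc |2 * i1 + d ^ 2| * n ≤ 3 * (n * (G * R)) * n := mul_le_mul_of_nonneg_right hX hn.le
      _ = _ := by ring
  have hya : |y| ≤ 3 * (MA * n * (G * R)) / q := by
    rw [hy, abs_div, abs_of_pos hq]
    exact div_le_div_of_nonneg_right hY hq.le
  have hx1 : |x| ≤ 1 := by
    refine hxa.trans ?_
    rw [div_le_one hn]
    exact hGRn
  have hy1 : |y| ≤ 1 / 2 := by
    refine hya.trans ?_
    rw [div_le_iff₀ hq]
    calc 3 * (MA * n * (G * R)) = 3 * MA * (G * R) * n := by ring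
      _ ≤ 3 * MA * (G * R) * (σ * q) := mul_le_mul_of_nonneg_left hgood (by positivity)
      _ ≤ 3 * MA * (G * N) * (σ * q) := by
          apply mul_le_mul_of_nonneg_right _ (by positivity)
          exact mul_le_mul_of_nonneg_left hGRN (by positivity)
      _ = 3 * MA * G * N * σ * q := by ring
      _ ≤ 1 / 2 * q := mul_le_mul_of_nonneg_right h2 hq.le
  have hqy : q + (2 * i2 + i3) = q * (1 + y) := by rw [hy]; field_simp
  have hnx : n ^ 2 + (2 * i1 + d ^ 2) = n ^ 2 * (1 + x) := by rw [hx]; field_simp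
  have hy' := abs_le.mp hy1
  refine ⟨by rw [hqy]; exact mul_pos hq (by linarith [hy'.1]), ?_⟩
  rw [hqy, hnx]
  have h3 : n ^ 2 * (1 + x) / (q * (1 + y)) ^ 2 = n ^ 2 / q ^ 2 * ((1 + x) / (1 + y) ^ 2) := by
    have : 1 + y ≠ 0 := by linarith [hy'.1]
    field_simp
  rw [h3]
  apply mul_le_mul_of_nonneg_left _ (by positivity)
  refine (ratio_bound hx1 hy1).trans ?_
  have b1 : x ≤ (2 / n ^ 2) * i1 + G ^ 2 * N * (1 / n ^ 2) * R := by
    have : x = (2 / n ^ 2) * i1 + d ^ 2 * (1 / n ^ 2) := by rw [hx]; ring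
    rw [this]
    have h5 : d ^ 2 * (1 / n ^ 2) ≤ (G ^ 2 * N * R) * (1 / n ^ 2) :=
      mul_le_mul_of_nonneg_right (hd2.trans hR2) (by positivity)
    have h6 : (G ^ 2 * N * R) * (1 / n ^ 2) = G ^ 2 * N * (1 / n ^ 2) * R := by ring
    linarith
  have b2 : -2 * y ≤ -(4 / q) * i2 + G ^ 2 * N * (2 * MA / q) * R := by
    have : -2 * y = -(4 / q) * i2 + (-i3) * (2 / q) := by rw [hy]; ring
    rw [this]
    have h4 : -i3 ≤ MA * (G ^ 2 * N * R) :=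
      (neg_le_abs i3).trans (hi3.trans (mul_le_mul_of_nonneg_left hR2 hMA0.le))
    have h5 : (-i3) * (2 / q) ≤ MA * (G ^ 2 * N * R) * (2 / q) :=
      mul_le_mul_of_nonneg_right h4 (by positivity)
    have h6 : MA * (G ^ 2 * N * R) * (2 / q) = G ^ 2 * N * (2 * MA / q) * R := by ring
    linarith
  have b3 : x ^ 2 ≤ G ^ 2 * N * (9 / n ^ 2) * R := by
    rw [← sq_abs x]
    calc |x| ^ 2 ≤ (3 * (G * R) / n) ^ 2 := pow_le_pow_left₀ (abs_nonneg _) hxa 2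
      _ = (9 / n ^ 2) * (G * R) ^ 2 := by ring
      _ ≤ (9 / n ^ 2) * (G ^ 2 * N * R) := mul_le_mul_of_nonneg_left hR2 (by positivity)
      _ = _ := by ring
  have b4 : 33 * y ^ 2 ≤ G ^ 2 * N * (297 * MA ^ 2 * n ^ 2 / q ^ 2) * R := by
    rw [← sq_abs y]
    calc 33 * |y| ^ 2 ≤ 33 * (3 * (MA * n * (G * R)) / q) ^ 2 := by
          apply mul_le_mul_of_nonneg_left _ (by norm_num)
          exact pow_le_pow_left₀ (abs_nonneg _) hya 2
      _ = (297 * MA ^ 2 * n ^ 2 / q ^ 2) * (G * R) ^ 2 := by ring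
      _ ≤ (297 * MA ^ 2 * n ^ 2 / q ^ 2) * (G ^ 2 * N * R) :=
          mul_le_mul_of_nonneg_left hR2 (by positivity)
      _ = _ := by ring
  calc 1 + x - 2 * y + x ^ 2 + 33 * y ^ 2 = 1 + x + (-2 * y) + x ^ 2 + 33 * y ^ 2 := by ring
    _ ≤ 1 + ((2 / n ^ 2) * i1 + G ^ 2 * N * (1 / n ^ 2) * R) +
        (-(4 / q) * i2 + G ^ 2 * N * (2 * MA / q) * R) + G ^ 2 * N * (9 / n ^ 2) * R +
        G ^ 2 * N * (297 * MA ^ 2 * n ^ 2 / q ^ 2) * R := by linarith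
    _ = _ := by ring

lemma real_final {n b q δ G N MA g0 κ ε σ K1 s1 s2 s3 : ℝ} (hn : 0 < n) (hq : 0 < q)
    (hMA0 : 0 < MA) (hG0 : 0 < G) (hN0 : 0 ≤ N) (hσ : 0 < σ) (hδ : 0 < δ) (hε : 0 < ε)
    (hg0 : 0 < g0) (hK1 : 0 ≤ K1)
    (hbMA : b ≤ MA * n) (hqb : q ≤ b * n) (hbg : g0 * n ≤ b) (hgood : n ≤ σ * q)
    (hs1 : s1 ≤ δ * (q + (1 + κ) * n ^ 2) + δ * (ε * (N * G)) * n ^ 2)
    (hs2 : δ * (b ^ 2 + (1 + κ) * q) - δ * (ε * (N * G)) * (n * b) ≤ s2)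
    (hs3 : s3 ≤ δ * (n * K1))
    (hε1 : 6 * (ε * (N * G)) ≤ g0)
    (hσ1 : σ * (G ^ 2 * N * K1 * (12 * MA + 297 * MA ^ 2 / g0)) ≤ g0) :
    (2 / n ^ 2) * s1 - (4 / q) * s2 +
      (G ^ 2 * N * (10 / n ^ 2 + 2 * MA / q + 297 * MA ^ 2 * n ^ 2 / q ^ 2)) * s3 ≤
      -(2 * (1 + κ) * δ) := by
  have hb : 0 < b := lt_of_lt_of_le (by positivity) hbg
  obtain ⟨ρ, hρ⟩ : ∃ ρ, ρ = n * b / q := ⟨_, rfl⟩
  obtain ⟨K2, hK2⟩ : ∃ K2, K2 = G ^ 2 * N * K1 := ⟨_, rfl⟩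
  have hK20 : 0 ≤ K2 := by rw [hK2]; positivity
  have hρ1 : 1 ≤ ρ := by
    rw [hρ, le_div_iff₀ hq]; linarith
  have t1 : (2 / n ^ 2) * s1 ≤ δ * (2 * (q / n ^ 2) + 2 * (1 + κ) + 2 * (ε * (N * G))) := by
    calc (2 / n ^ 2) * s1 ≤ (2 / n ^ 2) *
          (δ * (q + (1 + κ) * n ^ 2) + δ * (ε * (N * G)) * n ^ 2) :=
          mul_le_mul_of_nonneg_left hs1 (by positivity)
      _ = _ := by field_simp
  have t2 : -((4 / q) * s2) ≤
      δ * (-4 * (b ^ 2 / q) - 4 * (1 + κ) + 4 * (ε * (N * G)) * ρ) := by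
    calc -((4 / q) * s2) ≤ -((4 / q) *
          (δ * (b ^ 2 + (1 + κ) * q) - δ * (ε * (N * G)) * (n * b))) :=
          neg_le_neg (mul_le_mul_of_nonneg_left hs2 (by positivity))
      _ = _ := by rw [hρ]; field_simp; ring
  have t3 : (G ^ 2 * N * (10 / n ^ 2 + 2 * MA / q + 297 * MA ^ 2 * n ^ 2 / q ^ 2)) * s3 ≤
      δ * (K2 * (10 * (1 / n) + 2 * MA * (n / q) + 297 * MA ^ 2 * (n ^ 3 / q ^ 2))) := by
    calc _ ≤ (G ^ 2 * N * (10 / n ^ 2 + 2 * MA / q + 297 * MA ^ 2 * n ^ 2 / q ^ 2)) *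
          (δ * (n * K1)) := mul_le_mul_of_nonneg_left hs3 (by positivity)
      _ = _ := by rw [hK2]; field_simp
  have u1 : q / n ^ 2 ≤ b ^ 2 / q := by
    rw [div_le_div_iff₀ (by positivity) hq]
    nlinarith [mul_le_mul hqb hqb hq.le (by positivity : 0 ≤ b * n)]
  have u2 : g0 * ρ ≤ b ^ 2 / q := by
    rw [hρ, ← mul_div_assoc]
    apply div_le_div_of_nonneg_right _ hq.le
    nlinarith
  have u4 : n / q ≤ σ := by rw [div_le_iff₀ hq]; exact hgood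
  have u3 : 1 / n ≤ σ * MA := by
    rw [div_le_iff₀ hn]
    have h3 : n ≤ σ * (MA * n * n) := by
      refine hgood.trans (mul_le_mul_of_nonneg_left (hqb.trans ?_) hσ.le)
      exact mul_le_mul_of_nonneg_right hbMA hn.le
    have h4 : n * 1 ≤ n * (σ * MA * n) := by
      calc n * 1 = n := mul_one n
        _ ≤ σ * (MA * n * n) := h3
        _ = _ := by ring
    exact le_of_mul_le_mul_left h4 hn
  have u5 : n ^ 3 / q ^ 2 ≤ σ * (ρ / g0) := by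
    have e1 : n ^ 2 / q ≤ ρ / g0 := by
      rw [hρ, div_div, div_le_div_iff₀ hq (by positivity)]
      have : g0 * n * (n * q) ≤ b * (n * q) := mul_le_mul_of_nonneg_right hbg (by positivity)
      nlinarith
    calc n ^ 3 / q ^ 2 = (n / q) * (n ^ 2 / q) := by field_simp
      _ ≤ σ * (ρ / g0) := mul_le_mul u4 e1 (by positivity) hσ.le
  have v3 : K2 * (10 * (1 / n) + 2 * MA * (n / q) + 297 * MA ^ 2 * (n ^ 3 / q ^ 2)) ≤
      ρ * g0 := by
    have w1 : 10 * (1 / n) ≤ 10 * MA * (σ * ρ) := by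
      have : σ * MA * 1 ≤ σ * MA * ρ := mul_le_mul_of_nonneg_left hρ1 (by positivity)
      linarith
    have w2 : 2 * MA * (n / q) ≤ 2 * MA * (σ * ρ) := by
      apply mul_le_mul_of_nonneg_left _ (by positivity)
      have : σ * 1 ≤ σ * ρ := mul_le_mul_of_nonneg_left hρ1 hσ.le
      linarith
    have w3 : 297 * MA ^ 2 * (n ^ 3 / q ^ 2) ≤ 297 * MA ^ 2 / g0 * (σ * ρ) := by
      calc _ ≤ 297 * MA ^ 2 * (σ * (ρ / g0)) := mul_le_mul_of_nonneg_left u5 (by positivity)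
        _ = _ := by ring
    calc K2 * (10 * (1 / n) + 2 * MA * (n / q) + 297 * MA ^ 2 * (n ^ 3 / q ^ 2)) ≤
          K2 * (10 * MA * (σ * ρ) + 2 * MA * (σ * ρ) + 297 * MA ^ 2 / g0 * (σ * ρ)) :=
          mul_le_mul_of_nonneg_left (by linarith) hK20
      _ = ρ * (σ * (G ^ 2 * N * K1 * (12 * MA + 297 * MA ^ 2 / g0))) := by rw [hK2]; ring
      _ ≤ ρ * g0 := mul_le_mul_of_nonneg_left hσ1 (by linarith)
  have w4 : 2 * (ε * (N * G)) ≤ 2 * (ε * (N * G)) * ρ := by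
    have : 0 ≤ 2 * (ε * (N * G)) := by positivity
    nlinarith
  have w5 : 6 * (ε * (N * G)) * ρ ≤ g0 * ρ := mul_le_mul_of_nonneg_right hε1 (by linarith)
  have w6 : 2 * (q / n ^ 2) + 2 * (1 + κ) + 2 * (ε * (N * G)) +
      (-4 * (b ^ 2 / q) - 4 * (1 + κ) + 4 * (ε * (N * G)) * ρ) +
      K2 * (10 * (1 / n) + 2 * MA * (n / q) + 297 * MA ^ 2 * (n ^ 3 / q ^ 2)) ≤
      -(2 * (1 + κ)) := by
    linarith
  have w7 := mul_le_mul_of_nonneg_left w6 hδ.le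
  linarith

section Abstract

variable {H : Type*} [NormedAddCommGroup H] [InnerProductSpace ℝ H]
  {E : Type*} [Fintype E] [DecidableEq E]

/-- The total displacement. -/
noncomputable def Dl (g : E → H) (c : E → Bool × Bool) : H := ∑ e, rr (c e) • g e

/-- Number of disagreements. -/
noncomputable def RR (c : E → Bool × Bool) : ℝ := ∑ e, |rr (c e)|

omit [DecidableEq E] in
lemma RR_nonneg (c : E → Bool × Bool) : 0 ≤ RR c :=
  Finset.sum_nonneg fun _ _ => abs_nonneg _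

lemma abs_rr_le (ab : Bool × Bool) : |rr ab| ≤ 1 := by
  rcases ab with ⟨a, b⟩
  cases a <;> cases b <;> simp [rr]

omit [DecidableEq E] in
lemma RR_le (c : E → Bool × Bool) : RR c ≤ Fintype.card E := by
  unfold RR
  calc _ ≤ ∑ _e : E, (1:ℝ) := Finset.sum_le_sum fun e _ => abs_rr_le _
    _ = _ := by simp

omit [DecidableEq E] in
lemma norm_Dl_le {g : E → H} {G : ℝ} (hG : ∀ e, ‖g e‖ ≤ G) (c : E → Bool × Bool) :
    ‖Dl g c‖ ≤ G * RR c := by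
  unfold Dl RR
  refine (norm_sum_le _ _).trans ?_
  rw [Finset.mul_sum]
  refine Finset.sum_le_sum fun e _ => ?_
  rw [norm_smul, Real.norm_eq_abs, mul_comm]
  exact mul_le_mul_of_nonneg_right (hG e) (abs_nonneg _)

lemma Ex_inner_Dl (p p' : E → ℝ) (g : E → H) (w : H) :
    Ex (fun e => cw (p e) (p' e)) (fun c => ⟪w, Dl g c⟫) = ∑ e, (p' e - p e) * ⟪w, g e⟫ := by
  have h1 : ∀ c : E → Bool × Bool, ⟪w, Dl g c⟫ = ∑ e, rr (c e) * ⟪w, g e⟫ := by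
    intro c
    unfold Dl
    rw [inner_sum]
    exact Finset.sum_congr rfl fun e _ => by rw [real_inner_smul_right]
  simp_rw [h1]
  rw [Ex_sum]
  refine Finset.sum_congr rfl fun e _ => ?_
  rw [Ex_coord (fun e => cw_sum _ _) e (fun ab => rr ab * ⟪w, g e⟫), ← cw_rr (p e) (p' e),
    Finset.sum_mul]
  exact Finset.sum_congr rfl fun ab _ => by ring

lemma Ex_RR (p p' : E → ℝ) :
    Ex (fun e => cw (p e) (p' e)) RR = ∑ e, |p' e - p e| := by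
  unfold RR
  rw [Ex_sum]
  refine Finset.sum_congr rfl fun e _ => ?_
  rw [Ex_coord (fun e => cw_sum _ _) e (fun ab => |rr ab|), cw_abs_rr]

/-- The data of the abstract one-step inequality. -/
structure Setup (g : E → H) (a : E → ℝ) (A : H →ₗ[ℝ] H) (κ G MA g0 : ℝ) : Prop where
  hG : ∀ e, ‖g e‖ ≤ G
  hG0 : 0 < G
  ha : ∀ e, 0 ≤ a e
  hκ : 0 ≤ κ
  hA : ∀ v, A v = ∑ e, (a e * ⟪g e, v⟫) • g e - (1 + κ) • v
  hsym : ∀ v w, ⟪A v, w⟫ = ⟪v, A w⟫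
  hMA : ∀ v, ‖A v‖ ≤ MA * ‖v‖
  hMA0 : 0 < MA
  hg : ∀ v, g0 * ‖v‖ ≤ ‖A v‖
  hg0 : 0 < g0


/-- The Lyapunov function of the difference of two copies. -/
noncomputable def ff (A : H →ₗ[ℝ] H) (v : H) : ℝ := ‖v‖ ^ 2 / ⟪A v, v⟫ ^ 2

omit [DecidableEq E] in
/-- Pointwise bound. -/
lemma pointwise {g : E → H} {a : E → ℝ} {A : H →ₗ[ℝ] H} {κ G MA g0 : ℝ}
    (S : Setup g a A κ G MA g0) {N : ℝ} (hN : N = Fintype.card E) {σ : ℝ} (hσ : 0 < σ)
    (h1 : σ * MA * (3 * G * N) ≤ 1)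
    (h2 : 3 * MA * G * N * σ ≤ 1 / 2) {v : H} (hv : 0 < ⟪A v, v⟫)
    (hgood : ‖v‖ ≤ σ * ⟪A v, v⟫) (c : E → Bool × Bool) :
    0 < ⟪A (v + Dl g c), v + Dl g c⟫ ∧
    ff A (v + Dl g c) ≤ ff A v * (1 + (2 / ‖v‖ ^ 2) * ⟪v, Dl g c⟫ -
      (4 / ⟪A v, v⟫) * ⟪A v, Dl g c⟫ +
      (G ^ 2 * N * (10 / ‖v‖ ^ 2 + 2 * MA / ⟪A v, v⟫ +
        297 * MA ^ 2 * ‖v‖ ^ 2 / ⟪A v, v⟫ ^ 2)) * RR c) := by
  have hMA0 := S.hMA0
  have hG0 := S.hG0
  have hv0 : v ≠ 0 := by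
    intro h
    rw [h] at hv
    simp at hv
  have hn : 0 < ‖v‖ := norm_pos_iff.mpr hv0
  have hbMA := S.hMA v
  have hqb : ⟪A v, v⟫ ≤ ‖A v‖ * ‖v‖ := real_inner_le_norm _ _
  have hΔ := norm_Dl_le S.hG c
  have hR0 := RR_nonneg c
  have hRN : RR c ≤ N := by rw [hN]; exact RR_le c
  have e1' : |⟪v, Dl g c⟫| ≤ ‖v‖ * ‖Dl g c‖ := abs_real_inner_le_norm _ _
  have e2' : |⟪A v, Dl g c⟫| ≤ ‖A v‖ * ‖Dl g c‖ := abs_real_inner_le_norm _ _
  have e3' : |⟪A (Dl g c), Dl g c⟫| ≤ ‖A (Dl g c)‖ * ‖Dl g c‖ := abs_real_inner_le_norm _ _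
  have e4 := S.hMA (Dl g c)
  have hnorm : ‖v + Dl g c‖ ^ 2 = ‖v‖ ^ 2 + (2 * ⟪v, Dl g c⟫ + ‖Dl g c‖ ^ 2) := by
    rw [norm_add_sq_real]; ring
  have hquad : ⟪A (v + Dl g c), v + Dl g c⟫ = ⟪A v, v⟫ +
      (2 * ⟪A v, Dl g c⟫ + ⟪A (Dl g c), Dl g c⟫) := by
    rw [map_add, inner_add_left, inner_add_right, inner_add_right]
    have : ⟪A (Dl g c), v⟫ = ⟪A v, Dl g c⟫ := by rw [S.hsym, real_inner_comm]
    rw [this]; ring
  unfold ff
  rw [hnorm, hquad]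
  exact real_pointwise hn hv hMA0 hG0 hσ (norm_nonneg _) hR0 hRN hbMA hqb hΔ e1' e2' e3' e4
    hgood h1 h2

/-- The one-step inequality: while both copies are in the good region, the Lyapunov function of
their difference contracts in expectation. -/
theorem one_step {g : E → H} {a : E → ℝ} {A : H →ₗ[ℝ] H} {κ G MA g0 : ℝ}
    (S : Setup g a A κ G MA g0) :
    ∃ ε₂ > 0, ∃ σ > 0, ∀ (p p' : E → ℝ), (∀ e, 0 ≤ p e) → (∀ e, p e ≤ 1) →
      (∀ e, 0 ≤ p' e) → (∀ e, p' e ≤ 1) → ∀ (δ : ℝ), 0 < δ → ∀ (v : H), 0 < ⟪A v, v⟫ →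
      ‖v‖ ≤ σ * ⟪A v, v⟫ →
      (∀ e, |(p' e - p e) - δ * (a e * ⟪g e, v⟫)| ≤ δ * (ε₂ * ‖v‖)) →
      (∀ c, 0 < ⟪A (v + Dl g c), v + Dl g c⟫) ∧
      Ex (fun e => cw (p e) (p' e)) (fun c => ff A (v + Dl g c)) ≤
        ff A v * (1 - 2 * (1 + κ) * δ) := by
  have hMA0 := S.hMA0
  have hG0 := S.hG0
  have hg0 := S.hg0
  obtain ⟨N, hN⟩ : ∃ N : ℝ, N = Fintype.card E := ⟨_, rfl⟩
  have hN0 : 0 ≤ N := by rw [hN]; positivity
  obtain ⟨K1, hK1⟩ : ∃ K1 : ℝ, K1 = ∑ e, (a e * G + 1) := ⟨_, rfl⟩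
  have hK10 : 0 ≤ K1 := by
    rw [hK1]
    exact Finset.sum_nonneg fun e _ => by have := S.ha e; positivity
  obtain ⟨ε, hε0, hε1, hε6⟩ : ∃ ε : ℝ, 0 < ε ∧ ε ≤ 1 ∧ 6 * (ε * (N * G)) ≤ g0 := by
    refine ⟨min 1 (g0 / (6 * (N * G) + 1)), by positivity, min_le_left _ _, ?_⟩
    have h1 : min 1 (g0 / (6 * (N * G) + 1)) ≤ g0 / (6 * (N * G) + 1) := min_le_right _ _
    have h2 : 0 ≤ 6 * (N * G) := by positivity
    calc 6 * (min 1 (g0 / (6 * (N * G) + 1)) * (N * G)) =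
          (6 * (N * G)) * min 1 (g0 / (6 * (N * G) + 1)) := by ring
      _ ≤ (6 * (N * G)) * (g0 / (6 * (N * G) + 1)) := mul_le_mul_of_nonneg_left h1 h2
      _ ≤ g0 := by
          rw [mul_div_assoc', div_le_iff₀ (by positivity)]
          nlinarith
  obtain ⟨σ, hσ0, hσa, hσb, hσc⟩ : ∃ σ : ℝ, 0 < σ ∧ σ * MA * (3 * G * N) ≤ 1 ∧
      3 * MA * G * N * σ ≤ 1 / 2 ∧
      σ * (G ^ 2 * N * K1 * (12 * MA + 297 * MA ^ 2 / g0)) ≤ g0 := by
    obtain ⟨Z, hZ⟩ : ∃ Z, Z = 6 * MA * G * N +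
      (G ^ 2 * N * K1 * (12 * MA + 297 * MA ^ 2 / g0)) / g0 + 1 := ⟨_, rfl⟩
    have hA0 : 0 ≤ 6 * MA * G * N := by positivity
    have hB0 : 0 ≤ (G ^ 2 * N * K1 * (12 * MA + 297 * MA ^ 2 / g0)) / g0 := by positivity
    have hZ0 : 0 < Z := by rw [hZ]; positivity
    refine ⟨1 / Z, by positivity, ?_, ?_, ?_⟩
    · rw [show 1 / Z * MA * (3 * G * N) = (3 * MA * G * N) / Z by ring, div_le_one hZ0, hZ]
      linarith
    · rw [show 3 * MA * G * N * (1 / Z) = (3 * MA * G * N) / Z by ring,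
        div_le_div_iff₀ hZ0 (by norm_num), hZ]
      linarith
    · rw [one_div_mul_eq_div, div_le_iff₀ hZ0, ← div_le_iff₀' hg0, hZ]
      linarith
  refine ⟨ε, hε0, σ, hσ0, ?_⟩
  intro p p' hp0 hp1 hp0' hp1' δ hδ v hv hgood hdrift
  have hpt := fun c => pointwise S hN hσ0 hσa hσb hv hgood c
  refine ⟨fun c => (hpt c).1, ?_⟩
  have hv0 : v ≠ 0 := by
    intro h
    rw [h] at hv
    simp at hv
  have hn : 0 < ‖v‖ := norm_pos_iff.mpr hv0
  have hcw : ∀ e ab, 0 ≤ cw (p e) (p' e) ab := fun e ab =>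
    cw_nonneg (hp0 e) (hp1 e) (hp0' e) (hp1' e) ab
  have hcs : ∀ e, ∑ ab, cw (p e) (p' e) ab = 1 := fun e => cw_sum _ _
  have h1 := Ex_mono hcw (fun c => (hpt c).2)
  refine h1.trans ?_
  rw [Ex_mul_left, Ex_add, Ex_sub, Ex_add, Ex_const hcs, Ex_mul_left, Ex_mul_left,
    Ex_mul_left, Ex_inner_Dl, Ex_inner_Dl, Ex_RR]
  apply mul_le_mul_of_nonneg_left _ (by unfold ff; positivity)
  -- drift sums
  have hdr : ∀ w : H, |∑ e, (p' e - p e) * ⟪w, g e⟫ - δ * ⟪w, A v + (1 + κ) • v⟫| ≤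
      δ * (ε * (N * G)) * (‖v‖ * ‖w‖) := by
    intro w
    have e1 : ⟪w, A v + (1 + κ) • v⟫ = ∑ e, a e * ⟪g e, v⟫ * ⟪w, g e⟫ := by
      rw [S.hA v, sub_add_cancel, inner_sum]
      exact Finset.sum_congr rfl fun e _ => by rw [real_inner_smul_right]
    rw [e1, Finset.mul_sum, ← Finset.sum_sub_distrib]
    refine (Finset.abs_sum_le_sum_abs _ _).trans ?_
    have e2 : δ * (ε * (N * G)) * (‖v‖ * ‖w‖) =
        ∑ _e : E, δ * (ε * ‖v‖) * (‖w‖ * G) := by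
      rw [Finset.sum_const, nsmul_eq_mul, Finset.card_univ, ← hN]; ring
    rw [e2]
    refine Finset.sum_le_sum fun e _ => ?_
    have e3 : (p' e - p e) * ⟪w, g e⟫ - δ * (a e * ⟪g e, v⟫ * ⟪w, g e⟫) =
        ((p' e - p e) - δ * (a e * ⟪g e, v⟫)) * ⟪w, g e⟫ := by ring
    rw [e3, abs_mul]
    apply mul_le_mul (hdrift e) _ (abs_nonneg _) (by positivity)
    exact (abs_real_inner_le_norm _ _).trans
      (mul_le_mul_of_nonneg_left (S.hG e) (norm_nonneg _))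
  have hs1 := (abs_le.mp (hdr v)).2
  have hs2 := (abs_le.mp (hdr (A v))).1
  rw [inner_add_right, real_inner_smul_right, real_inner_self_eq_norm_sq,
    real_inner_comm] at hs1
  rw [inner_add_right, real_inner_smul_right, real_inner_self_eq_norm_sq] at hs2
  have hs3 : ∑ e, |p' e - p e| ≤ δ * (‖v‖ * K1) := by
    rw [hK1, Finset.mul_sum, Finset.mul_sum]
    refine Finset.sum_le_sum fun e _ => ?_
    have e1 := hdrift e
    have e2 : |p' e - p e| ≤ |(p' e - p e) - δ * (a e * ⟪g e, v⟫)| +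
        |δ * (a e * ⟪g e, v⟫)| := by
      have := abs_add_le ((p' e - p e) - δ * (a e * ⟪g e, v⟫)) (δ * (a e * ⟪g e, v⟫))
      rwa [sub_add_cancel] at this
    have e3 : |δ * (a e * ⟪g e, v⟫)| ≤ δ * (a e * (G * ‖v‖)) := by
      rw [abs_mul, abs_mul, abs_of_pos hδ, abs_of_nonneg (S.ha e)]
      apply mul_le_mul_of_nonneg_left _ hδ.le
      apply mul_le_mul_of_nonneg_left _ (S.ha e)
      exact (abs_real_inner_le_norm _ _).trans
        (mul_le_mul_of_nonneg_right (S.hG e) (norm_nonneg _))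
    have e4 : δ * (ε * ‖v‖) ≤ δ * (1 * ‖v‖) :=
      mul_le_mul_of_nonneg_left (mul_le_mul_of_nonneg_right hε1 (norm_nonneg _)) hδ.le
    calc |p' e - p e| ≤ δ * (1 * ‖v‖) + δ * (a e * (G * ‖v‖)) := by linarith
      _ = _ := by ring
  have hfinal := real_final (κ := κ) (s1 := ∑ e, (p' e - p e) * ⟪v, g e⟫)
    (s2 := ∑ e, (p' e - p e) * ⟪A v, g e⟫) (s3 := ∑ e, |p' e - p e|) hn hv hMA0 hG0 hN0 hσ0 hδ
    hε0 hg0 hK10 (S.hMA v) (real_inner_le_norm _ _) (S.hg v) hgood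
    (by nlinarith [hs1]) (by nlinarith [hs2]) hs3 hε6 hσc
  linarith

end Abstract

end Pool.Agent.MP_cd93fa_pr
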