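import Pool.Agent.MP_cd93fa_pr.Nonconv
import Pool.Agent.MP_cd93fa_pr.Energy

namespace Pool.Agent.MP_cd93fa_pr

open Finset Filter Topology MeasureTheory
open scoped ProbabilityTheory

variable {V : Type*} [Fintype V] [DecidableEq V] {E : Type*} [Fintype E] [DecidableEq E]

/-- The urn process with edge choices `C` and contents `B`. -/
structure IsUrn (s t : E → V) (α : ℝ) (b₀ : V → ℕ) {Ω : Type*} {mΩ : MeasurableSpace Ω}
    (μ : Measure Ω) (ℱ : Filtration ℕ mΩ) (C : ℕ → Ω → E → Bool) (B : ℕ → Ω → V → ℕ) :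
    Prop where
  meas : ∀ n c, MeasurableSet[ℱ (n + 1)] {ω | C n ω = c}
  init : ∀ ω, B 0 ω = b₀
  step : ∀ n ω, B (n + 1) ω = fun i => B n ω i + inc s t (C n ω) i
  law : ∀ n c, μ[({ω | C n ω = c}).indicator (fun _ => (1:ℝ)) | ℱ n] =ᵐ[μ]
    fun ω => ∏ e, ew s t α (fun i => (B n ω i : ℝ)) e (c e)

namespace IsUrn

variable {s t : E → V} {α : ℝ} {b₀ : V → ℕ} {Ω : Type*} {mΩ : MeasurableSpace Ω}
  {μ : Measure Ω} {ℱ : Filtration ℕ mΩ} {C : ℕ → Ω → E → Bool} {B : ℕ → Ω → V → ℕ}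

lemma measB (h : IsUrn s t α b₀ μ ℱ C B) (n : ℕ) (Q : Set (V → ℕ)) :
    MeasurableSet[ℱ n] {ω | B n ω ∈ Q} := by
  induction n generalizing Q with
  | zero =>
    have : {ω | B 0 ω ∈ Q} = {_ω | b₀ ∈ Q} := by
      ext ω; simp only [Set.mem_ofPred_eq, h.init]
    rw [this]
    exact @MeasurableSet.const _ (ℱ 0) _
  | succ n ih =>
    have : {ω | B (n + 1) ω ∈ Q} = ⋃ c : E → Bool, ({ω | C n ω = c} ∩
        {ω | B n ω ∈ {b | (fun i => b i + inc s t c i) ∈ Q}}) := by
      ext ω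
      simp only [Set.mem_ofPred_eq, Set.mem_iUnion, Set.mem_inter_iff, h.step]
      constructor
      · intro h1
        exact ⟨C n ω, rfl, h1⟩
      · rintro ⟨c, h1, h2⟩
        rw [h1]; exact h2
    rw [this]
    refine MeasurableSet.iUnion fun c => ?_
    exact (h.meas n c).inter (ℱ.mono (Nat.le_succ n) _ (ih _))

lemma strongMeas (h : IsUrn s t α b₀ μ ℱ C B) (n : ℕ) (ψ : (V → ℕ) → ℝ) :
    StronglyMeasurable[ℱ n] (fun ω => ψ (B n ω)) := by
  have : Measurable[ℱ n] (fun ω => ψ (B n ω)) := fun S _ => h.measB n (ψ ⁻¹' S)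
  exact this.stronglyMeasurable

lemma finite_range (h : IsUrn s t α b₀ μ ℱ C B) (n : ℕ) : (Set.range (B n)).Finite := by
  induction n with
  | zero =>
    refine (Set.finite_singleton b₀).subset ?_
    rintro _ ⟨ω, rfl⟩
    exact h.init ω
  | succ n ih =>
    refine (Set.Finite.image2 (fun (b : V → ℕ) (c : E → Bool) => fun i => b i + inc s t c i) ih
      (Set.toFinite Set.univ)).subset ?_
    rintro _ ⟨ω, rfl⟩
    exact ⟨B n ω, ⟨ω, rfl⟩, C n ω, Set.mem_univ _, (h.step n ω).symm⟩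

lemma bounded (h : IsUrn s t α b₀ μ ℱ C B) (n : ℕ) (ψ : (V → ℕ) → ℝ) :
    ∃ M : ℝ, ∀ ω, ‖ψ (B n ω)‖ ≤ M := by
  have h1 := ((h.finite_range n).image (fun b => ‖ψ b‖)).bddAbove
  obtain ⟨M, hM⟩ := h1
  refine ⟨M, fun ω => hM ⟨B n ω, ⟨ω, rfl⟩, rfl⟩⟩

lemma integrable [IsProbabilityMeasure μ] (h : IsUrn s t α b₀ μ ℱ C B) (n : ℕ)
    (ψ : (V → ℕ) → ℝ) : Integrable (fun ω => ψ (B n ω)) μ := by
  obtain ⟨M, hM⟩ := h.bounded n ψ
  exact Integrable.of_bound ((h.strongMeas n ψ).mono (ℱ.le n)).aestronglyMeasurable M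
    (Eventually.of_forall hM)

/-- The one-step conditional expectation. -/
lemma condExp_next [IsProbabilityMeasure μ] (h : IsUrn s t α b₀ μ ℱ C B) (n : ℕ)
    (ψ : (V → ℕ) → ℝ) :
    μ[fun ω => ψ (B (n + 1) ω) | ℱ n] =ᵐ[μ] fun ω =>
      Ex (ew s t α (fun i => (B n ω i : ℝ))) (fun c => ψ (fun i => B n ω i + inc s t c i)) := by
  have hC : ∀ c, MeasurableSet {ω | C n ω = c} := fun c => ℱ.le (n + 1) _ (h.meas n c)
  have h1 : (fun ω => ψ (B (n + 1) ω)) = ∑ c : E → Bool,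
      (({ω | C n ω = c}).indicator (fun _ => (1:ℝ))) *
        (fun ω => ψ (fun i => B n ω i + inc s t c i)) := by
    funext ω
    rw [Finset.sum_apply, Finset.sum_eq_single (C n ω)]
    · simp [h.step]
    · intro c _ hc
      simp [Ne.symm hc]
    · intro hc
      exact absurd (Finset.mem_univ _) hc
  have hint : ∀ c, Integrable ((({ω | C n ω = c}).indicator (fun _ => (1:ℝ))) *
        (fun ω => ψ (fun i => B n ω i + inc s t c i))) μ := by
    intro c
    have : (({ω | C n ω = c}).indicator (fun _ => (1:ℝ))) *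
        (fun ω => ψ (fun i => B n ω i + inc s t c i)) =
        ({ω | C n ω = c}).indicator (fun ω => ψ (fun i => B n ω i + inc s t c i)) := by
      funext ω
      simp [Set.indicator_apply]
    rw [this]
    exact (h.integrable n (fun b => ψ (fun i => b i + inc s t c i))).indicator (hC c)
  rw [h1]
  refine (condExp_finsetSum (fun c _ => hint c) _).trans ?_
  have h2 : ∀ c : E → Bool, μ[(({ω | C n ω = c}).indicator (fun _ => (1:ℝ))) *
        (fun ω => ψ (fun i => B n ω i + inc s t c i)) | ℱ n] =ᵐ[μ]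
      fun ω => (∏ e, ew s t α (fun i => (B n ω i : ℝ)) e (c e)) *
        ψ (fun i => B n ω i + inc s t c i) := by
    intro c
    have h3 := condExp_mul_of_stronglyMeasurable_right (μ := μ) (m := ℱ n)
      (f := ({ω | C n ω = c}).indicator (fun _ => (1:ℝ)))
      (g := fun ω => ψ (fun i => B n ω i + inc s t c i))
      (h.strongMeas n (fun b => ψ (fun i => b i + inc s t c i))) (hint c)
      ((integrable_const (1:ℝ)).indicator (hC c))
    refine h3.trans ?_
    filter_upwards [h.law n c] with ω hω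
    simp only [Pi.mul_apply, hω]
  have h4 : ∀ᵐ ω ∂μ, ∀ c : E → Bool, (μ[(({ω | C n ω = c}).indicator (fun _ => (1:ℝ))) *
        (fun ω => ψ (fun i => B n ω i + inc s t c i)) | ℱ n]) ω =
      (∏ e, ew s t α (fun i => (B n ω i : ℝ)) e (c e)) *
        ψ (fun i => B n ω i + inc s t c i) := ae_all_iff.mpr h2
  filter_upwards [h4] with ω hω
  rw [Finset.sum_apply]
  unfold Ex
  exact Finset.sum_congr rfl fun c _ => hω c

end IsUrn

end Pool.Agent.MP_cd93fa_pr
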