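import Pool.Agent.MP_cd93fa_pr.Linear

namespace Pool.Agent.MP_cd93fa_pr

open Finset Filter Topology
open scoped RealInnerProductSpace

variable {V : Type*} [Fintype V] [DecidableEq V] {E : Type*} [Fintype E] [DecidableEq E]

/-- Total number of balls at time `n`. -/
noncomputable def tot (E : Type*) [Fintype E] (N0 : ℝ) (n : ℕ) : ℝ := N0 + n * Fintype.card E

/-- Shares of the bins at time `n`. -/
noncomputable def shr (E : Type*) [Fintype E] (N0 : ℝ) (n : ℕ) (b : V → ℕ) : V → ℝ :=
  fun i => (b i : ℝ) / tot E N0 n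

open Classical in
/-- Probability of staying in `U` during `k` further steps. -/
noncomputable def stay (s t : E → V) (α N0 : ℝ) (U : Set (V → ℝ)) : ℕ → ℕ → (V → ℕ) → ℝ
  | 0, n, b => if shr E N0 n b ∈ U then 1 else 0
  | k + 1, n, b => if shr E N0 n b ∈ U then
      Ex (ew s t α (fun i => (b i : ℝ))) (fun c => stay s t α N0 U k (n + 1)
        (fun i => b i + inc s t c i)) else 0

variable {s t : E → V} {α N0 : ℝ} {U : Set (V → ℝ)}

omit [Fintype V] in
lemma stay_nonneg (k n : ℕ) (b : V → ℕ) : 0 ≤ stay s t α N0 U k n b := by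
  induction k generalizing n b with
  | zero => unfold stay; split_ifs <;> norm_num
  | succ k ih =>
    unfold stay
    split_ifs
    · exact Ex_nonneg (ew_nonneg fun i => Nat.cast_nonneg _) fun c => ih _ _
    · exact le_rfl

omit [Fintype V] in
lemma stay_le_one (k n : ℕ) (b : V → ℕ) : stay s t α N0 U k n b ≤ 1 := by
  induction k generalizing n b with
  | zero => unfold stay; split_ifs <;> norm_num
  | succ k ih =>
    unfold stay
    split_ifs
    · refine (Ex_mono (ew_nonneg fun i => Nat.cast_nonneg _) fun c => ih _ _).trans ?_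
      rw [Ex_const (ew_sum _)]
    · norm_num

omit [Fintype V] in
lemma stay_eq_zero {k n : ℕ} {b : V → ℕ} (h : shr E N0 n b ∉ U) :
    stay s t α N0 U k n b = 0 := by
  cases k <;> simp [stay, h]

omit [Fintype V] [DecidableEq V] [DecidableEq E] in
lemma tot_pos (hN0 : 0 < N0) (n : ℕ) : 0 < tot E N0 n := by
  unfold tot; positivity

lemma pr_shr {a b S : ℝ} (ha : 0 ≤ a) (hb : 0 ≤ b) (hS : 0 < S) :
    pr α (a / S) (b / S) = pr α a b := by
  unfold pr
  rw [Real.div_rpow ha hS.le, Real.div_rpow hb hS.le]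
  have := Real.rpow_pos_of_pos hS α
  rcases eq_or_ne (a ^ α + b ^ α) 0 with h | h
  · rw [← add_div, h]; simp
  · field_simp

omit [Fintype V] in
/-- Forcing one particular choice. -/
lemma stay_step_lb {ε₀ : ℝ} (hε₀ : 0 < ε₀) (hε₁ : ε₀ ≤ 1) (hN0 : 0 < N0)
    (hU : ∀ y ∈ U, ∀ e, ε₀ ≤ pr α (y (s e)) (y (t e)) ∧ ε₀ ≤ 1 - pr α (y (s e)) (y (t e)))
    (k n : ℕ) (b : V → ℕ) (c : E → Bool) :
    ε₀ ^ Fintype.card E * (1 - stay s t α N0 U k (n + 1) (fun i => b i + inc s t c i)) ≤
      1 - stay s t α N0 U (k + 1) n b := by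
  by_cases h : shr E N0 n b ∈ U
  · have h1 : stay s t α N0 U (k + 1) n b = Ex (ew s t α (fun i => (b i : ℝ)))
        (fun c => stay s t α N0 U k (n + 1) (fun i => b i + inc s t c i)) := by
      rw [stay, if_pos h]
    have h2 : 1 - stay s t α N0 U (k + 1) n b = Ex (ew s t α (fun i => (b i : ℝ)))
        (fun c => 1 - stay s t α N0 U k (n + 1) (fun i => b i + inc s t c i)) := by
      rw [Ex_sub, Ex_const (ew_sum _), h1]
    rw [h2]
    have hst1 : ∀ c : E → Bool, 0 ≤ 1 - stay s t α N0 U k (n + 1)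
        (fun i => b i + inc s t c i) := fun c => by
      have := stay_le_one (s := s) (t := t) (α := α) (N0 := N0) (U := U) k (n + 1)
        (fun i => b i + inc s t c i)
      linarith
    have hw : ∀ (c : E → Bool) e, 0 ≤ ew s t α (fun i => (b i : ℝ)) e (c e) := fun c e =>
      ew_nonneg (fun i => Nat.cast_nonneg _) e _
    have h3 : (∏ e, ew s t α (fun i => (b i : ℝ)) e (c e)) *
        (1 - stay s t α N0 U k (n + 1) (fun i => b i + inc s t c i)) ≤
        Ex (ew s t α (fun i => (b i : ℝ)))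
        (fun c => 1 - stay s t α N0 U k (n + 1) (fun i => b i + inc s t c i)) := by
      unfold Ex
      refine Finset.single_le_sum (f := fun c => (∏ e, ew s t α (fun i => (b i : ℝ)) e (c e)) *
        (1 - stay s t α N0 U k (n + 1) (fun i => b i + inc s t c i))) (fun c _ => ?_)
        (Finset.mem_univ c)
      exact mul_nonneg (Finset.prod_nonneg fun e _ => hw c e) (hst1 c)
    refine le_trans ?_ h3
    apply mul_le_mul_of_nonneg_right
    · have h4 : ε₀ ^ Fintype.card E = ∏ _e : E, ε₀ := by simp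
      rw [h4]
      refine Finset.prod_le_prod (fun _ _ => hε₀.le) fun e _ => ?_
      have h5 := hU _ h e
      simp only [shr] at h5
      rw [pr_shr (Nat.cast_nonneg _) (Nat.cast_nonneg _) (tot_pos hN0 n)] at h5
      unfold ew
      split_ifs
      · exact h5.1
      · exact h5.2
    · exact hst1 c
  · rw [stay_eq_zero h, sub_zero]
    have h1 := stay_nonneg (s := s) (t := t) (α := α) (N0 := N0) (U := U) k (n + 1)
      (fun i => b i + inc s t c i)
    have h2 := stay_le_one (s := s) (t := t) (α := α) (N0 := N0) (U := U) k (n + 1)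
      (fun i => b i + inc s t c i)
    have h3 : ε₀ ^ Fintype.card E ≤ 1 := pow_le_one₀ hε₀.le hε₁
    have h4 : 0 < ε₀ ^ Fintype.card E := by positivity
    nlinarith

omit [Fintype V] in
/-- Forcing the same choice `d` times. -/
lemma stay_steps_lb {ε₀ : ℝ} (hε₀ : 0 < ε₀) (hε₁ : ε₀ ≤ 1) (hN0 : 0 < N0)
    (hU : ∀ y ∈ U, ∀ e, ε₀ ≤ pr α (y (s e)) (y (t e)) ∧ ε₀ ≤ 1 - pr α (y (s e)) (y (t e)))
    (d k n : ℕ) (b : V → ℕ) (c : E → Bool) :
    (ε₀ ^ Fintype.card E) ^ d *
      (1 - stay s t α N0 U k (n + d) (fun i => b i + d * inc s t c i)) ≤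
      1 - stay s t α N0 U (k + d) n b := by
  induction d generalizing n b with
  | zero => simp
  | succ d ih =>
    have h1 := stay_step_lb hε₀ hε₁ hN0 hU (k + d) n b c
    have h2 := ih (n + 1) (fun i => b i + inc s t c i)
    have h3 : (fun i => (b i + inc s t c i) + d * inc s t c i) =
        (fun i => b i + (d + 1) * inc s t c i) := by
      funext i; ring
    rw [h3, show n + 1 + d = n + (d + 1) by ring] at h2
    have h4 : 0 ≤ ε₀ ^ Fintype.card E := by positivity
    calc _ = ε₀ ^ Fintype.card E * ((ε₀ ^ Fintype.card E) ^ d *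
          (1 - stay s t α N0 U k (n + (d + 1)) (fun i => b i + (d + 1) * inc s t c i))) := by
          rw [pow_succ]; ring
      _ ≤ ε₀ ^ Fintype.card E * (1 - stay s t α N0 U (k + d) (n + 1)
          (fun i => b i + inc s t c i)) := mul_le_mul_of_nonneg_left h2 h4
      _ ≤ _ := h1

end Pool.Agent.MP_cd93fa_pr
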