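import Pool.Agent.MP_cd93fa_pr.Finite

namespace Pool.Agent.MP_cd93fa_pr

open Finset

variable {V E : Type*} [Fintype V] [DecidableEq V] [Fintype E] {s t : E → V} {α : ℝ}

/-- Combinatorial type of a state. -/
noncomputable def ty (s t : E → V) (α C : ℝ) (x : V → ℝ) : (V → Bool) × (E → Fin 3) := by
  classical
  exact (fun i => decide (0 < x i), fun e =>
    if |α * Real.log (x (s e)) - α * Real.log (x (t e))| ≤ C then 0
    else if 0 < α * Real.log (x (s e)) - α * Real.log (x (t e)) then 1 else 2)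

lemma IsEquil.uniq_aux [Nonempty E] {x y : V → ℝ} (hx : IsEquil s t α x) (hy : IsEquil s t α y)
    (hst : ∀ e, s e ≠ t e) {C h : ℝ} (hp : Params (Fintype.card V) (Fintype.card E) C h α)
    (hsupp : ∀ i, 0 < x i ↔ 0 < y i)
    (hty : ∀ e, (|α * Real.log (x (s e)) - α * Real.log (x (t e))| ≤ Fintype.card V * C ∧
        |α * Real.log (y (s e)) - α * Real.log (y (t e))| ≤ Fintype.card V * C) ∨
      (Fintype.card V * C < α * Real.log (x (s e)) - α * Real.log (x (t e)) ∧
        Fintype.card V * C < α * Real.log (y (s e)) - α * Real.log (y (t e))) ∨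
      (Fintype.card V * C < α * Real.log (x (t e)) - α * Real.log (x (s e)) ∧
        Fintype.card V * C < α * Real.log (y (t e)) - α * Real.log (y (s e))))
    {i0 : V} (hmax : ∀ i, |α * Real.log (y i) - α * Real.log (x i)| ≤
      α * Real.log (y i0) - α * Real.log (x i0))
    (hpos : 0 < α * Real.log (y i0) - α * Real.log (x i0)) : False := by
  classical
  obtain ⟨m, hm⟩ : ∃ m : ℝ, m = ((Fintype.card V : ℕ) : ℝ) := ⟨_, rfl⟩
  obtain ⟨N, hN⟩ : ∃ N : ℝ, N = ((Fintype.card E : ℕ) : ℝ) := ⟨_, rfl⟩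
  rw [← hm, ← hN] at hp
  simp only [← hm] at hty
  have hα0 : 0 < α := by linarith [hp.two_le]
  have hC := hp.C_pos
  have hh : 0 < h := lt_of_lt_of_le hC hp.Ch
  have hN1 : 1 ≤ N := by rw [hN]; exact_mod_cast Fintype.card_pos
  have hm1 : 1 ≤ m := by
    rw [hm]; exact_mod_cast Fintype.card_pos_iff.mpr ⟨i0⟩
  obtain ⟨u, hu⟩ : ∃ u : V → ℝ, u = fun k => α * Real.log (x k) := ⟨_, rfl⟩
  obtain ⟨w, hw⟩ : ∃ w : V → ℝ, w = fun k => α * Real.log (y k) := ⟨_, rfl⟩
  have hu' : ∀ k, α * Real.log (x k) = u k := fun k => by rw [hu]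
  have hw' : ∀ k, α * Real.log (y k) = w k := fun k => by rw [hw]
  simp only [hu', hw'] at hty hmax hpos
  obtain ⟨d, hd⟩ : ∃ d : V → ℝ, d = fun k => w k - u k := ⟨_, rfl⟩
  have hd' : ∀ k, w k - u k = d k := fun k => by rw [hd]
  simp only [hd'] at hmax hpos
  obtain ⟨D, hD⟩ : ∃ D : ℝ, D = d i0 := ⟨_, rfl⟩
  rw [← hD] at hmax hpos
  -- dichotomy for x and y
  have dichx : ∀ i j, 0 < x i → 0 < x j → m * C < u j - u i → h ≤ u j - u i := by
    intro i j hi hj h1
    by_contra hc
    push Not at hc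
    rw [hm, hN] at hp
    exact hx.dichotomy hst hp hi hj (by rw [hu', hu', ← hm]; exact h1)
      (by rw [hu', hu']; exact hc)
  have dichy : ∀ i j, 0 < y i → 0 < y j → m * C < w j - w i → h ≤ w j - w i := by
    intro i j hi hj h1
    by_contra hc
    push Not at hc
    rw [hm, hN] at hp
    exact hy.dichotomy hst hp hi hj (by rw [hw', hw', ← hm]; exact h1)
      (by rw [hw', hw']; exact hc)
  have hx0 : ∀ i, ¬ 0 < x i → x i = 0 := fun i hi => le_antisymm (not_lt.mp hi) (hx.nonneg i)
  have hy0 : ∀ i, ¬ 0 < x i → y i = 0 := fun i hi =>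
    le_antisymm (not_lt.mp (fun h => hi ((hsupp i).2 h))) (hy.nonneg i)
  have hd0 : ∀ i, ¬ 0 < x i → d i = 0 := fun i hi => by
    rw [hd, hu, hw]; simp [hx0 i hi, hy0 i hi]
  have hi0 : 0 < x i0 := by
    by_contra hc
    rw [hD, hd0 i0 hc] at hpos
    exact lt_irrefl _ hpos
  -- change of edge probabilities
  have hprx : ∀ i j, 0 < x i → 0 < x j → pr α (x i) (x j) = sg (u i - u j) := by
    intro i j hi hj
    rw [pr_eq_sg hi hj, hu', hu']
  have hpry : ∀ i j, 0 < x i → 0 < x j → pr α (y i) (y j) = sg (w i - w j) := by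
    intro i j hi hj
    rw [pr_eq_sg ((hsupp i).1 hi) ((hsupp j).1 hj), hw', hw']
  have hsame : ∀ e, ¬ (0 < x (s e) ∧ 0 < x (t e)) →
      pr α (y (s e)) (y (t e)) = pr α (x (s e)) (x (t e)) := by
    intro e he
    by_cases h1 : 0 < x (s e)
    · have h2 : ¬ 0 < x (t e) := fun h2 => he ⟨h1, h2⟩
      rw [hx0 _ h2, hy0 _ h2, pr_zero_right hα0.ne' h1,
        pr_zero_right hα0.ne' ((hsupp _).1 h1)]
    · rw [hx0 _ h1, hy0 _ h1, pr_zero_left hα0.ne', pr_zero_left hα0.ne']
  have hdd : ∀ i j, (w i - w j) - (u i - u j) = d i - d j := by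
    intro i j
    rw [hd]; ring
  -- energy
  set q : E → ℝ := fun e => pr α (y (s e)) (y (t e)) - pr α (x (s e)) (x (t e)) with hq
  have hterm : ∀ e, 0 ≤ q e * (d (s e) - d (t e)) := by
    intro e
    by_cases he : 0 < x (s e) ∧ 0 < x (t e)
    · simp only [hq]
      rw [hprx _ _ he.1 he.2, hpry _ _ he.1 he.2, ← hdd]
      rcases le_total (u (s e) - u (t e)) (w (s e) - w (t e)) with hle | hle
      · exact mul_nonneg (by linarith [sg_mono hle]) (by linarith)
      · exact mul_nonneg_of_nonpos_of_nonpos (by linarith [sg_mono hle]) (by linarith)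
    · simp only [hq]
      rw [hsame e he, sub_self, zero_mul]
  have henergy : ∑ i, (PP s t α y i - PP s t α x i) * d i =
      ∑ e, q e * (d (s e) - d (t e)) := by
    have e1 := sum_PP_mul (s := s) (t := t) (α := α) x d
    have e2 := sum_PP_mul (s := s) (t := t) (α := α) y d
    simp only [sub_mul, Finset.sum_sub_distrib]
    rw [e1, e2, ← Finset.sum_sub_distrib]
    refine Finset.sum_congr rfl fun e _ => ?_
    simp only [hq]
    ring
  have hEup : ∑ i, (PP s t α y i - PP s t α x i) * d i ≤ 2 * N * D ^ 2 / α := by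
    have h1 : ∀ i, (PP s t α y i - PP s t α x i) * d i ≤ (N * (D ^ 2 / α)) * (x i + y i) := by
      intro i
      rw [hx.eq i, hy.eq i, ← hN]
      by_cases hi : 0 < x i
      · have hyi := (hsupp i).1 hi
        have e1 := abs_sub_le_mul_abs_log hi hyi
        have e2 : Real.log (y i) - Real.log (x i) = d i / α := by
          rw [hd, hu, hw]; field_simp
        rw [e2, abs_div, abs_of_pos hα0] at e1
        have e3 : |d i| ≤ D := hmax i
        have e4 : 0 ≤ |d i| := abs_nonneg _
        calc (N * y i - N * x i) * d i = N * ((y i - x i) * d i) := by ring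
          _ ≤ N * (|y i - x i| * |d i|) := by
              apply mul_le_mul_of_nonneg_left _ (by linarith)
              rw [← abs_mul]; exact le_abs_self _
          _ ≤ N * (((x i + y i) * (|d i| / α)) * |d i|) := by
              apply mul_le_mul_of_nonneg_left _ (by linarith)
              exact mul_le_mul_of_nonneg_right e1 e4
          _ = N * (|d i| ^ 2 / α) * (x i + y i) := by ring
          _ ≤ (N * (D ^ 2 / α)) * (x i + y i) := by
              apply mul_le_mul_of_nonneg_right _ (by linarith)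
              apply mul_le_mul_of_nonneg_left _ (by linarith)
              apply div_le_div_of_nonneg_right _ hα0.le
              exact pow_le_pow_left₀ e4 e3 2
      · rw [hx0 i hi, hy0 i hi, hd0 i hi]; simp
    calc _ ≤ ∑ i, (N * (D ^ 2 / α)) * (x i + y i) := Finset.sum_le_sum fun i _ => h1 i
      _ = 2 * N * D ^ 2 / α := by
          rw [← Finset.mul_sum, Finset.sum_add_distrib, hx.sum_one, hy.sum_one]; ring
  -- gap in d
  have hL : 0 < D / m := by positivity
  obtain ⟨l, hl, g⟩ := exists_gap_down d i0 hL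
  have hl' : (l:ℝ) + 1 ≤ m := by rw [hm]; exact_mod_cast hl
  rw [← hD] at g
  set a : ℝ := D - l * (D / m) with ha
  have g' : ∀ k, d k < a → d k ≤ a - D / m := by
    intro k hk
    by_contra hc
    push Not at hc
    exact g k ⟨by rw [ha] at hc; linarith, hk⟩
  have hapos : 0 < a := by
    have : (l + 1) * (D / m) ≤ m * (D / m) := mul_le_mul_of_nonneg_right hl' hL.le
    have e2 : m * (D / m) = D := by field_simp
    rw [ha]; linarith
  set T : Finset V := univ.filter (fun k => 0 < x k ∧ a ≤ d k) with hT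
  have memT : ∀ k, k ∈ T ↔ (0 < x k ∧ a ≤ d k) := fun k => by simp [hT]
  have hi0T : i0 ∈ T := by
    rw [memT]
    refine ⟨hi0, ?_⟩
    rw [ha, ← hD]
    have : 0 ≤ (l:ℝ) * (D / m) := by positivity
    linarith
  -- boundary edges of T are not ties
  have hc0 : 2 * N * D ^ 2 / α <
      Real.exp (-(m * C)) / (1 + Real.exp (m * C)) ^ 2 * (D / m) ^ 2 := by
    have e1 := hp.p4
    have e2 : 0 < (D / m) ^ 2 := by positivity
    have e3 := mul_lt_mul_of_pos_right e1 e2
    have e4 : 2 * N * m ^ 2 / α * (D / m) ^ 2 = 2 * N * D ^ 2 / α := by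
      field_simp
    rw [e4] at e3
    exact e3
  have hEge : ∀ e, q e * (d (s e) - d (t e)) ≤ 2 * N * D ^ 2 / α := by
    intro e
    refine le_trans ?_ hEup
    rw [henergy]
    exact Finset.single_le_sum (f := fun e => q e * (d (s e) - d (t e)))
      (fun e _ => hterm e) (Finset.mem_univ e)
  have hnotie : ∀ e, 0 < x (s e) → 0 < x (t e) →
      D / m ≤ |d (s e) - d (t e)| → ¬ (|u (s e) - u (t e)| ≤ m * C ∧
        |w (s e) - w (t e)| ≤ m * C) := by
    intro e h1 h2 h3 ⟨h4, h5⟩
    have e1 := hEge e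
    simp only [hq] at e1
    rw [hprx _ _ h1 h2, hpry _ _ h1 h2] at e1
    have e2 : Real.exp (-(m * C)) / (1 + Real.exp (m * C)) ^ 2 *
        (d (s e) - d (t e)) ^ 2 ≤
        (sg (w (s e) - w (t e)) - sg (u (s e) - u (t e))) * (d (s e) - d (t e)) := by
      rcases le_total (u (s e) - u (t e)) (w (s e) - w (t e)) with hle | hle
      · have := sg_sub_lower hle h5 h4
        rw [hdd] at this
        have hnn : 0 ≤ d (s e) - d (t e) := by rw [← hdd]; linarith
        nlinarith [mul_le_mul_of_nonneg_right this hnn]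
      · have := sg_sub_lower hle h4 h5
        have hnn : 0 ≤ -(d (s e) - d (t e)) := by rw [← hdd]; linarith
        have e3 : (u (s e) - u (t e)) - (w (s e) - w (t e)) = -(d (s e) - d (t e)) := by
          rw [← hdd]; ring
        rw [e3] at this
        nlinarith [mul_le_mul_of_nonneg_right this hnn]
    have e3 : (D / m) ^ 2 ≤ (d (s e) - d (t e)) ^ 2 := by
      rw [← sq_abs (d (s e) - d (t e))]
      exact pow_le_pow_left₀ hL.le h3 2
    have e4 : 0 < Real.exp (-(m * C)) / (1 + Real.exp (m * C)) ^ 2 := by positivity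
    have e5 := mul_le_mul_of_nonneg_left e3 e4.le
    linarith
  have hqbd : ∀ e, 0 < x (s e) → 0 < x (t e) → D / m ≤ |d (s e) - d (t e)| →
      |q e| ≤ Real.exp (-h) * (2 * D) := by
    intro e h1 h2 h3
    have h4 := hnotie e h1 h2 h3
    have h5 : |d (s e) - d (t e)| ≤ 2 * D := by
      have e1 := hmax (s e)
      have e2 := hmax (t e)
      calc |d (s e) - d (t e)| ≤ |d (s e)| + |d (t e)| := abs_sub _ _
        _ ≤ 2 * D := by linarith
    simp only [hq]
    rw [hprx _ _ h1 h2, hpry _ _ h1 h2]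
    have h6 : |sg (w (s e) - w (t e)) - sg (u (s e) - u (t e))| ≤
        Real.exp (-h) * |(w (s e) - w (t e)) - (u (s e) - u (t e))| := by
      apply sg_sub_abs_le
      rcases hty e with h7 | h7 | h7
      · exact absurd h7 h4
      · left
        exact ⟨dichy _ _ ((hsupp _).1 h2) ((hsupp _).1 h1) h7.2, dichx _ _ h2 h1 h7.1⟩
      · right
        have e1 := dichy _ _ ((hsupp _).1 h1) ((hsupp _).1 h2) h7.2
        have e2 := dichx _ _ h1 h2 h7.1
        exact ⟨by linarith, by linarith⟩
    rw [hdd] at h6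
    exact h6.trans (mul_le_mul_of_nonneg_left h5 (Real.exp_pos _).le)
  -- sum over T
  have hsumT : N * ∑ k ∈ T, (y k - x k) ≤ N * (Real.exp (-h) * (2 * D)) := by
    have e1 : N * ∑ k ∈ T, (y k - x k) = ∑ i ∈ T, PP s t α y i - ∑ i ∈ T, PP s t α x i := by
      rw [← Finset.sum_sub_distrib, Finset.mul_sum]
      refine Finset.sum_congr rfl fun i _ => ?_
      rw [hx.eq i, hy.eq i, ← hN]; ring
    rw [e1, sum_PP, sum_PP, ← Finset.sum_sub_distrib]
    have e2 : N * (Real.exp (-h) * (2 * D)) = ∑ _e : E, Real.exp (-h) * (2 * D) := by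
      rw [Finset.sum_const, nsmul_eq_mul, Finset.card_univ, hN]
    rw [e2]
    refine Finset.sum_le_sum fun e _ => ?_
    have hRpos : 0 ≤ Real.exp (-h) * (2 * D) := by positivity
    have hgapd : ∀ k ∈ T, ∀ l, l ∉ T → 0 < x l → D / m ≤ d k - d l := by
      intro k hk l hl hxl
      have hk' := (memT k).1 hk
      have : d l < a := by
        by_contra hc
        push Not at hc
        exact hl ((memT l).2 ⟨hxl, hc⟩)
      have := g' l this
      linarith [hk'.2]
    by_cases hs : s e ∈ T <;> by_cases ht : t e ∈ T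
    · simp only [if_pos hs, if_pos ht]; linarith
    · simp only [if_pos hs, if_neg ht]
      by_cases hxt : 0 < x (t e)
      · have h3 := hgapd _ hs _ ht hxt
        have h4 := hqbd e ((memT _).1 hs).1 hxt (h3.trans (le_abs_self _))
        have h5 := le_abs_self (q e)
        simp only [hq] at h4 h5
        linarith
      · have := hsame e (fun hc => hxt hc.2)
        linarith
    · simp only [if_neg hs, if_pos ht]
      by_cases hxs : 0 < x (s e)
      · have h3 := hgapd _ ht _ hs hxs
        have h4 := hqbd e hxs ((memT _).1 ht).1 (by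
          rw [abs_sub_comm]
          exact h3.trans (le_abs_self _))
        have h5 := neg_abs_le (q e)
        simp only [hq] at h4 h5
        linarith
      · have := hsame e (fun hc => hxs hc.1)
        linarith
    · simp only [if_neg hs, if_neg ht]; linarith
  have hlow : (1 / (2 * N)) ^ 2 * (D / α) ≤ ∑ k ∈ T, (y k - x k) := by
    have hnn : ∀ k ∈ T, 0 ≤ y k - x k := by
      intro k hk
      have hk' := (memT k).1 hk
      have e1 := mul_log_le_sub hk'.1 ((hsupp k).1 hk'.1)
      have e2 : Real.log (y k) - Real.log (x k) = d k / α := by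
        rw [hd, hu, hw]; field_simp
      rw [e2] at e1
      refine le_trans ?_ e1
      have : 0 ≤ d k := by linarith [hk'.2]
      have := hk'.1
      positivity
    refine le_trans ?_ (Finset.single_le_sum hnn hi0T)
    have e1 := mul_log_le_sub hi0 ((hsupp i0).1 hi0)
    have e2 : Real.log (y i0) - Real.log (x i0) = D / α := by
      rw [hD, hd, hu, hw]; field_simp
    rw [e2] at e1
    refine le_trans ?_ e1
    have e3 := hx.lb hst hp.two_le hi0
    rw [← hN] at e3
    exact mul_le_mul_of_nonneg_right e3 (by positivity)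
  have f1 : (1 / (2 * N)) ^ 2 * (D / α) ≤ Real.exp (-h) * (2 * D) :=
    hlow.trans (le_of_mul_le_mul_left hsumT (by linarith))
  have f2 : (1 / (2 * N)) ^ 2 ≤ 2 * Real.exp (-h) * α := by
    have : (1 / (2 * N)) ^ 2 * (D / α) * (α / D) ≤ Real.exp (-h) * (2 * D) * (α / D) :=
      mul_le_mul_of_nonneg_right f1 (by positivity)
    have e1 : (1 / (2 * N)) ^ 2 * (D / α) * (α / D) = (1 / (2 * N)) ^ 2 := by field_simp
    have e2 : Real.exp (-h) * (2 * D) * (α / D) = 2 * Real.exp (-h) * α := by field_simp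
    rw [e1, e2] at this
    exact this
  exact absurd hp.p3 (not_lt.mpr f2)

end Pool.Agent.MP_cd93fa_pr
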